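import Pool.Agent.WPl.Est

/-!
# Weil's bound for absolutely irreducible plane curves over a prime field (module WPl/Final)
-/

namespace Pool.Agent.WPl

open Polynomial

section quot

variable {K : Type*} [Field K]

/-- `(g(Z) - g(Y)) / (Z - Y)`. -/
noncomputable def quo {R : Type*} [CommRing R] (g : R[X]) : R[X][X] :=
  ∑ j ∈ Finset.range (g.natDegree + 1), C (C (g.coeff j)) *
    ∑ i ∈ Finset.range j, X ^ i * (C X) ^ (j - 1 - i)

theorem quo_mul {R : Type*} [CommRing R] (g : R[X]) :
    quo g * (X - C X) = g.map C - C g := by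
  rw [quo, Finset.sum_mul]
  have h1 : ∀ j ∈ Finset.range (g.natDegree + 1), C (C (g.coeff j)) *
      (∑ i ∈ Finset.range j, X ^ i * (C X : R[X][X]) ^ (j - 1 - i)) * (X - C X) =
      C (C (g.coeff j)) * X ^ j - C (C (g.coeff j) * X ^ j) := by
    intro j _
    rw [mul_assoc, Commute.geom_sum₂_mul (Commute.all _ _), mul_sub, C_mul, C_pow]
  rw [Finset.sum_congr rfl h1, Finset.sum_sub_distrib]
  congr 1
  · conv_rhs => rw [g.as_sum_range_C_mul_X_pow, Polynomial.map_sum]
    apply Finset.sum_congr rfl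
    intro j _
    rw [Polynomial.map_mul, Polynomial.map_pow, map_X, map_C]
  · conv_rhs => rw [g.as_sum_range_C_mul_X_pow, map_sum]

theorem monic_rhs {R : Type*} [CommRing R] [Nontrivial R] {g : R[X]} (hg : g.Monic)
    (hd : 1 ≤ g.natDegree) : (g.map C - C g : R[X][X]).Monic ∧
      (g.map C - C g : R[X][X]).natDegree = g.natDegree := by
  have h1 : (C g : R[X][X]).degree < (g.map (C : R →+* R[X])).degree := by
    rw [hg.degree_map, degree_eq_natDegree hg.ne_zero]
    exact degree_C_le.trans_lt (by exact_mod_cast hd)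
  refine ⟨(hg.map _).sub_of_left h1, ?_⟩
  rw [natDegree_sub_eq_left_of_natDegree_lt, hg.natDegree_map]
  rw [natDegree_C, hg.natDegree_map]
  exact hd

theorem quo_monic {R : Type*} [CommRing R] [Nontrivial R] {g : R[X]} (hg : g.Monic)
    (hd : 1 ≤ g.natDegree) : (quo g).Monic := by
  have h1 := (monic_rhs hg hd).1
  rw [← quo_mul] at h1
  exact (monic_X_sub_C _).of_mul_monic_right h1

theorem natDegree_quo {R : Type*} [CommRing R] [Nontrivial R] {g : R[X]} (hg : g.Monic)
    (hd : 1 ≤ g.natDegree) : (quo g).natDegree = g.natDegree - 1 := by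
  have h1 := (monic_rhs hg hd).2
  rw [← quo_mul, (quo_monic hg hd).natDegree_mul (monic_X_sub_C _), natDegree_X_sub_C] at h1
  omega

theorem quo_mem {g : K[X][X]} {D : ℕ} (hd : 1 ≤ g.natDegree)
    (hgw : g ∈ (fil2 K D).F (D * g.natDegree)) :
    quo g ∈ (fil3 K D).F (D * (g.natDegree - 1)) := by
  rw [quo]
  apply Submodule.sum_mem
  intro j hj
  rw [Finset.mul_sum]
  apply Submodule.sum_mem
  intro i hi
  rw [Finset.mem_range] at hj hi
  by_cases h0 : g.coeff j = 0
  · rw [h0, C_0, C_0, zero_mul]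
    exact Submodule.zero_mem _
  have h1 := hgw j h0
  have h2 : (C (C (g.coeff j)) : K[X][X][X]) ∈ (fil3 K D).F (D * g.natDegree - D * j) :=
    C_mem (C_mem h1.2)
  have h3 : (X ^ i : K[X][X][X]) ∈ (fil3 K D).F (i * D) := pow_mem X_mem i
  have h4 : ((C X) ^ (j - 1 - i) : K[X][X][X]) ∈ (fil3 K D).F ((j - 1 - i) * D) :=
    pow_mem (C_mem X_mem) _
  have h5 := (fil3 K D).mul h2 ((fil3 K D).mul h3 h4)
  refine (fil3 K D).mono (le_of_eq ?_) h5
  obtain ⟨m, hm⟩ : ∃ m, j = i + 1 + m := ⟨j - (i + 1), by omega⟩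
  obtain ⟨n, hn⟩ : ∃ n, g.natDegree = j + n := ⟨g.natDegree - j, by omega⟩
  have e1 : j - 1 - i = m := by omega
  have e2 : g.natDegree - 1 = i + m + n := by omega
  have e3 : D * g.natDegree - D * j = D * n := by
    rw [hn, mul_add]; omega
  rw [e1, e2, e3]
  ring

theorem lin_mem (D : ℕ) : (X - C X : K[X][X][X]) ∈ (fil3 K D).F D :=
  Submodule.sub_mem _ X_mem (C_mem X_mem)

theorem ev3_map_C (x y z : K) (g : K[X][X]) : ev3 x y z (g.map C) = g.evalEval x z := by
  have h : (ev3 x y z).comp (mapRingHom C) = evalEvalRingHom x z := by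
    apply ringHom_ext'
    · apply ringHom_ext'
      · ext a
        simp [ev3, evalEvalRingHom]
      · simp [ev3, evalEvalRingHom]
    · simp [ev3, evalEvalRingHom]
  have := RingHom.congr_fun h g
  simpa using this

theorem ev3_sub (x y z : K) (P Q : K[X][X][X]) :
    ev3 x y z (P - Q) = ev3 x y z P - ev3 x y z Q :=
  map_sub (ev3 x y z) P Q

theorem ev3_C (x y z : K) (g : K[X][X]) : ev3 x y z (C g) = g.evalEval x y := by
  simp [ev3]

end quot

section main

variable {p : ℕ} [Fact p.Prime] {K : Type} [Field K] [IsAlgClosed K] [Algebra (ZMod p) K]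

/-- Base change of `f` to `K`. -/
noncomputable abbrev bc (K : Type) [Field K] [Algebra (ZMod p) K] (f : (ZMod p)[X][X]) : K[X][X] :=
  f.map (mapRingHom (algebraMap (ZMod p) K))

omit [IsAlgClosed K] in
theorem evalEval_bc (f : (ZMod p)[X][X]) (x y : ZMod p) :
    (bc K f).evalEval (algebraMap (ZMod p) K x) (algebraMap (ZMod p) K y) =
      algebraMap (ZMod p) K (f.evalEval x y) := by
  have h : (evalEvalRingHom (algebraMap (ZMod p) K x) (algebraMap (ZMod p) K y)).comp
      (mapRingHom (mapRingHom (algebraMap (ZMod p) K))) =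
      (algebraMap (ZMod p) K).comp (evalEvalRingHom x y) := by
    apply ringHom_ext'
    · apply ringHom_ext'
      · exact RingHom.ext_zmod _ _
      · simp [evalEvalRingHom]
    · simp [evalEvalRingHom]
  have := RingHom.congr_fun h f
  simpa using this

omit [IsAlgClosed K] in
theorem evalEval_bc_pow [CharP K p] (f : (ZMod p)[X][X]) {x y : K} (hx : x ^ p = x) :
    (bc K f).evalEval x (y ^ p) = ((bc K f).evalEval x y) ^ p := by
  have h : (evalEvalRingHom x (y ^ p)).comp
      (mapRingHom (mapRingHom (algebraMap (ZMod p) K))) =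
      (frobenius K p).comp ((evalEvalRingHom x y).comp
      (mapRingHom (mapRingHom (algebraMap (ZMod p) K)))) := by
    apply ringHom_ext'
    · apply ringHom_ext'
      · exact RingHom.ext_zmod _ _
      · simp [evalEvalRingHom, frobenius_def, hx]
    · simp [evalEvalRingHom, frobenius_def]
  exact RingHom.congr_fun h f

omit [IsAlgClosed K] in
theorem pow_algebraMap (x : ZMod p) : (algebraMap (ZMod p) K x) ^ p = algebraMap (ZMod p) K x := by
  rw [← map_pow, ZMod.pow_card]

omit [IsAlgClosed K] in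
theorem exists_of_pow_eq {y : K} (hy : y ^ p = y) : ∃ x : ZMod p, algebraMap (ZMod p) K x = y := by
  classical
  have hp1 : 1 < p := (Fact.out : p.Prime).one_lt
  have hne : (X ^ p - X : K[X]) ≠ 0 := FiniteField.X_pow_card_sub_X_ne_zero K hp1
  have hinj : Function.Injective (algebraMap (ZMod p) K) := (algebraMap (ZMod p) K).injective
  have hsub : (Finset.univ : Finset (ZMod p)).image (algebraMap (ZMod p) K) ⊆
      (X ^ p - X : K[X]).roots.toFinset := by
    intro x hx
    obtain ⟨s, _, rfl⟩ := Finset.mem_image.1 hx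
    rw [Multiset.mem_toFinset, mem_roots hne, IsRoot.def, eval_sub, eval_pow, eval_X,
      pow_algebraMap, sub_self]
  have hcard : (X ^ p - X : K[X]).roots.toFinset.card ≤
      ((Finset.univ : Finset (ZMod p)).image (algebraMap (ZMod p) K)).card := by
    rw [Finset.card_image_of_injective _ hinj, Finset.card_univ, ZMod.card]
    refine (Multiset.toFinset_card_le _).trans ((card_roots' _).trans ?_)
    rw [FiniteField.X_pow_card_sub_X_natDegree_eq K hp1]
  have heq := Finset.eq_of_subset_of_card_le hsub hcard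
  have hy' : y ∈ (X ^ p - X : K[X]).roots.toFinset := by
    rw [Multiset.mem_toFinset, mem_roots hne, IsRoot.def, eval_sub, eval_pow, eval_X, hy, sub_self]
  rw [← heq] at hy'
  obtain ⟨x, _, hx⟩ := Finset.mem_image.1 hy'
  exact ⟨x, hx⟩

omit [IsAlgClosed K] in
theorem bc_mem {f : (ZMod p)[X][X]} {d D : ℕ} (hfd : f.natDegree = d)
    (hw : ∀ j, (f.coeff j).natDegree ≤ D * (d - j)) : bc K f ∈ (fil2 K D).F (D * d) := by
  intro j hj
  have h1 : f.coeff j ≠ 0 := by
    intro h0
    rw [bc, coeff_map, h0, map_zero] at hj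
    exact hj rfl
  have h2 : j ≤ d := hfd ▸ le_natDegree_of_ne_zero h1
  refine ⟨Nat.mul_le_mul_left _ h2, ?_⟩
  rw [mem_fil1, bc, coeff_map]
  refine (natDegree_map_le).trans ((hw j).trans (le_of_eq ?_))
  rw [Nat.mul_sub]

omit [IsAlgClosed K] in
/-- If the norm of the derivative does not vanish at `x` then `g(x, Y)` is separable. -/
theorem separable_of_nm {g : K[X][X]} (hg : g.Monic) {x : K}
    (h : (nm g g.natDegree (derivative g)).eval x ≠ 0) :
    (g.map (evalRingHom x)).Separable := by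
  obtain ⟨a, b, hab⟩ := nm_mem hg (derivative g)
  have h1 := congrArg (Polynomial.map (evalRingHom x)) hab
  rw [map_C, Polynomial.map_add, Polynomial.map_mul, Polynomial.map_mul, ← derivative_map,
    coe_evalRingHom] at h1
  rw [separable_def]
  set n := (nm g g.natDegree (derivative g)).eval x with hn
  refine ⟨C n⁻¹ * a.map (evalRingHom x), C n⁻¹ * b.map (evalRingHom x), ?_⟩
  rw [mul_assoc, mul_assoc, ← mul_add, ← h1, ← C_mul, inv_mul_cancel₀ h, C_1]

theorem weil_aux (d D : ℕ) (hd : 1 ≤ d) (hD : 1 ≤ D) : ∃ C : ℝ, 0 ≤ C ∧ ∀ (p : ℕ) [Fact p.Prime]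
    (K : Type) [Field K] [IsAlgClosed K] [Algebra (ZMod p) K] (f : (ZMod p)[X][X]), f.Monic →
    f.natDegree = d → (∀ j, (f.coeff j).natDegree ≤ D * (d - j)) → Irreducible (bc K f) →
    |(Nat.card {z : ZMod p × ZMod p // f.evalEval z.1 z.2 = 0} : ℝ) - p| ≤ C * Real.sqrt p := by
  classical
  obtain ⟨C₁, hC₁, H₁⟩ := card_S_le d D 1 hd hD le_rfl
  obtain ⟨C₂, hC₂, H₂⟩ : ∃ C : ℝ, 0 ≤ C ∧ ∀ (p : ℕ) [Fact p.Prime] (K : Type) [Field K]
      [IsAlgClosed K] [CharP K p]
      (f : K[X][X]) (F : K[X][X][X]) (S : Finset (K × K)), f.Monic → Prime f → f.natDegree = d →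
      f ∈ (fil2 K D).F (D * d) → F.Monic → F.natDegree = d - 1 →
      F ∈ (fil3 K D).F (D * (d - 1)) →
      (∀ s ∈ S, s.1 ^ p = s.1 ∧ f.evalEval s.1 s.2 = 0 ∧
        (f.map (evalRingHom s.1)).Separable ∧ ev3 s.1 s.2 (s.2 ^ p) F = 0) →
      (S.card : ℝ) ≤ (d - 1 : ℕ) * p + C * Real.sqrt p := by
    rcases Nat.eq_or_lt_of_le hd with h1 | h1
    · refine ⟨0, le_rfl, ?_⟩
      intro p _ K _ _ _ f F S _ _ _ _ hF hFd _ hS
      have hF1 : F = 1 := by
        apply hF.natDegree_eq_zero.1
        rw [hFd, ← h1]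
      have hS0 : S = ∅ := by
        apply Finset.eq_empty_of_forall_notMem
        intro s hs
        have := (hS s hs).2.2.2
        rw [hF1, map_one] at this
        exact one_ne_zero this
      rw [hS0, ← h1]
      simp
    · exact card_S_le d D (d - 1) hd hD (by omega)
  refine ⟨C₁ + C₂ + d * d + d * (d * (D * d)), by positivity, ?_⟩
  intro p hpp K _ _ _ f hf hfd hw hirr
  have hp1 : 1 < p := hpp.out.one_lt
  have hsq : (1 : ℝ) ≤ Real.sqrt p := by
    rw [Real.one_le_sqrt]
    exact_mod_cast hp1.le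
  have : CharP K p := charP_of_injective_algebraMap (algebraMap (ZMod p) K).injective p
  set ι : ZMod p →+* K := algebraMap (ZMod p) K with hι
  have hinj : Function.Injective ι := (algebraMap (ZMod p) K).injective
  set Z : Finset (ZMod p × ZMod p) := Finset.univ.filter fun z => f.evalEval z.1 z.2 = 0 with hZ
  have hN : Nat.card {z : ZMod p × ZMod p // f.evalEval z.1 z.2 = 0} = Z.card := by
    rw [Nat.card_eq_fintype_card, Fintype.card_subtype]
  rw [hN]
  set g := bc K f with hgdef
  have hg : g.Monic := hf.map _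
  have hgd : g.natDegree = d := by rw [hgdef, bc, hf.natDegree_map, hfd]
  have hgw : g ∈ (fil2 K D).F (D * d) := bc_mem hfd hw
  have hgp : Prime g := hirr.prime
  -- every fibre has at most `d` points
  have hfib : ∀ (S : Finset (ZMod p × ZMod p)), S ⊆ Z →
      S.card ≤ d * (S.image Prod.fst).card := by
    intro S hS
    apply Finset.card_le_mul_card_image
    intro x hx
    have hm : (g.map (evalRingHom (ι x))).Monic := hg.map _
    have hsub : (S.filter fun s => s.1 = x).image (fun s => ι s.2) ⊆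
        (g.map (evalRingHom (ι x))).roots.toFinset := by
      intro y hy
      obtain ⟨s, hs, rfl⟩ := Finset.mem_image.1 hy
      rw [Finset.mem_filter] at hs
      rw [Multiset.mem_toFinset, mem_roots hm.ne_zero, IsRoot.def, ← hs.2,
        map_evalRingHom_eval, hgdef, hι, evalEval_bc, (Finset.mem_filter.1 (hS hs.1)).2, map_zero]
    have hinj' : Set.InjOn (fun s : ZMod p × ZMod p => ι s.2)
        ((S.filter fun s => s.1 = x : Finset (ZMod p × ZMod p)) : Set (ZMod p × ZMod p)) := by
      intro s hs s' hs' h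
      rw [Finset.mem_coe, Finset.mem_filter] at hs hs'
      exact Prod.ext (hs.2.trans hs'.2.symm) (hinj h)
    rw [← Finset.card_image_of_injOn hinj']
    refine (Finset.card_le_card hsub).trans ((Multiset.toFinset_card_le _).trans ?_)
    refine (card_roots' _).trans ?_
    rw [hg.natDegree_map, hgd]
  have hd1 : (1 : ℝ) ≤ d := by exact_mod_cast hd
  by_cases hpd : p ≤ d
  · -- small characteristic
    have h1 := hfib Z (Finset.Subset.refl _)
    have h2 : (Z.image Prod.fst).card ≤ p := by
      refine (Finset.card_le_univ _).trans ?_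
      rw [ZMod.card]
    have h3 : (Z.card : ℝ) ≤ d * d := by
      have : Z.card ≤ d * d := h1.trans (Nat.mul_le_mul_left _ (h2.trans hpd))
      exact_mod_cast this
    have h4 : (p : ℝ) ≤ d * d := by
      have : p ≤ d * d := hpd.trans (Nat.le_mul_of_pos_left _ hd)
      exact_mod_cast this
    have h5 : |(Z.card : ℝ) - p| ≤ d * d := by
      rw [abs_le]
      constructor
      · have : (0 : ℝ) ≤ Z.card := Nat.cast_nonneg _
        linarith
      · have : (0 : ℝ) ≤ p := Nat.cast_nonneg _
        linarith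
    have h6 : (d : ℝ) * d * 1 ≤ (C₁ + C₂ + d * d + d * (d * (D * d))) * Real.sqrt p := by
      apply mul_le_mul _ hsq (by norm_num) (by positivity)
      have : (0 : ℝ) ≤ d * (d * (D * d)) := by positivity
      linarith
    linarith
  push Not at hpd
  have hder : ¬ g ∣ derivative g := not_dvd_derivative hg (p := p) (by omega) (by omega)
  set n := nm g g.natDegree (derivative g) with hn
  have hn0 : n ≠ 0 := nm_ne_zero hg hgp hder
  have hnd : n.natDegree ≤ d * (D * d) := by
    have := natDegree_nm_le hg (D := D) (W := D * d) (by rw [hgd]; exact hgw)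
      (derivative_mem hgw)
    rw [← hn] at this
    rwa [hgd] at this
  set bad : Finset (ZMod p) := Finset.univ.filter fun x => n.eval (ι x) = 0 with hbad
  set good : Finset (ZMod p) := Finset.univ.filter fun x => ¬ n.eval (ι x) = 0 with hgood
  have hsum : bad.card + good.card = p := by
    rw [hbad, hgood, Finset.card_filter_add_card_filter_not, Finset.card_univ, ZMod.card]
  have hbadle : bad.card ≤ d * (D * d) := by
    have hsub : bad.image ι ⊆ n.roots.toFinset := by
      intro y hy
      obtain ⟨x, hx, rfl⟩ := Finset.mem_image.1 hy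
      rw [Multiset.mem_toFinset, mem_roots hn0, IsRoot.def]
      exact (Finset.mem_filter.1 hx).2
    rw [← Finset.card_image_of_injective _ hinj]
    exact (Finset.card_le_card hsub).trans ((Multiset.toFinset_card_le _).trans
      ((card_roots' _).trans hnd))
  have hsep : ∀ x ∈ good, (g.map (evalRingHom (ι x))).Separable := by
    intro x hx
    exact separable_of_nm hg (Finset.mem_filter.1 hx).2
  set T : Finset (K × K) := good.biUnion fun x =>
    (g.map (evalRingHom (ι x))).roots.toFinset.image fun y => (ι x, y) with hT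
  have hTmem : ∀ s : K × K, s ∈ T ↔ ∃ x ∈ good, s.1 = ι x ∧ g.evalEval s.1 s.2 = 0 := by
    intro s
    rw [hT, Finset.mem_biUnion]
    constructor
    · rintro ⟨x, hx, hs⟩
      obtain ⟨y, hy, rfl⟩ := Finset.mem_image.1 hs
      refine ⟨x, hx, rfl, ?_⟩
      rw [Multiset.mem_toFinset, mem_roots (hg.map _).ne_zero, IsRoot.def,
        map_evalRingHom_eval] at hy
      exact hy
    · rintro ⟨x, hx, hs, h0⟩
      refine ⟨x, hx, Finset.mem_image.2 ⟨s.2, ?_, Prod.ext hs.symm rfl⟩⟩
      rw [Multiset.mem_toFinset, mem_roots (hg.map _).ne_zero, IsRoot.def,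
        map_evalRingHom_eval, ← hs]
      exact h0
  have hTcard : T.card = good.card * d := by
    rw [hT, Finset.card_biUnion]
    · rw [Finset.sum_const_nat]
      intro x hx
      rw [Finset.card_image_of_injective _ (Prod.mk_right_injective _),
        Multiset.toFinset_card_of_nodup (nodup_roots (hsep x hx)),
        ← (IsAlgClosed.splits _).natDegree_eq_card_roots, hg.natDegree_map, hgd]
    · intro x _ x' _ hne
      rw [Function.onFun, Finset.disjoint_left]
      intro s hs hs'
      obtain ⟨y, _, rfl⟩ := Finset.mem_image.1 hs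
      obtain ⟨y', _, h⟩ := Finset.mem_image.1 hs'
      exact hne (hinj (Prod.ext_iff.1 h).1.symm)
  set S₁ := T.filter fun s => s.2 ^ p = s.2 with hS₁
  set S₂ := T.filter fun s => ev3 s.1 s.2 (s.2 ^ p) (quo g) = 0 with hS₂
  have hbase : ∀ s ∈ T, s.1 ^ p = s.1 ∧ g.evalEval s.1 s.2 = 0 ∧
      (g.map (evalRingHom s.1)).Separable := by
    intro s hs
    obtain ⟨x, hx, h1, h2⟩ := (hTmem s).1 hs
    refine ⟨?_, h2, ?_⟩
    · rw [h1, hι, pow_algebraMap]
    · rw [h1]
      exact hsep x hx
  have hcover : T ⊆ S₁ ∪ S₂ := by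
    intro s hs
    obtain ⟨h1, h2, h3⟩ := hbase s hs
    have h4 : ev3 s.1 s.2 (s.2 ^ p) (quo g) * (s.2 ^ p - s.2) = 0 := by
      have e1 : ev3 s.1 s.2 (s.2 ^ p) (X - C X) = s.2 ^ p - s.2 := by
        rw [ev3_sub, ev3_C, evalEval_X]
        simp [ev3]
      rw [← e1, ← map_mul, quo_mul, ev3_sub, ev3_map_C, ev3_C, h2, hgdef, evalEval_bc_pow f h1,
        ← hgdef, h2, zero_pow hpp.out.ne_zero, sub_zero]
    rw [Finset.mem_union, hS₁, hS₂, Finset.mem_filter, Finset.mem_filter]
    rcases mul_eq_zero.1 h4 with h5 | h5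
    · exact Or.inr ⟨hs, h5⟩
    · exact Or.inl ⟨hs, sub_eq_zero.1 h5⟩
  have hST : T.card ≤ S₁.card + S₂.card :=
    (Finset.card_le_card hcover).trans (Finset.card_union_le _ _)
  have hb1 : (S₁.card : ℝ) ≤ (1 : ℕ) * p + C₁ * Real.sqrt p := by
    apply H₁ p K g (X - C X) S₁ hg hgp hgd hgw (monic_X_sub_C _) (natDegree_X_sub_C _)
      (by rw [mul_one]; exact lin_mem D)
    intro s hs
    rw [hS₁, Finset.mem_filter] at hs
    obtain ⟨h1, h2, h3⟩ := hbase s hs.1
    refine ⟨h1, h2, h3, ?_⟩
    rw [ev3_sub, ev3_C, evalEval_X]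
    simp [ev3, hs.2]
  have hb2 : (S₂.card : ℝ) ≤ (d - 1 : ℕ) * p + C₂ * Real.sqrt p := by
    have hgd' : 1 ≤ g.natDegree := by rw [hgd]; exact hd
    apply H₂ p K g (quo g) S₂ hg hgp hgd hgw (quo_monic hg hgd') (by rw [natDegree_quo hg hgd', hgd])
      (by
        have := quo_mem (D := D) hgd' (by rw [hgd]; exact hgw)
        rwa [hgd] at this)
    intro s hs
    rw [hS₂, Finset.mem_filter] at hs
    obtain ⟨h1, h2, h3⟩ := hbase s hs.1
    exact ⟨h1, h2, h3, hs.2⟩
  -- comparison of `Z` and `S₁`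
  set φ : ZMod p × ZMod p → K × K := fun z => (ι z.1, ι z.2) with hφ
  have hφinj : Function.Injective φ := by
    intro z z' h
    exact Prod.ext (hinj (Prod.ext_iff.1 h).1) (hinj (Prod.ext_iff.1 h).2)
  have hlow : S₁.card ≤ Z.card := by
    rw [← Finset.card_image_of_injective Z hφinj]
    apply Finset.card_le_card
    intro s hs
    rw [hS₁, Finset.mem_filter] at hs
    obtain ⟨x, hx, h1, h2⟩ := (hTmem s).1 hs.1
    obtain ⟨y, hy⟩ := exists_of_pow_eq (K := K) hs.2
    refine Finset.mem_image.2 ⟨(x, y), ?_, Prod.ext h1.symm hy⟩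
    rw [hZ, Finset.mem_filter]
    refine ⟨Finset.mem_univ _, ?_⟩
    rw [h1, ← hy, hgdef, hι, evalEval_bc] at h2
    exact (map_eq_zero _).1 h2
  have hup : Z.card ≤ S₁.card + d * bad.card := by
    have h1 : Z = (Z.filter fun z => z.1 ∈ bad) ∪ (Z.filter fun z => ¬ z.1 ∈ bad) :=
      (Finset.filter_union_filter_not_eq _ _).symm
    rw [h1]
    refine (Finset.card_union_le _ _).trans ?_
    rw [add_comm]
    apply add_le_add
    · rw [← Finset.card_image_of_injective _ hφinj]
      apply Finset.card_le_card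
      intro s hs
      obtain ⟨z, hz, rfl⟩ := Finset.mem_image.1 hs
      rw [Finset.mem_filter] at hz
      rw [hS₁, Finset.mem_filter]
      refine ⟨(hTmem _).2 ⟨z.1, ?_, rfl, ?_⟩, ?_⟩
      · rw [hgood, Finset.mem_filter]
        refine ⟨Finset.mem_univ _, fun h0 => hz.2 ?_⟩
        rw [hbad, Finset.mem_filter]
        exact ⟨Finset.mem_univ _, h0⟩
      · rw [hφ, hgdef, hι]
        change (bc K f).evalEval (algebraMap (ZMod p) K z.1) (algebraMap (ZMod p) K z.2) = 0
        rw [evalEval_bc, (Finset.mem_filter.1 hz.1).2, map_zero]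
      · exact pow_algebraMap z.2
    · refine (hfib _ (Finset.filter_subset _ _)).trans (Nat.mul_le_mul_left _ ?_)
      apply Finset.card_le_card
      intro x hx
      obtain ⟨z, hz, rfl⟩ := Finset.mem_image.1 hx
      exact (Finset.mem_filter.1 hz).2
  -- final inequalities
  have r1 : (S₁.card : ℝ) ≤ Z.card := by exact_mod_cast hlow
  have r2 : (Z.card : ℝ) ≤ S₁.card + d * bad.card := by exact_mod_cast hup
  have r3 : (bad.card : ℝ) ≤ d * (D * d) := by exact_mod_cast hbadle
  have r4 : (bad.card : ℝ) + good.card = p := by exact_mod_cast hsum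
  have r5 : (good.card : ℝ) * d ≤ S₁.card + S₂.card := by
    rw [hTcard] at hST
    exact_mod_cast hST
  have r6 : ((d - 1 : ℕ) : ℝ) = d - 1 := by
    rw [Nat.cast_sub hd, Nat.cast_one]
  rw [r6] at hb2
  rw [Nat.cast_one] at hb1
  have r7 : (d : ℝ) * bad.card ≤ d * (d * (D * d)) :=
    mul_le_mul_of_nonneg_left r3 (by positivity)
  have r8 : (good.card : ℝ) * d = d * p - d * bad.card := by
    rw [← r4]; ring
  have r9 : (d : ℝ) * (d * (D * d)) * 1 ≤ d * (d * (D * d)) * Real.sqrt p :=
    mul_le_mul_of_nonneg_left hsq (by positivity)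
  have r10 : (0 : ℝ) ≤ d * d * Real.sqrt p := by positivity
  have r11 : (0 : ℝ) ≤ C₁ * Real.sqrt p := by positivity
  have r12 : (0 : ℝ) ≤ C₂ * Real.sqrt p := by positivity
  rw [abs_le]
  constructor
  · nlinarith
  · nlinarith

/-- **Weil's bound** for absolutely irreducible plane curves over prime fields. -/
theorem weil_plane (d D : ℕ) : ∃ C : ℝ, ∀ (p : ℕ) [Fact p.Prime] (f : (ZMod p)[X][X]), f.Monic →
    f.natDegree = d → (∀ j, (f.coeff j).natDegree ≤ D * (d - j)) →
    Irreducible (bc (AlgebraicClosure (ZMod p)) f) →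
    |(Nat.card {z : ZMod p × ZMod p // f.evalEval z.1 z.2 = 0} : ℝ) - p| ≤ C * Real.sqrt p := by
  rcases Nat.eq_zero_or_pos d with h0 | hd
  · refine ⟨0, ?_⟩
    intro p _ f hf hfd _ hirr
    exfalso
    apply hirr.not_isUnit
    have h1 : f = 1 := hf.natDegree_eq_zero.1 (hfd.trans h0)
    rw [h1, bc, Polynomial.map_one]
    exact isUnit_one
  · obtain ⟨C, _, H⟩ := weil_aux d (D + 1) hd (by omega)
    refine ⟨C, ?_⟩
    intro p _ f hf hfd hw hirr
    exact H p (AlgebraicClosure (ZMod p)) f hf hfd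
      (fun j => (hw j).trans (Nat.mul_le_mul_right _ (Nat.le_succ _))) hirr

end main

end Pool.Agent.WPl
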