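import Pool.Agent.WPl.EstQ
import Pool.Agent.WPl.Final

/-!
# Weil's bound for absolutely irreducible plane curves over all finite fields of characteristic `p`
-/

namespace Pool.Agent.WPl

open Polynomial

section mainQ

variable {p : ℕ} [Fact p.Prime] {k : Type} [Field k] [Finite k] {K : Type} [Field K] [Algebra k K]

/-- Base change of `f` to `K`. -/
noncomputable abbrev bcK (K : Type) [Field K] {k : Type} [Field k] [Algebra k K]
    (f : k[X][X]) : K[X][X] :=
  f.map (mapRingHom (algebraMap k K))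

omit [Finite k] in
theorem evalEval_bcK (f : k[X][X]) (x y : k) :
    (bcK K f).evalEval (algebraMap k K x) (algebraMap k K y) =
      algebraMap k K (f.evalEval x y) :=
  Polynomial.map_mapRingHom_evalEval _ _ _ _

theorem evalEval_bcK_pow [CharP K p] {n : ℕ} (hk : Nat.card k = p ^ n) (f : k[X][X]) {x y : K}
    (hx : x ^ p ^ n = x) :
    (bcK K f).evalEval x (y ^ p ^ n) = ((bcK K f).evalEval x y) ^ p ^ n := by
  have : ExpChar K p := ExpChar.prime (Fact.out : p.Prime)
  have h : (evalEvalRingHom x (y ^ p ^ n)).comp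
      (mapRingHom (mapRingHom (algebraMap k K))) =
      (iterateFrobenius K p n).comp ((evalEvalRingHom x y).comp
      (mapRingHom (mapRingHom (algebraMap k K)))) := by
    apply ringHom_ext'
    · apply ringHom_ext'
      · ext c
        have h1 : c ^ p ^ n = c := by
          let _ := Fintype.ofFinite k
          rw [← hk, Nat.card_eq_fintype_card]
          exact FiniteField.pow_card c
        simp only [RingHom.comp_apply, iterateFrobenius_def]
        simp [evalEvalRingHom, ← map_pow, h1]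
      · simp [evalEvalRingHom, iterateFrobenius_def, hx]
    · simp [evalEvalRingHom, iterateFrobenius_def]
  exact RingHom.congr_fun h f

theorem pow_algebraMapK {n : ℕ} (hk : Nat.card k = p ^ n) (x : k) :
    (algebraMap k K x) ^ p ^ n = algebraMap k K x := by
  let _ := Fintype.ofFinite k
  rw [← map_pow, ← hk, Nat.card_eq_fintype_card, FiniteField.pow_card]

theorem exists_of_pow_eqK {n : ℕ} (hn : n ≠ 0) (hk : Nat.card k = p ^ n) {y : K}
    (hy : y ^ p ^ n = y) : ∃ x : k, algebraMap k K x = y := by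
  classical
  let _ := Fintype.ofFinite k
  have hp1 : 1 < p := (Fact.out : p.Prime).one_lt
  have hq1 : 1 < p ^ n := Nat.one_lt_pow hn hp1
  have hne : (X ^ p ^ n - X : K[X]) ≠ 0 := FiniteField.X_pow_card_sub_X_ne_zero K hq1
  have hinj : Function.Injective (algebraMap k K) := (algebraMap k K).injective
  have hsub : (Finset.univ : Finset k).image (algebraMap k K) ⊆
      (X ^ p ^ n - X : K[X]).roots.toFinset := by
    intro x hx
    obtain ⟨s, _, rfl⟩ := Finset.mem_image.1 hx
    rw [Multiset.mem_toFinset, mem_roots hne, IsRoot.def, eval_sub, eval_pow, eval_X,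
      pow_algebraMapK hk, sub_self]
  have hcard : (X ^ p ^ n - X : K[X]).roots.toFinset.card ≤
      ((Finset.univ : Finset k).image (algebraMap k K)).card := by
    rw [Finset.card_image_of_injective _ hinj, Finset.card_univ, ← Nat.card_eq_fintype_card, hk]
    refine (Multiset.toFinset_card_le _).trans ((card_roots' _).trans ?_)
    rw [FiniteField.X_pow_card_sub_X_natDegree_eq K hq1]
  have heq := Finset.eq_of_subset_of_card_le hsub hcard
  have hy' : y ∈ (X ^ p ^ n - X : K[X]).roots.toFinset := by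
    rw [Multiset.mem_toFinset, mem_roots hne, IsRoot.def, eval_sub, eval_pow, eval_X, hy, sub_self]
  rw [← heq] at hy'
  obtain ⟨x, _, hx⟩ := Finset.mem_image.1 hy'
  exact ⟨x, hx⟩

omit [Finite k] in
theorem bcK_mem {f : k[X][X]} {d D : ℕ} (hfd : f.natDegree = d)
    (hw : ∀ j, (f.coeff j).natDegree ≤ D * (d - j)) : bcK K f ∈ (fil2 K D).F (D * d) := by
  intro j hj
  have h1 : f.coeff j ≠ 0 := by
    intro h0
    rw [bcK, coeff_map, h0, map_zero] at hj
    exact hj rfl
  have h2 : j ≤ d := hfd ▸ le_natDegree_of_ne_zero h1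
  refine ⟨Nat.mul_le_mul_left _ h2, ?_⟩
  rw [mem_fil1, bcK, coeff_map]
  refine (natDegree_map_le).trans ((hw j).trans (le_of_eq ?_))
  rw [Nat.mul_sub]

theorem weil_auxQ (p : ℕ) [hpp : Fact p.Prime] (d D : ℕ) (hd : 1 ≤ d) :
    ∃ C : ℝ, 0 ≤ C ∧ ∀ (n : ℕ)
    (k : Type) [Field k] [Finite k] (K : Type) [Field K] [IsAlgClosed K] [CharP K p] [Algebra k K]
    (f : k[X][X]), n ≠ 0 → Nat.card k = p ^ n → f.Monic →
    f.natDegree = d → (∀ j, (f.coeff j).natDegree ≤ D * (d - j)) → derivative f ≠ 0 →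
    Irreducible (bcK K f) →
    |(Nat.card {z : k × k // f.evalEval z.1 z.2 = 0} : ℝ) - (p : ℝ) ^ n| ≤
      C * Real.sqrt ((p : ℝ) ^ n) := by
  classical
  obtain ⟨C₁, hC₁, H₁⟩ := card_S_leQ p d D 1 hd le_rfl
  obtain ⟨C₂, hC₂, H₂⟩ : ∃ C : ℝ, 0 ≤ C ∧ ∀ (n : ℕ) (K : Type) [Field K]
      [IsAlgClosed K] [CharP K p]
      (f : K[X][X]) (F : K[X][X][X]) (S : Finset (K × K)), n ≠ 0 → f.Monic → Prime f →
      ¬ f ∣ derivative f → f.natDegree = d →
      f ∈ (fil2 K D).F (D * d) → F.Monic → F.natDegree = d - 1 →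
      F ∈ (fil3 K D).F (D * (d - 1)) →
      (∀ s ∈ S, s.1 ^ p ^ n = s.1 ∧ f.evalEval s.1 s.2 = 0 ∧
        (f.map (evalRingHom s.1)).Separable ∧ ev3 s.1 s.2 (s.2 ^ p ^ n) F = 0) →
      (S.card : ℝ) ≤ (d - 1 : ℕ) * (p : ℝ) ^ n + C * Real.sqrt ((p : ℝ) ^ n) := by
    rcases Nat.eq_or_lt_of_le hd with h1 | h1
    · refine ⟨0, le_rfl, ?_⟩
      intro n K _ _ _ f F S _ _ _ _ _ _ hF hFd _ hS
      have hF1 : F = 1 := by
        apply hF.natDegree_eq_zero.1
        rw [hFd, ← h1]
      have hS0 : S = ∅ := by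
        apply Finset.eq_empty_of_forall_notMem
        intro s hs
        have := (hS s hs).2.2.2
        rw [hF1, map_one] at this
        exact one_ne_zero this
      rw [hS0, ← h1]
      simp
    · exact card_S_leQ p d D (d - 1) hd (by omega)
  refine ⟨C₁ + C₂ + d * d + d * (d * (D * d)), by positivity, ?_⟩
  intro n k _ _ K _ _ _ _ f hn0 hk hf hfd hw hder0 hirr
  have hp1 : 1 < p := hpp.out.one_lt
  have hq1 : 1 < p ^ n := Nat.one_lt_pow hn0 hp1
  have hsq : (1 : ℝ) ≤ Real.sqrt ((p : ℝ) ^ n) := by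
    rw [Real.one_le_sqrt]
    exact_mod_cast hq1.le
  let _ := Fintype.ofFinite k
  have hkc : Fintype.card k = p ^ n := by rw [← Nat.card_eq_fintype_card, hk]
  set ι : k →+* K := algebraMap k K with hι
  have hinj : Function.Injective ι := (algebraMap k K).injective
  set Z : Finset (k × k) := Finset.univ.filter fun z => f.evalEval z.1 z.2 = 0 with hZ
  have hN : Nat.card {z : k × k // f.evalEval z.1 z.2 = 0} = Z.card := by
    rw [Nat.card_eq_fintype_card, Fintype.card_subtype]
  rw [hN]
  set g := bcK K f with hgdef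
  have hg : g.Monic := hf.map _
  have hgd : g.natDegree = d := by rw [hgdef, bcK, hf.natDegree_map, hfd]
  have hgw : g ∈ (fil2 K D).F (D * d) := bcK_mem hfd hw
  have hgp : Prime g := hirr.prime
  -- every fibre has at most `d` points
  have hfib : ∀ (S : Finset (k × k)), S ⊆ Z →
      S.card ≤ d * (S.image Prod.fst).card := by
    intro S hS
    apply Finset.card_le_mul_card_image
    intro x hx
    have hm : (g.map (evalRingHom (ι x))).Monic := hg.map _
    have hsub : (S.filter fun s => s.1 = x).image (fun s => ι s.2) ⊆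
        (g.map (evalRingHom (ι x))).roots.toFinset := by
      intro y hy
      obtain ⟨s, hs, rfl⟩ := Finset.mem_image.1 hy
      rw [Finset.mem_filter] at hs
      rw [Multiset.mem_toFinset, mem_roots hm.ne_zero, IsRoot.def, ← hs.2,
        map_evalRingHom_eval, hgdef, hι, evalEval_bcK, (Finset.mem_filter.1 (hS hs.1)).2, map_zero]
    have hinj' : Set.InjOn (fun s : k × k => ι s.2)
        ((S.filter fun s => s.1 = x : Finset (k × k)) : Set (k × k)) := by
      intro s hs s' hs' h
      rw [Finset.mem_coe, Finset.mem_filter] at hs hs'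
      exact Prod.ext (hs.2.trans hs'.2.symm) (hinj h)
    rw [← Finset.card_image_of_injOn hinj']
    refine (Finset.card_le_card hsub).trans ((Multiset.toFinset_card_le _).trans ?_)
    refine (card_roots' _).trans ?_
    rw [hg.natDegree_map, hgd]
  have hder : ¬ g ∣ derivative g := by
    intro h
    have h2 : derivative g ≠ 0 := by
      rw [hgdef, bcK, derivative_map]
      exact (Polynomial.map_ne_zero_iff
        (Polynomial.map_injective _ (algebraMap k K).injective)).2 hder0
    exact absurd (degree_le_of_dvd h h2) (not_le.2 (degree_derivative_lt hg.ne_zero))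
  set ν := nm g g.natDegree (derivative g) with hν
  have hν0 : ν ≠ 0 := nm_ne_zero hg hgp hder
  have hνd : ν.natDegree ≤ d * (D * d) := by
    have := natDegree_nm_le hg (D := D) (W := D * d) (by rw [hgd]; exact hgw)
      (derivative_mem hgw)
    rw [← hν] at this
    rwa [hgd] at this
  set bad : Finset k := Finset.univ.filter fun x => ν.eval (ι x) = 0 with hbad
  set good : Finset k := Finset.univ.filter fun x => ¬ ν.eval (ι x) = 0 with hgood
  have hsum : bad.card + good.card = p ^ n := by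
    rw [hbad, hgood, Finset.card_filter_add_card_filter_not, Finset.card_univ, hkc]
  have hbadle : bad.card ≤ d * (D * d) := by
    have hsub : bad.image ι ⊆ ν.roots.toFinset := by
      intro y hy
      obtain ⟨x, hx, rfl⟩ := Finset.mem_image.1 hy
      rw [Multiset.mem_toFinset, mem_roots hν0, IsRoot.def]
      exact (Finset.mem_filter.1 hx).2
    rw [← Finset.card_image_of_injective _ hinj]
    exact (Finset.card_le_card hsub).trans ((Multiset.toFinset_card_le _).trans
      ((card_roots' _).trans hνd))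
  have hsep : ∀ x ∈ good, (g.map (evalRingHom (ι x))).Separable := by
    intro x hx
    exact separable_of_nm hg (Finset.mem_filter.1 hx).2
  set T : Finset (K × K) := good.biUnion fun x =>
    (g.map (evalRingHom (ι x))).roots.toFinset.image fun y => (ι x, y) with hT
  have hTmem : ∀ s : K × K, s ∈ T ↔ ∃ x ∈ good, s.1 = ι x ∧ g.evalEval s.1 s.2 = 0 := by
    intro s
    rw [hT, Finset.mem_biUnion]
    constructor
    · rintro ⟨x, hx, hs⟩
      obtain ⟨y, hy, rfl⟩ := Finset.mem_image.1 hs
      refine ⟨x, hx, rfl, ?_⟩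
      rw [Multiset.mem_toFinset, mem_roots (hg.map _).ne_zero, IsRoot.def,
        map_evalRingHom_eval] at hy
      exact hy
    · rintro ⟨x, hx, hs, h0⟩
      refine ⟨x, hx, Finset.mem_image.2 ⟨s.2, ?_, Prod.ext hs.symm rfl⟩⟩
      rw [Multiset.mem_toFinset, mem_roots (hg.map _).ne_zero, IsRoot.def,
        map_evalRingHom_eval, ← hs]
      exact h0
  have hTcard : T.card = good.card * d := by
    rw [hT, Finset.card_biUnion]
    · rw [Finset.sum_const_nat]
      intro x hx
      rw [Finset.card_image_of_injective _ (Prod.mk_right_injective _),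
        Multiset.toFinset_card_of_nodup (nodup_roots (hsep x hx)),
        ← (IsAlgClosed.splits _).natDegree_eq_card_roots, hg.natDegree_map, hgd]
    · intro x _ x' _ hne
      rw [Function.onFun, Finset.disjoint_left]
      intro s hs hs'
      obtain ⟨y, _, rfl⟩ := Finset.mem_image.1 hs
      obtain ⟨y', _, h⟩ := Finset.mem_image.1 hs'
      exact hne (hinj (Prod.ext_iff.1 h).1.symm)
  set S₁ := T.filter fun s => s.2 ^ p ^ n = s.2 with hS₁
  set S₂ := T.filter fun s => ev3 s.1 s.2 (s.2 ^ p ^ n) (quo g) = 0 with hS₂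
  have hbase : ∀ s ∈ T, s.1 ^ p ^ n = s.1 ∧ g.evalEval s.1 s.2 = 0 ∧
      (g.map (evalRingHom s.1)).Separable := by
    intro s hs
    obtain ⟨x, hx, h1, h2⟩ := (hTmem s).1 hs
    refine ⟨?_, h2, ?_⟩
    · rw [h1, hι, pow_algebraMapK hk]
    · rw [h1]
      exact hsep x hx
  have hcover : T ⊆ S₁ ∪ S₂ := by
    intro s hs
    obtain ⟨h1, h2, h3⟩ := hbase s hs
    have h4 : ev3 s.1 s.2 (s.2 ^ p ^ n) (quo g) * (s.2 ^ p ^ n - s.2) = 0 := by
      have e1 : ev3 s.1 s.2 (s.2 ^ p ^ n) (X - C X) = s.2 ^ p ^ n - s.2 := by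
        rw [ev3_sub, ev3_C, evalEval_X]
        simp [ev3]
      rw [← e1, ← map_mul, quo_mul, ev3_sub, ev3_map_C, ev3_C, h2, hgdef, evalEval_bcK_pow hk f h1,
        ← hgdef, h2, zero_pow (by omega : p ^ n ≠ 0), sub_zero]
    rw [Finset.mem_union, hS₁, hS₂, Finset.mem_filter, Finset.mem_filter]
    rcases mul_eq_zero.1 h4 with h5 | h5
    · exact Or.inr ⟨hs, h5⟩
    · exact Or.inl ⟨hs, sub_eq_zero.1 h5⟩
  have hST : T.card ≤ S₁.card + S₂.card :=
    (Finset.card_le_card hcover).trans (Finset.card_union_le _ _)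
  have hb1 : (S₁.card : ℝ) ≤ (1 : ℕ) * (p : ℝ) ^ n + C₁ * Real.sqrt ((p : ℝ) ^ n) := by
    apply H₁ n K g (X - C X) S₁ hn0 hg hgp hder hgd hgw (monic_X_sub_C _) (natDegree_X_sub_C _)
      (by rw [mul_one]; exact lin_mem D)
    intro s hs
    rw [hS₁, Finset.mem_filter] at hs
    obtain ⟨h1, h2, h3⟩ := hbase s hs.1
    refine ⟨h1, h2, h3, ?_⟩
    rw [ev3_sub, ev3_C, evalEval_X]
    simp [ev3, hs.2]
  have hb2 : (S₂.card : ℝ) ≤ (d - 1 : ℕ) * (p : ℝ) ^ n + C₂ * Real.sqrt ((p : ℝ) ^ n) := by
    have hgd' : 1 ≤ g.natDegree := by rw [hgd]; exact hd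
    apply H₂ n K g (quo g) S₂ hn0 hg hgp hder hgd hgw (quo_monic hg hgd') (by rw [natDegree_quo hg hgd', hgd])
      (by
        have := quo_mem (D := D) hgd' (by rw [hgd]; exact hgw)
        rwa [hgd] at this)
    intro s hs
    rw [hS₂, Finset.mem_filter] at hs
    obtain ⟨h1, h2, h3⟩ := hbase s hs.1
    exact ⟨h1, h2, h3, hs.2⟩
  -- comparison of `Z` and `S₁`
  set φ : k × k → K × K := fun z => (ι z.1, ι z.2) with hφ
  have hφinj : Function.Injective φ := by
    intro z z' h
    exact Prod.ext (hinj (Prod.ext_iff.1 h).1) (hinj (Prod.ext_iff.1 h).2)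
  have hlow : S₁.card ≤ Z.card := by
    rw [← Finset.card_image_of_injective Z hφinj]
    apply Finset.card_le_card
    intro s hs
    rw [hS₁, Finset.mem_filter] at hs
    obtain ⟨x, hx, h1, h2⟩ := (hTmem s).1 hs.1
    obtain ⟨y, hy⟩ := exists_of_pow_eqK (K := K) hn0 hk hs.2
    refine Finset.mem_image.2 ⟨(x, y), ?_, Prod.ext h1.symm hy⟩
    rw [hZ, Finset.mem_filter]
    refine ⟨Finset.mem_univ _, ?_⟩
    rw [h1, ← hy, hgdef, hι, evalEval_bcK] at h2
    exact (map_eq_zero _).1 h2
  have hup : Z.card ≤ S₁.card + d * bad.card := by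
    have h1 : Z = (Z.filter fun z => z.1 ∈ bad) ∪ (Z.filter fun z => ¬ z.1 ∈ bad) :=
      (Finset.filter_union_filter_not_eq _ _).symm
    rw [h1]
    refine (Finset.card_union_le _ _).trans ?_
    rw [add_comm]
    apply add_le_add
    · rw [← Finset.card_image_of_injective _ hφinj]
      apply Finset.card_le_card
      intro s hs
      obtain ⟨z, hz, rfl⟩ := Finset.mem_image.1 hs
      rw [Finset.mem_filter] at hz
      rw [hS₁, Finset.mem_filter]
      refine ⟨(hTmem _).2 ⟨z.1, ?_, rfl, ?_⟩, ?_⟩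
      · rw [hgood, Finset.mem_filter]
        refine ⟨Finset.mem_univ _, fun h0 => hz.2 ?_⟩
        rw [hbad, Finset.mem_filter]
        exact ⟨Finset.mem_univ _, h0⟩
      · rw [hφ, hgdef, hι]
        change (bcK K f).evalEval (algebraMap k K z.1) (algebraMap k K z.2) = 0
        rw [evalEval_bcK, (Finset.mem_filter.1 hz.1).2, map_zero]
      · exact pow_algebraMapK hk z.2
    · refine (hfib _ (Finset.filter_subset _ _)).trans (Nat.mul_le_mul_left _ ?_)
      apply Finset.card_le_card
      intro x hx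
      obtain ⟨z, hz, rfl⟩ := Finset.mem_image.1 hx
      exact (Finset.mem_filter.1 hz).2
  -- final inequalities
  have r1 : (S₁.card : ℝ) ≤ Z.card := by exact_mod_cast hlow
  have r2 : (Z.card : ℝ) ≤ S₁.card + d * bad.card := by exact_mod_cast hup
  have r3 : (bad.card : ℝ) ≤ d * (D * d) := by exact_mod_cast hbadle
  have r4 : (bad.card : ℝ) + good.card = (p : ℝ) ^ n := by exact_mod_cast hsum
  have r5 : (good.card : ℝ) * d ≤ S₁.card + S₂.card := by
    rw [hTcard] at hST
    exact_mod_cast hST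
  have r6 : ((d - 1 : ℕ) : ℝ) = d - 1 := by
    rw [Nat.cast_sub hd, Nat.cast_one]
  rw [r6] at hb2
  rw [Nat.cast_one] at hb1
  have r7 : (d : ℝ) * bad.card ≤ d * (d * (D * d)) :=
    mul_le_mul_of_nonneg_left r3 (by positivity)
  have r8 : (good.card : ℝ) * d = d * (p : ℝ) ^ n - d * bad.card := by
    rw [← r4]; ring
  have r9 : (d : ℝ) * (d * (D * d)) * 1 ≤ d * (d * (D * d)) * Real.sqrt ((p : ℝ) ^ n) :=
    mul_le_mul_of_nonneg_left hsq (by positivity)
  have r10 : (0 : ℝ) ≤ d * d * Real.sqrt ((p : ℝ) ^ n) := by positivity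
  have r11 : (0 : ℝ) ≤ C₁ * Real.sqrt ((p : ℝ) ^ n) := by positivity
  have r12 : (0 : ℝ) ≤ C₂ * Real.sqrt ((p : ℝ) ^ n) := by positivity
  rw [abs_le]
  constructor
  · nlinarith
  · nlinarith


/-- **Weil's bound** over all finite fields of characteristic `p`, the constant depending only on
`p`, the degree and the weight. -/
theorem weil_plane_q (p : ℕ) [hpp : Fact p.Prime] (d D : ℕ) : ∃ C : ℝ, ∀ (k : Type) [Field k]
    [Finite k] [CharP k p] (f : k[X][X]), f.Monic → f.natDegree = d →
    (∀ j, (f.coeff j).natDegree ≤ D * (d - j)) → derivative f ≠ 0 →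
    Irreducible (f.map (mapRingHom (algebraMap k (AlgebraicClosure k)))) →
    |(Nat.card {z : k × k // f.evalEval z.1 z.2 = 0} : ℝ) - Nat.card k| ≤
      C * Real.sqrt (Nat.card k : ℝ) := by
  rcases Nat.eq_zero_or_pos d with h0 | hd
  · refine ⟨0, ?_⟩
    intro k _ _ _ f hf hfd _ hder _
    exfalso
    apply hder
    have h1 : f = 1 := hf.natDegree_eq_zero.1 (hfd.trans h0)
    rw [h1, derivative_one]
  · obtain ⟨C, _, H⟩ := weil_auxQ p d D hd
    refine ⟨C, ?_⟩
    intro k _ _ _ f hf hfd hw hder hirr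
    let _ := Fintype.ofFinite k
    obtain ⟨n, _, hn⟩ := FiniteField.card k p
    have hk : Nat.card k = p ^ (n : ℕ) := by rw [Nat.card_eq_fintype_card, hn]
    have : CharP (AlgebraicClosure k) p :=
      charP_of_injective_algebraMap (algebraMap k (AlgebraicClosure k)).injective p
    have h := H n k (AlgebraicClosure k) f n.ne_zero hk hf hfd hw hder hirr
    rw [hk]
    push_cast
    exact h

end mainQ

end Pool.Agent.WPl
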