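import Mathlib

/-!
# Choice of the parameters, `q = P Q`
-/

namespace Pool.Agent.WPl

theorem exists_paramsQ (d D e : ℕ) (hd : 1 ≤ d) (he : 1 ≤ e) :
    ∃ C p₀ : ℕ, ∀ P Q : ℕ, P ≤ Q → p₀ ≤ Q → ∃ A B : ℕ,
      d * (A + D * d) ≤ Q ∧
      e * (d * (P * (A + D * d) + B + D * d + 1)) < (A * d) * (d * B) ∧
      d * (A + D * d + Q * (B + D * d)) ≤ e * (P * Q) + C * Q := by
  obtain ⟨u, hu⟩ : ∃ u, u = D * d := ⟨_, rfl⟩
  rw [← hu]
  obtain ⟨m₀, hm₀⟩ : ∃ m₀, m₀ = 2 * e * u * d + 2 * e * e * d + 1 + e * (u + 1) := ⟨_, rfl⟩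
  refine ⟨1 + d * (m₀ + 1) + d * u, 2 * (u * d + d) + d * (e * (m₀ + 1)), ?_⟩
  intro P Q hPQ hQ
  have hud : u * d ≤ Q := by
    have : 0 ≤ d * (e * (m₀ + 1)) := Nat.zero_le _
    omega
  obtain ⟨A, hA⟩ : ∃ A, A = (Q - u * d) / d := ⟨_, rfl⟩
  have hA1 : d * A ≤ Q - u * d := by
    rw [hA]
    exact Nat.mul_div_le _ _
  have hA2 : Q - u * d < d * A + d := by
    have := Nat.lt_mul_div_succ (Q - u * d) (show 0 < d by omega)
    rw [← hA, mul_add, mul_one] at this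
    exact this
  obtain ⟨B₀, hB₀⟩ : ∃ B₀, B₀ = e * P / d := ⟨_, rfl⟩
  have hB1 : d * B₀ ≤ e * P := by
    rw [hB₀]
    exact Nat.mul_div_le _ _
  have hB2 : e * P < d * B₀ + d := by
    have := Nat.lt_mul_div_succ (e * P) (show 0 < d by omega)
    rw [← hB₀, mul_add, mul_one] at this
    exact this
  have hQA : Q ≤ 2 * (d * A) := by
    have : 0 ≤ d * (e * (m₀ + 1)) := Nat.zero_le _
    omega
  have hAe : e * (m₀ + 1) ≤ A := by
    by_contra hcon
    push Not at hcon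
    have h1 : d * (A + 1) ≤ d * (e * (m₀ + 1)) := Nat.mul_le_mul_left _ hcon
    rw [mul_add, mul_one] at h1
    omega
  have hApos : 1 ≤ A := by
    have : 1 * 1 ≤ e * (m₀ + 1) := Nat.mul_le_mul he (by omega)
    omega
  refine ⟨A, B₀ + (m₀ + 1), ?_, ?_, ?_⟩
  · rw [mul_add, mul_comm d u]
    omega
  · -- main inequality
    have hP2 : P ≤ 2 * (d * A) := hPQ.trans hQA
    have hBP : B₀ ≤ e * P := by
      calc B₀ = 1 * B₀ := (one_mul _).symm
        _ ≤ d * B₀ := Nat.mul_le_mul_right _ hd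
        _ ≤ e * P := hB1
    have k1 : e * (P * u) ≤ (2 * e * u * d) * A := by
      calc e * (P * u) ≤ e * (2 * (d * A) * u) :=
            Nat.mul_le_mul_left _ (Nat.mul_le_mul_right _ hP2)
        _ = (2 * e * u * d) * A := by ring
    have k2 : e * B₀ ≤ (2 * e * e * d) * A := by
      calc e * B₀ ≤ e * (e * P) := Nat.mul_le_mul_left _ hBP
        _ ≤ e * (e * (2 * (d * A))) := Nat.mul_le_mul_left _ (Nat.mul_le_mul_left _ hP2)
        _ = (2 * e * e * d) * A := by ring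
    have k3 : e * (u + 1) ≤ (e * (u + 1)) * A := by
      calc e * (u + 1) = (e * (u + 1)) * 1 := (mul_one _).symm
        _ ≤ (e * (u + 1)) * A := Nat.mul_le_mul_left _ hApos
    have k4 : e * P + m₀ + 1 ≤ d * (B₀ + (m₀ + 1)) := by
      have h1 : m₀ * 1 ≤ m₀ * d := Nat.mul_le_mul_left _ hd
      calc e * P + m₀ + 1 ≤ d * B₀ + m₀ * d + d := by omega
        _ = d * (B₀ + (m₀ + 1)) := by ring
    have k5 : e * (P * (A + u) + (B₀ + (m₀ + 1)) + u + 1) < A * (e * P + m₀ + 1) := by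
      have e1 : e * (P * (A + u) + (B₀ + (m₀ + 1)) + u + 1) =
          A * (e * P) + e * (P * u) + e * B₀ + e * (m₀ + 1) + e * (u + 1) := by ring
      have e2 : A * (e * P + m₀ + 1) = A * (e * P) + A * m₀ + A := by ring
      have e3 : A * m₀ = (2 * e * u * d) * A + (2 * e * e * d) * A + A + (e * (u + 1)) * A := by
        rw [hm₀]; ring
      rw [e1, e2, e3]
      omega
    calc e * (d * (P * (A + u) + (B₀ + (m₀ + 1)) + u + 1))
        = d * (e * (P * (A + u) + (B₀ + (m₀ + 1)) + u + 1)) := by ring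
      _ < d * (A * (e * P + m₀ + 1)) := Nat.mul_lt_mul_of_pos_left k5 hd
      _ ≤ d * (A * (d * (B₀ + (m₀ + 1)))) :=
          Nat.mul_le_mul_left _ (Nat.mul_le_mul_left _ k4)
      _ = (A * d) * (d * (B₀ + (m₀ + 1))) := by ring
  · have e1 : d * (A + u + Q * (B₀ + (m₀ + 1) + u)) =
        d * A + u * d + Q * (d * B₀) + Q * (d * (m₀ + 1) + d * u) := by ring
    have e2 : e * (P * Q) + (1 + d * (m₀ + 1) + d * u) * Q =
        Q + Q * (e * P) + Q * (d * (m₀ + 1) + d * u) := by ring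
    rw [e1, e2]
    have h1 : Q * (d * B₀) ≤ Q * (e * P) := Nat.mul_le_mul_left _ hB1
    omega

end Pool.Agent.WPl
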