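import Pool.Agent.WPl.Q
import Pool.Agent.WPl.NumQ

/-!
# The upper bound over all finite fields of characteristic `p`
-/

namespace Pool.Agent.WPl

open Polynomial

theorem card_S_leQ (p : ℕ) [hpp : Fact p.Prime] (d D e : ℕ) (hd : 1 ≤ d) (he : 1 ≤ e) :
    ∃ C : ℝ, 0 ≤ C ∧ ∀ (n : ℕ) (K : Type) [Field K] [IsAlgClosed K] [CharP K p]
      (f : K[X][X]) (F : K[X][X][X]) (S : Finset (K × K)), n ≠ 0 → f.Monic → Prime f →
      ¬ f ∣ derivative f → f.natDegree = d →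
      f ∈ (fil2 K D).F (D * d) → F.Monic → F.natDegree = e → F ∈ (fil3 K D).F (D * e) →
      (∀ s ∈ S, s.1 ^ p ^ n = s.1 ∧ f.evalEval s.1 s.2 = 0 ∧
        (f.map (evalRingHom s.1)).Separable ∧ ev3 s.1 s.2 (s.2 ^ p ^ n) F = 0) →
      (S.card : ℝ) ≤ e * (p : ℝ) ^ n + C * Real.sqrt ((p : ℝ) ^ n) := by
  obtain ⟨C₁, p₀, H⟩ := exists_paramsQ d D e hd he
  refine ⟨C₁ * Real.sqrt p + p₀ ^ 2 * d, by positivity, ?_⟩
  intro n K _ _ _ f F S hn0 hf hfp hder hfd hfw hF hFe hFw hS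
  have hp1 : 1 < p := hpp.out.one_lt
  have hp0 : (0 : ℝ) < p := by exact_mod_cast hpp.out.pos
  have hpn1 : 1 < p ^ n := Nat.one_lt_pow hn0 hp1
  have hsq : (1 : ℝ) ≤ Real.sqrt ((p : ℝ) ^ n) := by
    rw [Real.one_le_sqrt]
    exact_mod_cast hpn1.le
  have h0 : (0 : ℝ) ≤ e * (p : ℝ) ^ n := by positivity
  obtain ⟨m, hm⟩ : ∃ m, m = n / 2 := ⟨_, rfl⟩
  obtain ⟨n', hn'⟩ : ∃ n', n' = n - n / 2 := ⟨_, rfl⟩
  have hmn : n = m + n' := by omega
  have hmn' : m ≤ n' := by omega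
  have hn'n : 2 * n' ≤ n + 1 := by omega
  have hQsq : (p : ℝ) ^ n' ≤ Real.sqrt p * Real.sqrt ((p : ℝ) ^ n) := by
    rw [← Real.sqrt_mul hp0.le, ← pow_succ']
    apply Real.le_sqrt_of_sq_le
    rw [← pow_mul, mul_comm n' 2]
    exact pow_le_pow_right₀ (by exact_mod_cast hp1.le) hn'n
  by_cases hlt : p ^ n' < p₀
  · have h1 := card_le_trivial hf hpn1 S (fun s hs => ⟨(hS s hs).1, (hS s hs).2.1⟩)
    rw [hfd] at h1
    have h4 : p ^ n ≤ p₀ ^ 2 := by
      calc p ^ n ≤ p ^ (2 * n') := Nat.pow_le_pow_right (by omega) (by omega)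
        _ = (p ^ n') ^ 2 := by rw [mul_comm, pow_mul]
        _ ≤ p₀ ^ 2 := Nat.pow_le_pow_left hlt.le 2
    have h2 : (S.card : ℝ) ≤ p₀ ^ 2 * d := by
      have h3 : S.card ≤ p₀ ^ 2 * d := h1.trans (Nat.mul_le_mul_right _ h4)
      exact_mod_cast h3
    have h3 : ((p₀ : ℝ) ^ 2 * d) * 1 ≤ (C₁ * Real.sqrt p + p₀ ^ 2 * d) *
        Real.sqrt ((p : ℝ) ^ n) := by
      apply mul_le_mul _ hsq (by norm_num) (by positivity)
      have : (0 : ℝ) ≤ C₁ * Real.sqrt p := by positivity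
      linarith
    linarith
  · push Not at hlt
    obtain ⟨A, B, hA, hcount, hbound⟩ := H (p ^ m) (p ^ n')
      (Nat.pow_le_pow_right (by omega) hmn') hlt
    subst hfd
    subst hFe
    have hcard : Fintype.card (Idx f.natDegree A B) = (A * f.natDegree) * (f.natDegree * B) := by
      simp [Idx]
    obtain ⟨c, hc, hcr⟩ := exists_coeffs_gen hf hfw hF hFw (qterm (p ^ m) f.natDegree A B)
      (qterm_mem D (p ^ m) f.natDegree A B) (by rw [hcard]; exact hcount)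
    have hpm : 0 < p ^ m := pow_pos hpp.out.pos m
    choose b hb using fun s : Idx f.natDegree A B => IsAlgClosed.exists_pow_nat_eq (c s) hpm
    have hb0 : b ≠ 0 := by
      rintro rfl
      apply hc
      funext s
      rw [← hb s]
      exact zero_pow hpm.ne'
    have hnd := not_dvd_hpolyQ (n := n') hf hfp hder hfw hA hb0
    have h1 : 1 * S.card ≤ f.natDegree *
        (A + D * f.natDegree + p ^ n' * (B + D * f.natDegree)) := by
      apply mul_card_le hf hfp hfw hnd (hpoly_mem D (p ^ n') f.natDegree A B b) 1 S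
      · intro s hs
        exact (hS s hs).2.1
      · intro s hs
        exact (hS s hs).2.2.1
      · intro s hs η hη0 hη
        rw [pow_one, PowerSeries.X_dvd_iff, constantCoeff_evp, hη0]
        obtain ⟨t1, t2, _, t4⟩ := hS s hs
        rw [hmn] at t1 t4
        exact hpoly_eval hb hcr t1 t2 t4
    rw [one_mul] at h1
    have h2 : (S.card : ℝ) ≤ F.natDegree * ((p : ℝ) ^ m * (p : ℝ) ^ n') + C₁ * (p : ℝ) ^ n' := by
      have := h1.trans hbound
      exact_mod_cast this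
    rw [← pow_add, ← hmn] at h2
    have h3 : (C₁ : ℝ) * (p : ℝ) ^ n' ≤ C₁ * (Real.sqrt p * Real.sqrt ((p : ℝ) ^ n)) :=
      mul_le_mul_of_nonneg_left hQsq (by positivity)
    have h4 : (0 : ℝ) ≤ p₀ ^ 2 * f.natDegree * Real.sqrt ((p : ℝ) ^ n) := by positivity
    nlinarith

end Pool.Agent.WPl
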