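import Pool.Agent.WPl.Indep

/-!
# Counting zeros with the norm (module WPl/Count)

PAPER PROOF of `mul_card_le`. Let `n = nm f d h ∈ K[x]`, `n ≠ 0` (`nm_ne_zero`) and
`natDegree n ≤ d W` (`natDegree_nm_le`). Let `x₁` be a first coordinate of an element of `S`,
`S₁ = {s ∈ S : s.1 = x₁}`. The polynomial `f(x₁, Y) = f.map (evalRingHom x₁)` is monic of degree `d`,
separable and `K` is algebraically closed, so it has exactly `d` distinct roots: there is an
injective `y : Fin d → K` listing all the roots (`Polynomial.card_rootSet_eq_natDegree` or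
`nodup_roots` and `splits`; `IsAlgClosed.card_roots...`), and `f_Y(x₁, y i) ≠ 0`
(`Separable`: `eval` of `derivative` at a root is not `0`). Let `η i` be the power series roots
(`exists_root`) with `constantCoeff (η i) = y i`: `η` is injective. By `map_nm`,
`evx x₁ n = ∏ i, evp x₁ (η i) h`. For every `s ∈ S₁` there is exactly one `i` with `y i = s.2`, and
`X^M ∣ evp x₁ (η i) h`. So `X^(M * #S₁) ∣ evx x₁ n` (`Finset.prod_dvd_prod_of_dvd`, split the
product). Since `evx x₁ n` is the power series of `n.comp (X + C x₁)` (`evx_eq_coe`),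
`X^(M #S₁) ∣ n.comp (X + C x₁)` as polynomials (`PowerSeries.X_pow_dvd_iff`,
`Polynomial.X_pow_dvd_iff`), so `(X - C x₁)^(M #S₁) ∣ n`, so
`M #S₁ ≤ rootMultiplicity x₁ n` (`le_rootMultiplicity_iff`). Sum over the finite set `T` of first
coordinates: `M #S = Σ_{x₁ ∈ T} M #S₁(x₁) ≤ Σ_{x₁ ∈ T} rootMultiplicity x₁ n ≤ #roots n ≤ natDegree n`
(`Finset.card_eq_sum_card_image` / `Finset.card_eq_sum_card_fiberwise`, `Multiset.count`,
`count_roots`, `Polynomial.card_roots'`).
-/

namespace Pool.Agent.WPl

open Polynomial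

/-- divisibility of the evaluated polynomial by a power of `t` bounds the multiplicity of the root -/
theorem le_rootMultiplicity_of_evx {K : Type*} [Field K] {x₁ : K} {n : K[X]} (hn : n ≠ 0) {m : ℕ}
    (h : (PowerSeries.X : PowerSeries K) ^ m ∣ evx x₁ n) : m ≤ n.rootMultiplicity x₁ := by
  rw [le_rootMultiplicity_iff hn]
  rw [evx_eq_coe, PowerSeries.X_pow_dvd_iff] at h
  have h1 : (X : K[X]) ^ m ∣ n.comp (X + C x₁) := by
    rw [X_pow_dvd_iff]
    intro j hj
    have := h j hj
    rwa [Polynomial.coeff_coe] at this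
  obtain ⟨g, hg⟩ := h1
  refine ⟨g.comp (X - C x₁), ?_⟩
  have h2 : (n.comp (X + C x₁)).comp (X - C x₁) = n := by
    rw [comp_assoc]
    simp
  rw [← h2, hg, mul_comp, X_pow_comp]

/-- one fibre -/
theorem fibre_le {K : Type*} [Field K] [IsAlgClosed K] {f : K[X][X]} (hf : f.Monic)
    {h : K[X][X]} (M : ℕ) (x₁ : K) (S : Finset K) (hn : nm f f.natDegree h ≠ 0)
    (hS0 : ∀ y ∈ S, f.evalEval x₁ y = 0)
    (hS1 : (f.map (evalRingHom x₁)).Separable)
    (hS2 : ∀ y ∈ S, ∀ η : PowerSeries K, PowerSeries.constantCoeff η = y →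
      evp x₁ η f = 0 → (PowerSeries.X : PowerSeries K) ^ M ∣ evp x₁ η h) :
    M * S.card ≤ (nm f f.natDegree h).rootMultiplicity x₁ := by
  classical
  set g := f.map (evalRingHom x₁) with hg
  have hgm : g.Monic := hf.map _
  have hgd : g.natDegree = f.natDegree := hf.natDegree_map _
  have hcard : g.roots.toFinset.card = f.natDegree := by
    rw [Multiset.toFinset_card_of_nodup (nodup_roots hS1), IsAlgClosed.card_roots_eq_natDegree, hgd]
  let e := g.roots.toFinset.equivFinOfCardEq hcard
  let y : Fin f.natDegree → K := fun i => (e.symm i : K)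
  have hyinj : Function.Injective y := fun i j hij => e.symm.injective (Subtype.ext hij)
  have hyroot : ∀ i, g.eval (y i) = 0 := by
    intro i
    have h1 : (e.symm i : K) ∈ g.roots.toFinset := (e.symm i).2
    rw [Multiset.mem_toFinset] at h1
    exact (mem_roots'.1 h1).2
  have hysurj : ∀ z, g.eval z = 0 → ∃ i, y i = z := by
    intro z hz
    have h1 : z ∈ g.roots.toFinset := by
      rw [Multiset.mem_toFinset]
      exact mem_roots'.2 ⟨hgm.ne_zero, hz⟩
    refine ⟨e ⟨z, h1⟩, ?_⟩
    show (e.symm (e ⟨z, h1⟩) : K) = z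
    rw [Equiv.symm_apply_apply]
  have hex : ∀ i, ∃ η : PowerSeries K, PowerSeries.constantCoeff η = y i ∧ evp x₁ η f = 0 := by
    intro i
    apply exists_root hf
    · rw [← map_evalRingHom_eval]
      exact hyroot i
    · rw [← map_evalRingHom_eval, ← derivative_map]
      have := hS1.eval₂_derivative_ne_zero (RingHom.id K) (x := y i) (by
        rw [← eval_map, Polynomial.map_id]
        exact hyroot i)
      rwa [← eval_map, Polynomial.map_id] at this
  choose η hη1 hη2 using hex
  have hηinj : Function.Injective η := by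
    intro i j hij
    apply hyinj
    rw [← hη1 i, ← hη1 j, hij]
  have hprod := map_nm hf (evx x₁) η hηinj (fun i => hη2 i) h
  set I : Finset (Fin f.natDegree) := Finset.univ.filter (fun i => y i ∈ S) with hI
  have hIS : S.card ≤ I.card := by
    have hsub : S ⊆ I.image y := by
      intro z hz
      obtain ⟨i, hi⟩ := hysurj z (by
        have := hS0 z hz
        rwa [← map_evalRingHom_eval] at this)
      rw [Finset.mem_image]
      exact ⟨i, by rw [hI, Finset.mem_filter]; exact ⟨Finset.mem_univ _, by rw [hi]; exact hz⟩, hi⟩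
    exact (Finset.card_le_card hsub).trans Finset.card_image_le
  have hdvd : (PowerSeries.X : PowerSeries K) ^ (M * S.card) ∣ evx x₁ (nm f f.natDegree h) := by
    rw [hprod]
    have h1 : (PowerSeries.X : PowerSeries K) ^ (M * S.card) ∣ PowerSeries.X ^ (M * I.card) :=
      pow_dvd_pow _ (Nat.mul_le_mul_left _ hIS)
    refine h1.trans ?_
    have h2 : (PowerSeries.X : PowerSeries K) ^ (M * I.card) = ∏ _i ∈ I, PowerSeries.X ^ M := by
      rw [Finset.prod_const, pow_mul]
    rw [h2]
    refine (Finset.prod_dvd_prod_of_dvd _ _ (fun i hi => ?_)).trans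
      (Finset.prod_dvd_prod_of_subset I Finset.univ _ (Finset.subset_univ _))
    rw [hI, Finset.mem_filter] at hi
    exact hS2 (y i) hi.2 (η i) (hη1 i) (hη2 i)
  exact le_rootMultiplicity_of_evx hn hdvd

theorem mul_card_le {K : Type*} [Field K] [IsAlgClosed K] {f : K[X][X]} (hf : f.Monic)
    (hp : Prime f) {D W : ℕ} (hfw : f ∈ (fil2 K D).F (D * f.natDegree)) {h : K[X][X]}
    (hh : ¬ f ∣ h) (hW : h ∈ (fil2 K D).F W) (M : ℕ) (S : Finset (K × K))
    (hS0 : ∀ s ∈ S, f.evalEval s.1 s.2 = 0)
    (hS1 : ∀ s ∈ S, (f.map (evalRingHom s.1)).Separable)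
    (hS2 : ∀ s ∈ S, ∀ η : PowerSeries K, PowerSeries.constantCoeff η = s.2 →
      evp s.1 η f = 0 → (PowerSeries.X : PowerSeries K) ^ M ∣ evp s.1 η h) :
    M * S.card ≤ f.natDegree * W := by
  classical
  have hn := nm_ne_zero hf hp hh
  have hdeg := natDegree_nm_le hf hfw hW
  set n := nm f f.natDegree h with hndef
  have h1 : ∀ x ∈ S.image Prod.fst, M * {a ∈ S | a.1 = x}.card ≤ n.roots.count x := by
    intro x hx
    rw [Finset.mem_image] at hx
    obtain ⟨s, hs, rfl⟩ := hx
    have e1 : {a ∈ S | a.1 = s.1}.card = ({a ∈ S | a.1 = s.1}.image Prod.snd).card := by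
      rw [Finset.card_image_of_injOn]
      intro a ha b hb hab
      simp only [Finset.coe_filter, Set.mem_ofPred_eq] at ha hb
      exact Prod.ext (ha.2.trans hb.2.symm) hab
    rw [e1, count_roots]
    apply fibre_le hf M s.1 _ hn
    · intro y hy
      rw [Finset.mem_image] at hy
      obtain ⟨a, ha, rfl⟩ := hy
      rw [Finset.mem_filter] at ha
      have := hS0 a ha.1
      rwa [ha.2] at this
    · exact hS1 s hs
    · intro y hy η h2 h3
      rw [Finset.mem_image] at hy
      obtain ⟨a, ha, rfl⟩ := hy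
      rw [Finset.mem_filter] at ha
      have := hS2 a ha.1 η h2
      rw [ha.2] at this
      exact this h3
  rw [Finset.card_eq_sum_card_image Prod.fst S, Finset.mul_sum]
  calc ∑ x ∈ S.image Prod.fst, M * {a ∈ S | a.1 = x}.card
      ≤ ∑ x ∈ S.image Prod.fst, n.roots.count x := Finset.sum_le_sum h1
    _ ≤ ∑ x ∈ S.image Prod.fst ∪ n.roots.toFinset, n.roots.count x :=
        Finset.sum_le_sum_of_subset Finset.subset_union_left
    _ = Multiset.card n.roots := Multiset.sum_count_eq_card (fun a ha =>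
        Finset.mem_union_right _ (Multiset.mem_toFinset.2 ha))
    _ ≤ n.natDegree := card_roots' n
    _ ≤ _ := hdeg

end Pool.Agent.WPl
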