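import Mathlib

/-!
# Weil's bound for plane curves over prime fields (Stepanov, Schmidt): definitions

`K` an algebraically closed field of characteristic `p`, `f ∈ K[x][Y]` monic in `Y` of degree `d`.
Weights: `x` has weight `1`, `Y` (and `Z`) have weight `D`; `f` has weight at most `D d`.
-/

namespace Pool.Agent.WPl

open Polynomial

section fil

/-- A multiplicative increasing filtration of an algebra over a field. -/
structure Fil (K R : Type*) [Field K] [CommRing R] [Algebra K R] where
  /-- the elements of weight at most `W` -/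
  F : ℕ → Submodule K R
  mono : ∀ {m n : ℕ}, m ≤ n → F m ≤ F n
  one : (1 : R) ∈ F 0
  mul : ∀ {m n : ℕ} {a b : R}, a ∈ F m → b ∈ F n → a * b ∈ F (m + n)

variable {K : Type*} [Field K] {R : Type*} [CommRing R] [Algebra K R]

/-- Everything has weight `0`. -/
def Fil.triv (K : Type*) [Field K] : Fil K K where
  F _ := ⊤
  mono _ := le_rfl
  one := trivial
  mul _ _ := trivial

/-- The filtration of `R[X]` for which `X` has weight `w`. -/
def Fil.poly (φ : Fil K R) (w : ℕ) : Fil K R[X] where
  F W :=
    { carrier := {G | ∀ j, G.coeff j ≠ 0 → w * j ≤ W ∧ G.coeff j ∈ φ.F (W - w * j)}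
      add_mem' := by
        intro G G' h h' j hj
        rw [coeff_add] at hj ⊢
        by_cases h1 : G.coeff j = 0
        · rw [h1, zero_add] at hj ⊢
          exact h' j hj
        · by_cases h2 : G'.coeff j = 0
          · rw [h2, add_zero] at hj ⊢
            exact h j hj
          · exact ⟨(h j h1).1, Submodule.add_mem _ (h j h1).2 (h' j h2).2⟩
      zero_mem' := by
        intro j hj
        exact absurd (coeff_zero j) hj
      smul_mem' := by
        intro c G h j hj
        rw [coeff_smul] at hj ⊢
        have h1 : G.coeff j ≠ 0 := by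
          intro h0
          rw [h0, smul_zero] at hj
          exact hj rfl
        exact ⟨(h j h1).1, Submodule.smul_mem _ c (h j h1).2⟩ }
  mono := by
    intro m n hmn G h j hj
    exact ⟨(h j hj).1.trans hmn, φ.mono (by omega) (h j hj).2⟩
  one := by
    intro j hj
    rw [coeff_one] at hj ⊢
    split_ifs at hj ⊢ with h
    · subst h
      simpa using φ.one
    · exact absurd rfl hj
  mul := by
    intro m n G G' h h' j hj
    rw [coeff_mul] at hj ⊢
    have key : ∀ x ∈ Finset.HasAntidiagonal.antidiagonal j, G.coeff x.1 * G'.coeff x.2 ≠ 0 →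
        w * j ≤ m + n ∧ G.coeff x.1 * G'.coeff x.2 ∈ φ.F (m + n - w * j) := by
      intro x hx hne
      have h1 : G.coeff x.1 ≠ 0 := left_ne_zero_of_mul hne
      have h2 : G'.coeff x.2 ≠ 0 := right_ne_zero_of_mul hne
      have h3 := h _ h1
      have h4 := h' _ h2
      have h5 : x.1 + x.2 = j := Finset.HasAntidiagonal.mem_antidiagonal.1 hx
      have h6 : w * j = w * x.1 + w * x.2 := by rw [← h5, mul_add]
      refine ⟨by omega, ?_⟩
      exact φ.mono (by omega) (φ.mul h3.2 h4.2)
    refine ⟨?_, ?_⟩
    · obtain ⟨x, hx, hne⟩ := Finset.exists_ne_zero_of_sum_ne_zero hj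
      exact (key x hx hne).1
    · apply Submodule.sum_mem
      intro x hx
      by_cases hne : G.coeff x.1 * G'.coeff x.2 = 0
      · rw [hne]
        exact Submodule.zero_mem _
      · exact (key x hx hne).2

end fil

section defs

variable (K : Type*) [Field K]

/-- The filtration of `K[x]` by the degree. -/
noncomputable abbrev fil1 : Fil K K[X] := (Fil.triv K).poly 1

/-- The filtration of `K[x][Y]`, `Y` of weight `D`. -/
noncomputable abbrev fil2 (D : ℕ) : Fil K K[X][X] := (fil1 K).poly D

/-- The filtration of `K[x][Y][Z]`, `Y` and `Z` of weight `D`. -/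
noncomputable abbrev fil3 (D : ℕ) : Fil K K[X][X][X] := (fil2 K D).poly D

end defs

section nm

variable {R : Type*} [CommRing R]

/-- The matrix of the multiplication by `G` on `R[Y] / f` in the basis `1, Y, ..., Y^(d-1)`. -/
noncomputable def mulMat (f : R[X]) (d : ℕ) (G : R[X]) : Matrix (Fin d) (Fin d) R :=
  Matrix.of fun i j => ((X ^ (j : ℕ) * G) %ₘ f).coeff i

/-- The norm of `G` modulo `f`. -/
noncomputable def nm (f : R[X]) (d : ℕ) (G : R[X]) : R := (mulMat f d G).det

end nm

section der

variable {K : Type*} [Field K]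

/-- The derivative with respect to the inner variable `x`, as a linear map. -/
noncomputable def dx : K[X][X] →ₗ[K] K[X][X] :=
  Polynomial.lsum fun j =>
    ((monomial j : K[X] →ₗ[K[X]] K[X][X]).restrictScalars K).comp derivative

theorem coeff_dx (G : K[X][X]) (j : ℕ) : (dx G).coeff j = derivative (G.coeff j) := by
  rw [dx, Polynomial.lsum_apply, Polynomial.sum_def, finsetSum_coeff]
  simp only [LinearMap.comp_apply, LinearMap.restrictScalars_apply, coeff_monomial]
  rw [Finset.sum_ite_eq']
  split_ifs with h
  · rfl
  · rw [notMem_support_iff.1 h, derivative_zero]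

theorem dx_mul (G H : K[X][X]) : dx (G * H) = dx G * H + G * dx H := by
  ext1 j
  simp only [coeff_dx, coeff_add, coeff_mul, derivative_sum, derivative_mul,
    Finset.sum_add_distrib]

/-- The derivation `f_Y d/dx - f_x d/dY`; it kills `f`. -/
noncomputable def DD (f : K[X][X]) : K[X][X] →ₗ[K] K[X][X] :=
  (LinearMap.mulLeft K (derivative f)).comp dx -
    (LinearMap.mulLeft K (dx f)).comp
      ((derivative : K[X][X] →ₗ[K[X]] K[X][X]).restrictScalars K)

theorem DD_apply (f G : K[X][X]) :
    DD f G = derivative f * dx G - dx f * derivative G := rfl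

/-- The evaluation `x ↦ x₁ + t`. -/
noncomputable def evx (x₁ : K) : K[X] →+* PowerSeries K :=
  eval₂RingHom (PowerSeries.C (R := K)) (PowerSeries.C x₁ + PowerSeries.X)

/-- The evaluation `x ↦ x₁ + t`, `Y ↦ η(t)`. -/
noncomputable def evp (x₁ : K) (η : PowerSeries K) : K[X][X] →+* PowerSeries K :=
  eval₂RingHom (evx x₁) η

end der

end Pool.Agent.WPl
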