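import Mathlib

/-!
# Choice of the parameters (module WPl/Num)

PAPER PROOF. Fix `d, D, e ≥ 1`. Put `m = 2 d^2 (e + 2 D d + 1 + D d^2) + 1`, `b = Nat.sqrt p`,
`B = e b`, `A = (p - D d^2) / d` (natural number division), `M = d b - m`.
Let `p ≥ p₀` with `p₀` so large that `b ≥ 2 m`, `p ≥ 2 d (D d + 1)`, `d b ≤ p` (`b ≥ d` is enough,
as `b^2 ≤ p`).
* `d (A + D d) ≤ p`: `d A ≤ p - D d^2`.
* `A ≥ p / (2 d)` (real): `A ≥ p/d - D d - 1` and `p ≥ 2 d (D d + 1)`.
* `1 ≤ M ≤ d b ≤ p`.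
* `M (e (d (A + B + 2 (D d) + M (D d) + 1))) < A d (d B)`: divide by `e d`: need
  `M (A + e b + 2 D d + M D d + 1) < A d b = M A + m A`, i.e.
  `M (e b + 2 D d + 1 + M D d) < m A`. Left `≤ d b (e b + 2 D d + 1 + D d^2 b) ≤`
  `d b^2 (e + 2 D d + 1 + D d^2) ≤ d p (e + 2 D d + 1 + D d^2) < m p / (2 d) ≤ m A`.
* If `n` is a natural number with `M n ≤ d (A + D d + p (B + D d))` then, since
  `d A ≤ p` and `D d^2 ≤ p`: `M n ≤ 2 p + p d e b + p D d^2`, and `d b = M + m`: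
  `M n ≤ e p M + p (e m + 2 + D d^2)`, so `n ≤ e p + p (e m + 2 + D d^2) / M` and
  `M ≥ b - m ≥ b/2`, `b ≥ √p / 2` (`b + 1 > √p`, `b ≥ 1`): `n ≤ e p + 4 (e m + 2 + D d^2) √p`.
-/

namespace Pool.Agent.WPl

theorem exists_params (d D e : ℕ) (hd : 1 ≤ d) (hD : 1 ≤ D) (he : 1 ≤ e) :
    ∃ (C : ℝ) (p₀ : ℕ), 0 ≤ C ∧ ∀ p : ℕ, p₀ ≤ p → ∃ A B M : ℕ, 1 ≤ M ∧ M ≤ p ∧
      d * (A + D * d) ≤ p ∧
      M * (e * (d * (A + B + 2 * (D * d) + M * (D * d) + 1))) < (A * d) * (d * B) ∧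
      ∀ n : ℕ, M * n ≤ d * (A + D * d + p * (B + D * d)) →
        (n : ℝ) ≤ e * p + C * Real.sqrt p := by
  obtain ⟨c, hc⟩ : ∃ c : ℕ, c = e + 2 * (D * d) + 1 + d * (D * d) := ⟨_, rfl⟩
  obtain ⟨m, hm⟩ : ∃ m : ℕ, m = 2 * d ^ 2 * c + 1 := ⟨_, rfl⟩
  refine ⟨4 * (e * m + 1 + d * (D * d)), (2 * m + d) ^ 2 + 2 * (d * (D * d + 1)), by positivity,
    fun p hp => ?_⟩
  obtain ⟨b, hb⟩ : ∃ b : ℕ, b = Nat.sqrt p := ⟨_, rfl⟩
  have hb1 : 2 * m + d ≤ b := by
    rw [hb, Nat.le_sqrt']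
    omega
  have hb2 : b * b ≤ p := by
    rw [hb]
    exact Nat.sqrt_le p
  have hb3 : p < (b + 1) * (b + 1) := by
    rw [hb]
    exact Nat.lt_succ_sqrt p
  obtain ⟨A, hA⟩ : ∃ A : ℕ, A = (p - d * (D * d)) / d := ⟨_, rfl⟩
  have hDd : 2 * (d * (D * d + 1)) ≤ p := le_trans (Nat.le_add_left _ _) hp
  have hA1 : d * A ≤ p - d * (D * d) := by
    rw [hA]
    exact Nat.mul_div_le _ _
  have hA2 : p - d * (D * d) < d * A + d := by
    rw [hA]
    have := Nat.lt_mul_div_succ (p - d * (D * d)) (show 0 < d by omega)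
    rw [Nat.mul_add, Nat.mul_one] at this
    exact this
  have hDd2 : 2 * (d * (D * d)) + 2 * d ≤ p := by
    rw [Nat.mul_add, Nat.mul_one, Nat.mul_add] at hDd
    exact hDd
  have hA3 : d * A + d * (D * d) ≤ p := by omega
  have hA4 : p < 2 * (d * A) := by omega
  have hdb : b ≤ d * b := Nat.le_mul_of_pos_left b (by omega)
  obtain ⟨M, hM⟩ : ∃ M : ℕ, M = d * b - m := ⟨_, rfl⟩
  have hM1 : M + m = d * b := by omega
  have hdbp : d * b ≤ p := (Nat.mul_le_mul_right b (by omega : d ≤ b)).trans hb2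
  have hm1 : 1 ≤ m := by omega
  refine ⟨A, e * b, M, by omega, by omega, ?_, ?_, ?_⟩
  · rw [Nat.mul_add]
    exact hA3
  · have key : M * (e * b + 2 * (D * d) + 1 + M * (D * d)) < m * A := by
      have h1 : M * (e * b + 2 * (D * d) + 1 + M * (D * d)) ≤ d * b * (c * b) := by
        refine Nat.mul_le_mul (by omega) ?_
        have h2 : M * (D * d) ≤ (d * (D * d)) * b := by
          calc M * (D * d) ≤ (d * b) * (D * d) := Nat.mul_le_mul_right _ (by omega)
            _ = (d * (D * d)) * b := by ring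
        have h3 : 2 * (D * d) + 1 ≤ (2 * (D * d) + 1) * b :=
          Nat.le_mul_of_pos_right _ (by omega)
        calc e * b + 2 * (D * d) + 1 + M * (D * d)
            ≤ e * b + (2 * (D * d) + 1) * b + (d * (D * d)) * b := by omega
          _ = c * b := by rw [hc]; ring
      have h4 : 2 * d * (M * (e * b + 2 * (D * d) + 1 + M * (D * d))) ≤ (m - 1) * p := by
        calc 2 * d * (M * (e * b + 2 * (D * d) + 1 + M * (D * d)))
            ≤ 2 * d * (d * b * (c * b)) := Nat.mul_le_mul_left _ h1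
          _ = (2 * d ^ 2 * c) * (b * b) := by ring
          _ ≤ (2 * d ^ 2 * c) * p := Nat.mul_le_mul_left _ hb2
          _ = (m - 1) * p := by rw [hm, Nat.add_sub_cancel]
      have h5 : (m - 1) * p < 2 * d * (m * A) := by
        calc (m - 1) * p ≤ m * p := Nat.mul_le_mul_right _ (by omega)
          _ < m * (2 * (d * A)) := Nat.mul_lt_mul_of_pos_left hA4 (by omega)
          _ = 2 * d * (m * A) := by ring
      exact Nat.lt_of_mul_lt_mul_left (h4.trans_lt h5)
    have h6 : M * (A + e * b + 2 * (D * d) + M * (D * d) + 1) < A * (d * b) := by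
      rw [← hM1]
      calc M * (A + e * b + 2 * (D * d) + M * (D * d) + 1)
          = M * A + M * (e * b + 2 * (D * d) + 1 + M * (D * d)) := by ring
        _ < M * A + m * A := Nat.add_lt_add_left key _
        _ = A * (M + m) := by ring
    calc M * (e * (d * (A + e * b + 2 * (D * d) + M * (D * d) + 1)))
        = (e * d) * (M * (A + e * b + 2 * (D * d) + M * (D * d) + 1)) := by ring
      _ < (e * d) * (A * (d * b)) :=
          Nat.mul_lt_mul_of_pos_left h6 (Nat.mul_pos (by omega) (by omega))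
      _ = (A * d) * (d * (e * b)) := by ring
  · intro n hn
    have h1 : M * n ≤ p * (1 + e * M + e * m + d * (D * d)) := by
      calc M * n ≤ d * (A + D * d + p * (e * b + D * d)) := hn
        _ = (d * A + d * (D * d)) + p * (e * (d * b) + d * (D * d)) := by ring
        _ ≤ p + p * (e * (d * b) + d * (D * d)) := Nat.add_le_add_right hA3 _
        _ = p * (1 + e * M + e * m + d * (D * d)) := by rw [← hM1]; ring
    have h2 : (M : ℝ) * n ≤ p * (1 + e * M + e * m + d * (D * d)) := by exact_mod_cast h1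
    have hp0 : (0 : ℝ) ≤ p := Nat.cast_nonneg _
    have hs0 : 0 ≤ Real.sqrt p := Real.sqrt_nonneg _
    have hs1 : Real.sqrt p * Real.sqrt p = p := Real.mul_self_sqrt hp0
    have hs2 : Real.sqrt p ≤ b + 1 := by
      rw [Real.sqrt_le_left (by positivity)]
      have : (p : ℝ) ≤ (b + 1) * (b + 1) := by exact_mod_cast hb3.le
      nlinarith
    have hbM : b ≤ 2 * M := by omega
    have hbM' : (b : ℝ) ≤ 2 * M := by exact_mod_cast hbM
    have hb4 : (1 : ℝ) ≤ b := by exact_mod_cast (by omega : 1 ≤ b)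
    have hs3 : Real.sqrt p ≤ 4 * M := by linarith
    have hMs : (p : ℝ) ≤ 4 * (M * Real.sqrt p) := by nlinarith
    have hM0 : (0 : ℝ) < M := by exact_mod_cast (by omega : 0 < M)
    by_contra hlt
    push Not at hlt
    have h3 : (M : ℝ) * (e * p + 4 * (e * m + 1 + d * (D * d)) * Real.sqrt p) < M * n :=
      mul_lt_mul_of_pos_left hlt hM0
    have h4 : (0 : ℝ) ≤ e * m + 1 + d * (D * d) := by positivity
    have h5 := mul_le_mul_of_nonneg_left hMs h4
    nlinarith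

end Pool.Agent.WPl
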