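import Pool.Agent.WPl.Ord
import Pool.Agent.WPl.Count
import Pool.Agent.WPl.Num

/-!
# The Stepanov upper bound (module WPl/Est)
-/

namespace Pool.Agent.WPl

open Polynomial

/-- `hpoly` has weight at most `A + D d + p (B + D d)`. -/
theorem hpoly_mem {K : Type*} [Field K] (D p d A B : ℕ) (c : Idx d A B → K) :
    hpoly p d A B c ∈ (fil2 K D).F (A + D * d + p * (B + D * d)) := by
  have key : ∀ (a m i j : ℕ), i ≤ a → j ≤ m →
      C (X ^ i : K[X]) * X ^ j ∈ (fil2 K D).F (a + D * m) := by
    intro a m i j hi hj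
    have h1 : (C (X ^ i : K[X]) : K[X][X]) ∈ (fil2 K D).F a := by
      apply C_mem
      rw [mem_fil1]
      exact (natDegree_X_pow_le i).trans hi
    have h2 : (X ^ j : K[X][X]) ∈ (fil2 K D).F (D * m) := by
      have h3 : (X ^ j : K[X][X]) ∈ (fil2 K D).F (j * D) := pow_mem X_mem j
      exact (fil2 K D).mono (by rw [mul_comm D]; exact Nat.mul_le_mul_right _ hj) h3
    exact (fil2 K D).mul h1 h2
  rw [hpoly]
  apply Submodule.sum_mem
  intro s _
  apply Submodule.smul_mem
  apply (fil2 K D).mul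
  · exact key A d _ _ s.1.1.2.le s.1.2.2.le
  · exact pow_mem (key B d _ _ s.2.2.2.le s.2.1.2.le) p

/-- The trivial bound. -/
theorem card_le_trivial {K : Type*} [Field K] {f : K[X][X]} (hf : f.Monic) {p : ℕ} (hp : 1 < p)
    (S : Finset (K × K)) (hS : ∀ s ∈ S, s.1 ^ p = s.1 ∧ f.evalEval s.1 s.2 = 0) :
    S.card ≤ p * f.natDegree := by
  classical
  have h1 : (S.image Prod.fst).card ≤ p := by
    have hne : (X ^ p - X : K[X]) ≠ 0 := FiniteField.X_pow_card_sub_X_ne_zero K hp
    have hsub : S.image Prod.fst ⊆ (X ^ p - X : K[X]).roots.toFinset := by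
      intro x hx
      obtain ⟨s, hs, rfl⟩ := Finset.mem_image.1 hx
      rw [Multiset.mem_toFinset, mem_roots hne, IsRoot.def, eval_sub, eval_pow, eval_X,
        (hS s hs).1, sub_self]
    refine (Finset.card_le_card hsub).trans ((Multiset.toFinset_card_le _).trans ?_)
    refine (card_roots' _).trans ?_
    rw [FiniteField.X_pow_card_sub_X_natDegree_eq K hp]
  have h2 : S.card ≤ f.natDegree * (S.image Prod.fst).card := by
    apply Finset.card_le_mul_card_image
    intro x hx
    have hm : (f.map (evalRingHom x)).Monic := hf.map _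
    have hsub : (S.filter fun s => s.1 = x).image Prod.snd ⊆
        (f.map (evalRingHom x)).roots.toFinset := by
      intro y hy
      obtain ⟨s, hs, rfl⟩ := Finset.mem_image.1 hy
      rw [Finset.mem_filter] at hs
      rw [Multiset.mem_toFinset, mem_roots hm.ne_zero, IsRoot.def, ← hs.2,
        map_evalRingHom_eval]
      exact (hS s hs.1).2
    have hinj : Set.InjOn Prod.snd ((S.filter fun s => s.1 = x : Finset (K × K)) : Set (K × K)) := by
      intro s hs s' hs' h
      rw [Finset.mem_coe, Finset.mem_filter] at hs hs'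
      exact Prod.ext (hs.2.trans hs'.2.symm) h
    rw [← Finset.card_image_of_injOn hinj]
    refine (Finset.card_le_card hsub).trans ((Multiset.toFinset_card_le _).trans ?_)
    refine (card_roots' _).trans ?_
    rw [hf.natDegree_map]
  rw [mul_comm]
  exact h2.trans (Nat.mul_le_mul_left _ h1)

/-- In large characteristic `f` does not divide its derivative. -/
theorem not_dvd_derivative {K : Type*} [Field K] {p : ℕ} [CharP K p] {f : K[X][X]} (hf : f.Monic)
    (hd : 1 ≤ f.natDegree) (hp : f.natDegree < p) : ¬ f ∣ derivative f := by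
  intro h
  have h1 : (derivative f).coeff (f.natDegree - 1) ≠ 0 := by
    rw [coeff_derivative, Nat.sub_add_cancel hd, hf.coeff_natDegree, one_mul]
    have h2 : ((f.natDegree - 1 : ℕ) : K[X]) + 1 = ((f.natDegree : ℕ) : K[X]) := by
      rw [← Nat.cast_succ, Nat.succ_eq_add_one, Nat.sub_add_cancel hd]
    rw [h2, ← C_eq_natCast, Ne, C_eq_zero, CharP.cast_eq_zero_iff K p]
    intro h3
    exact absurd (Nat.le_of_dvd hd h3) (by omega)
  have h2 : derivative f ≠ 0 := by
    intro h0
    rw [h0, coeff_zero] at h1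
    exact h1 rfl
  have h3 := degree_le_of_dvd h h2
  have h4 := degree_derivative_lt hf.ne_zero
  exact absurd h3 (not_le.2 h4)

/-- **Stepanov's upper bound.** -/
theorem card_S_le (d D e : ℕ) (hd : 1 ≤ d) (hD : 1 ≤ D) (he : 1 ≤ e) :
    ∃ C : ℝ, 0 ≤ C ∧ ∀ (p : ℕ) [Fact p.Prime] (K : Type) [Field K] [IsAlgClosed K] [CharP K p]
      (f : K[X][X]) (F : K[X][X][X]) (S : Finset (K × K)), f.Monic → Prime f → f.natDegree = d →
      f ∈ (fil2 K D).F (D * d) → F.Monic → F.natDegree = e → F ∈ (fil3 K D).F (D * e) →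
      (∀ s ∈ S, s.1 ^ p = s.1 ∧ f.evalEval s.1 s.2 = 0 ∧
        (f.map (evalRingHom s.1)).Separable ∧ ev3 s.1 s.2 (s.2 ^ p) F = 0) →
      (S.card : ℝ) ≤ e * p + C * Real.sqrt p := by
  obtain ⟨C₁, p₀, hC₁, H⟩ := exists_params d D e hd hD he
  refine ⟨C₁ + (p₀ + d) * d, by positivity, ?_⟩
  intro p hpp K _ _ _ f F S hf hfp hfd hfw hF hFe hFw hS
  have hp1 : 1 < p := hpp.out.one_lt
  have hsq : (1 : ℝ) ≤ Real.sqrt p := by
    rw [Real.one_le_sqrt]
    exact_mod_cast hp1.le
  have h0 : (0 : ℝ) ≤ e * p := by positivity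
  by_cases hlt : p ≤ p₀ + d
  · have h1 := card_le_trivial hf hp1 S (fun s hs => ⟨(hS s hs).1, (hS s hs).2.1⟩)
    rw [hfd] at h1
    have h2 : (S.card : ℝ) ≤ (p₀ + d) * d := by
      have h3 : S.card ≤ (p₀ + d) * d := h1.trans (Nat.mul_le_mul_right _ hlt)
      exact_mod_cast h3
    have h3 : ((p₀ : ℝ) + d) * d * 1 ≤ (C₁ + (p₀ + d) * d) * Real.sqrt p := by
      apply mul_le_mul _ hsq (by norm_num) (by positivity)
      linarith
    linarith
  · push Not at hlt
    obtain ⟨A, B, M, hM1, hMp, hA, hcount, hbound⟩ := H p (by omega)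
    subst hfd
    subst hFe
    have hder : ¬ f ∣ derivative f := not_dvd_derivative hf hd (p := p) (by omega)
    obtain ⟨c, hc, hcr⟩ := exists_coeffs hf hfw hF hFw hcount
    have hnd := not_dvd_hpoly hf hfp hder hfw hA hc
    have h1 : M * S.card ≤ f.natDegree * (A + D * f.natDegree + p * (B + D * f.natDegree)) := by
      apply mul_card_le hf hfp hfw hnd (hpoly_mem D p f.natDegree A B c) M S
      · intro s hs
        exact (hS s hs).2.1
      · intro s hs
        exact (hS s hs).2.2.1
      · intro s hs η hη0 hη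
        apply order_at hF hMp hcr (hS s hs).1 (hS s hs).2.1 ?_ (hS s hs).2.2.2 hη0 hη
        have h3 := (hS s hs).2.2.1
        have h4 := h3.eval₂_derivative_ne_zero (RingHom.id K) (x := s.2) (by
          rw [eval₂_id, map_evalRingHom_eval]
          exact (hS s hs).2.1)
        rw [eval₂_id, derivative_map, map_evalRingHom_eval] at h4
        exact h4
    have h2 := hbound _ h1
    have h3 : C₁ * Real.sqrt p ≤ (C₁ + (p₀ + f.natDegree) * f.natDegree) * Real.sqrt p := by
      apply mul_le_mul_of_nonneg_right _ (by positivity)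
      have : (0 : ℝ) ≤ (p₀ + f.natDegree) * f.natDegree := by positivity
      linarith
    linarith

end Pool.Agent.WPl
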