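import Pool.Agent.WPl.Weight

/-!
# The degree of the norm (module WPl/NormDeg)

PAPER PROOF. `f` monic of degree `d` and weight `≤ D d`, `G` of weight `≤ W`. `X^j * G` has weight
`≤ W + D j` (`X_mem`, `pow_mem`, `Fil.mul`), hence so has `X^j * G %ₘ f` (`modByMonic_mem`). So a
nonzero entry `m_{ij} = (X^j * G %ₘ f).coeff i` satisfies `D i ≤ W + D j` and
`natDegree m_{ij} + D i ≤ W + D j` (`mem_fil1`). In `det = Σ_σ sign σ ∏_j m_{σ j, j}`
(`Matrix.det_apply`) every nonzero product has degree at most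
`Σ_j (W + D j - D σ(j)) = d W`: sum the inequalities `natDegree m_{σ j,j} + D σ(j) ≤ W + D j`
over `j : Fin d` and use `Σ_j σ(j) = Σ_j j` (`Equiv.sum_comp`), `natDegree_prod_le`.
Then `natDegree_sum_le_of_forall_le`.
-/

namespace Pool.Agent.WPl

open Polynomial

theorem natDegree_nm_le {K : Type*} [Field K] {f G : K[X][X]} {D W : ℕ} (hf : f.Monic)
    (hfw : f ∈ (fil2 K D).F (D * f.natDegree)) (hG : G ∈ (fil2 K D).F W) :
    (nm f f.natDegree G).natDegree ≤ f.natDegree * W := by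
  have hent : ∀ i j : Fin f.natDegree, mulMat f f.natDegree G i j ≠ 0 →
      (mulMat f f.natDegree G i j).natDegree + D * (i : ℕ) ≤ W + D * (j : ℕ) := by
    intro i j hne
    have h1 : (X ^ (j : ℕ) * G : K[X][X]) ∈ (fil2 K D).F ((j : ℕ) * D + W) :=
      (fil2 K D).mul (pow_mem (φ := fil2 K D) (X_mem (φ := fil1 K) (w := D)) (j : ℕ)) hG
    have h2 : (X ^ (j : ℕ) * G) %ₘ f ∈ (fil2 K D).F ((j : ℕ) * D + W) :=
      modByMonic_mem (φ := fil1 K) (w := D) hf hfw h1
    have h3 := (mem_poly (φ := fil1 K) (w := D)).1 h2 (i : ℕ) hne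
    have h4 := mem_fil1.1 h3.2
    have h5 : (mulMat f f.natDegree G i j).natDegree =
        (((X ^ (j : ℕ) * G) %ₘ f).coeff (i : ℕ)).natDegree := rfl
    have h6 : (j : ℕ) * D = D * (j : ℕ) := Nat.mul_comm _ _
    have h7 := h3.1
    omega
  unfold nm
  rw [Matrix.det_apply']
  apply natDegree_sum_le_of_forall_le
  intro σ _
  refine (natDegree_mul_le).trans ?_
  rw [natDegree_intCast, Nat.zero_add]
  by_cases hP : ∏ j, mulMat f f.natDegree G (σ j) j = 0
  · rw [hP, natDegree_zero]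
    exact Nat.zero_le _
  · have hne : ∀ j, mulMat f f.natDegree G (σ j) j ≠ 0 := fun j =>
      (Finset.prod_ne_zero_iff.1 hP) j (Finset.mem_univ j)
    have h1 : (∏ j, mulMat f f.natDegree G (σ j) j).natDegree ≤
        ∑ j, (mulMat f f.natDegree G (σ j) j).natDegree := natDegree_prod_le _ _
    have h2 : ∑ j, ((mulMat f f.natDegree G (σ j) j).natDegree + D * ((σ j : Fin f.natDegree) : ℕ))
        ≤ ∑ j : Fin f.natDegree, (W + D * (j : ℕ)) :=
      Finset.sum_le_sum fun j _ => hent (σ j) j (hne j)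
    rw [Finset.sum_add_distrib, Finset.sum_add_distrib, Finset.sum_const, Finset.card_univ,
      Fintype.card_fin, smul_eq_mul,
      Equiv.sum_comp σ (fun j : Fin f.natDegree => D * (j : ℕ))] at h2
    omega

end Pool.Agent.WPl
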