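import Pool.Agent.WPl.Defs

/-!
# Power series roots and derivations (module WPl/Root)

`evx x₁ : K[x] → K⟦t⟧`, `x ↦ x₁ + t`, and `evp x₁ η : K[x][Y] → K⟦t⟧`, `Y ↦ η`.

PAPER PROOFS.

* `constantCoeff_evx`, `constantCoeff_evp`: two ring homomorphisms `K[x][Y] → K` which agree on
  constants, `x` and `Y` (`Polynomial.hom_ext`-type argument, or `Polynomial.induction_on`).

* `exists_root` (Hensel). `K⟦t⟧` is henselian at the ideal `(t)`
  (`HenselianRing (PowerSeries K) (Ideal.span {PowerSeries.X})`; see `Pool/Agent/CAB/Cab.lean`,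
  around line 240-300, for a complete example of its use, `HenselianRing.is_henselian`). Apply it
  to the monic polynomial `f.map (evx x₁)` and the approximate root `PowerSeries.C y₁`:
  `eval (C y₁) (f.map (evx x₁)) = evp x₁ (C y₁) f` has constant coefficient `f(x₁, y₁) = 0`, and
  the derivative has constant coefficient `f_Y(x₁, y₁) ≠ 0`, a unit of `K`.

* `derivative_evx`: `d/dt (evx x₁ g) = evx x₁ g'` (induction on `g`, or
  `g(x₁ + t)` and the chain rule; `d/dt` is a derivation `PowerSeries.derivative K`, notation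
  `d⁄dX K` in the scope `PowerSeries`).

* `derivative_evp`: `d/dt (G(x₁ + t, η)) = (dx G)(x₁ + t, η) + G_Y(x₁ + t, η) η'`. Both sides are
  additive in `G`; for `G = C g * X^n` the left side is
  `evx g' * η^n + evx g * n η^(n-1) η'` (`PowerSeries.derivative_pow`, `Derivation.leibniz`), and
  `dx (C g * X^n) = C g' * X^n` by `coeff_dx`.

* `chain`: from `derivative_evp` for `f`: `0 = (dx f)∘η + (f_Y∘η) η'`. So
  `(f_Y∘η) d/dt(G∘η) = (f_Y∘η) (dx G)∘η + (G_Y∘η) (f_Y∘η) η' = (DD f G)∘η`.

* `chain_iterate`: induction on `r` from `chain`, using that `θ d/dt` is linear over the elements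
  `w` with `w' = 0`.

* `dvd_of_iterate`. Let `T u = θ * u'`. Suppose `g = X^m u` and `m < p`. By induction on `j ≤ m`:
  `T^[j] g = X^(m-j) * u_j` with `u_j(0) = θ(0)^j m (m-1) ... (m-j+1) u(0)`: indeed
  `T (X^(m-j) u_j) = X^(m-j-1) * (θ * ((m-j) u_j + X u_j'))`. So the constant coefficient of
  `T^[m] g` is `θ(0)^m m! u(0)`, and `m! ≠ 0` in `K` since `m < p` (`CharP.cast_eq_zero_iff`,
  `Nat.Prime.dvd_factorial`). If it is `0` then `u(0) = 0` and `X^(m+1) ∣ g`
  (`PowerSeries.X_dvd_iff`). Induction on `m ≤ M` gives `X^M ∣ g`.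
-/

namespace Pool.Agent.WPl

open Polynomial

variable {K : Type*} [Field K]

theorem constantCoeff_evx (x₁ : K) (g : K[X]) :
    PowerSeries.constantCoeff (evx x₁ g) = g.eval x₁ := by
  have h : (PowerSeries.constantCoeff (R := K)).comp (evx x₁) = evalRingHom x₁ := by
    apply Polynomial.ringHom_ext
    · intro a
      simp [evx]
    · simp [evx]
  exact congrArg (fun φ : K[X] →+* K => φ g) h

theorem constantCoeff_evp (x₁ : K) (η : PowerSeries K) (G : K[X][X]) :
    PowerSeries.constantCoeff (evp x₁ η G) =
      G.evalEval x₁ (PowerSeries.constantCoeff η) := by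
  have h : (PowerSeries.constantCoeff (R := K)).comp (evp x₁ η) =
      evalEvalRingHom x₁ (PowerSeries.constantCoeff η) := by
    apply Polynomial.ringHom_ext
    · intro a
      simp only [evp, RingHom.comp_apply, coe_eval₂RingHom, eval₂_C]
      rw [constantCoeff_evx, coe_evalRingHom, coe_evalRingHom, eval_C]
    · simp only [evp, RingHom.comp_apply, coe_eval₂RingHom, eval₂_X]
      rw [coe_evalRingHom, coe_evalRingHom, eval_X, eval_C]
  exact congrArg (fun φ : K[X][X] →+* K => φ G) h

theorem exists_root {f : K[X][X]} (hf : f.Monic) {x₁ y₁ : K} (h0 : f.evalEval x₁ y₁ = 0)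
    (h1 : (derivative f).evalEval x₁ y₁ ≠ 0) :
    ∃ η : PowerSeries K, PowerSeries.constantCoeff η = y₁ ∧ evp x₁ η f = 0 := by
  set I : Ideal (PowerSeries K) := Ideal.span {PowerSeries.X} with hI
  have hmem : ∀ u : PowerSeries K, u ∈ I ↔ PowerSeries.constantCoeff u = 0 := by
    intro u
    rw [hI, Ideal.mem_span_singleton, PowerSeries.X_dvd_iff]
  have hev : ∀ (G : K[X][X]) (η : PowerSeries K), (G.map (evx x₁)).eval η = evp x₁ η G := by
    intro G η
    rw [eval_map]
    rfl
  obtain ⟨η, h2, h3⟩ := HenselianRing.is_henselian (I := I) (f.map (evx x₁)) (hf.map _)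
    (PowerSeries.C y₁) (by
      rw [hev, hmem, constantCoeff_evp, PowerSeries.constantCoeff_C]
      exact h0) (by
      rw [derivative_map, hev]
      have h4 : IsUnit (evp x₁ (PowerSeries.C y₁) (derivative f)) := by
        rw [PowerSeries.isUnit_iff_constantCoeff, constantCoeff_evp,
          PowerSeries.constantCoeff_C]
        exact isUnit_iff_ne_zero.mpr h1
      exact h4.map _)
  refine ⟨η, ?_, ?_⟩
  · rw [hmem, map_sub, PowerSeries.constantCoeff_C] at h3
    exact sub_eq_zero.mp h3
  · rw [← hev]
    exact h2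

theorem evx_monomial (x₁ : K) (n : ℕ) (a : K) :
    evx x₁ (monomial n a) =
      PowerSeries.C a * (PowerSeries.C x₁ + PowerSeries.X) ^ n := by
  simp [evx, eval₂_monomial]

theorem evp_monomial (x₁ : K) (η : PowerSeries K) (n : ℕ) (g : K[X]) :
    evp x₁ η (monomial n g) = evx x₁ g * η ^ n := by
  simp [evp, eval₂_monomial]

theorem derivative_evx (x₁ : K) (g : K[X]) :
    PowerSeries.derivative K (evx x₁ g) = evx x₁ (derivative g) := by
  induction g using Polynomial.induction_on' with
  | add p q hp hq => rw [map_add, map_add, hp, hq, derivative_add, map_add]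
  | monomial n a =>
    rw [evx_monomial, derivative_monomial, evx_monomial, Derivation.leibniz,
      PowerSeries.derivative_C, smul_zero, add_zero, PowerSeries.derivative_pow, map_add,
      PowerSeries.derivative_C, PowerSeries.derivative_X, zero_add, mul_one, smul_eq_mul,
      map_mul, map_natCast]
    ring

theorem dx_monomial (n : ℕ) (g : K[X]) : dx (monomial n g) = monomial n (derivative g) := by
  ext1 j
  rw [coeff_dx, coeff_monomial, coeff_monomial]
  split_ifs
  · rfl
  · exact derivative_zero

theorem derivative_evp (x₁ : K) (η : PowerSeries K) (G : K[X][X]) :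
    PowerSeries.derivative K (evp x₁ η G) =
      evp x₁ η (dx G) + evp x₁ η (derivative G) * PowerSeries.derivative K η := by
  induction G using Polynomial.induction_on' with
  | add p q hp hq =>
    rw [map_add, map_add, hp, hq, derivative_add, map_add, map_add, map_add]
    ring
  | monomial n g =>
    rw [evp_monomial, dx_monomial, evp_monomial, derivative_monomial, evp_monomial,
      Derivation.leibniz, derivative_evx, PowerSeries.derivative_pow, smul_eq_mul, smul_eq_mul,
      map_mul, map_natCast]
    ring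

theorem chain {f : K[X][X]} {x₁ : K} {η : PowerSeries K} (hη : evp x₁ η f = 0) (G : K[X][X]) :
    evp x₁ η (derivative f) * PowerSeries.derivative K (evp x₁ η G) = evp x₁ η (DD f G) := by
  have h1 := derivative_evp x₁ η f
  rw [hη, map_zero] at h1
  rw [derivative_evp, DD_apply, map_sub, map_mul, map_mul]
  linear_combination (-evp x₁ η (derivative G)) * h1

theorem chain_iterate {f : K[X][X]} {x₁ : K} {η : PowerSeries K} (hη : evp x₁ η f = 0)
    {ι : Type*} (s : Finset ι) (G : ι → K[X][X]) (w : ι → PowerSeries K)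
    (hw : ∀ i ∈ s, PowerSeries.derivative K (w i) = 0) (r : ℕ) :
    (fun u => evp x₁ η (derivative f) * PowerSeries.derivative K u)^[r]
        (∑ i ∈ s, evp x₁ η (G i) * w i) =
      ∑ i ∈ s, evp x₁ η ((DD f)^[r] (G i)) * w i := by
  induction r with
  | zero => rfl
  | succ r ih =>
    rw [Function.iterate_succ_apply', ih]
    simp only [Function.iterate_succ_apply']
    rw [map_sum, Finset.mul_sum]
    refine Finset.sum_congr rfl (fun i hi => ?_)
    rw [Derivation.leibniz, hw i hi, smul_zero, zero_add, smul_eq_mul, ← chain hη]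
    ring

/-- One step: `T (X^(k+1) u) = X^k (θ ((k+1) u + X u'))`. -/
theorem step_aux (θ u : PowerSeries K) (k : ℕ) :
    θ * PowerSeries.derivative K (PowerSeries.X ^ (k + 1) * u) =
      PowerSeries.X ^ k * (θ * (((k + 1 : ℕ) : PowerSeries K) * u +
        PowerSeries.X * PowerSeries.derivative K u)) := by
  rw [Derivation.leibniz, PowerSeries.derivative_pow, PowerSeries.derivative_X, smul_eq_mul,
    smul_eq_mul, Nat.add_sub_cancel, pow_succ]
  ring

theorem iterate_aux (θ u : PowerSeries K) (m : ℕ) :
    ∀ j ≤ m, ∃ v : PowerSeries K, (fun u => θ * PowerSeries.derivative K u)^[j]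
        (PowerSeries.X ^ m * u) = PowerSeries.X ^ (m - j) * v ∧
      PowerSeries.constantCoeff v = PowerSeries.constantCoeff θ ^ j *
        (m.descFactorial j : K) * PowerSeries.constantCoeff u := by
  intro j
  induction j with
  | zero =>
    intro _
    exact ⟨u, by simp, by simp⟩
  | succ j ih =>
    intro hj
    obtain ⟨v, hv1, hv2⟩ := ih (by omega)
    obtain ⟨k, hk⟩ : ∃ k, m - j = k + 1 := ⟨m - j - 1, by omega⟩
    refine ⟨θ * (((k + 1 : ℕ) : PowerSeries K) * v + PowerSeries.X * PowerSeries.derivative K v),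
      ?_, ?_⟩
    · rw [Function.iterate_succ_apply', hv1, hk]
      have : m - (j + 1) = k := by omega
      rw [this]
      exact step_aux θ v k
    · rw [map_mul, map_add, map_mul, map_mul, PowerSeries.constantCoeff_X, zero_mul, add_zero,
        hv2, map_natCast, Nat.descFactorial_succ, hk]
      push_cast
      ring

theorem dvd_of_iterate {p : ℕ} [Fact p.Prime] [CharP K p] {M : ℕ} (hM : M ≤ p)
    (θ g : PowerSeries K) (hθ : PowerSeries.constantCoeff θ ≠ 0)
    (h : ∀ r < M, PowerSeries.constantCoeff
      ((fun u => θ * PowerSeries.derivative K u)^[r] g) = 0) :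
    (PowerSeries.X : PowerSeries K) ^ M ∣ g := by
  have key : ∀ m ≤ M, (PowerSeries.X : PowerSeries K) ^ m ∣ g := by
    intro m
    induction m with
    | zero => intro _; simp
    | succ m ih =>
      intro hm
      obtain ⟨u, hu⟩ := ih (by omega)
      obtain ⟨v, hv1, hv2⟩ := iterate_aux θ u m m le_rfl
      have h1 := h m (by omega)
      rw [hu, hv1, Nat.sub_self, pow_zero, one_mul, hv2, Nat.descFactorial_self] at h1
      have h2 : (m.factorial : K) ≠ 0 := by
        rw [Ne, CharP.cast_eq_zero_iff K p, (Fact.out : p.Prime).dvd_factorial]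
        omega
      have h3 : PowerSeries.constantCoeff u = 0 := by
        rcases mul_eq_zero.mp h1 with h4 | h4
        · exact absurd h4 (mul_ne_zero (pow_ne_zero _ hθ) h2)
        · exact h4
      obtain ⟨w, hw⟩ := PowerSeries.X_dvd_iff.mpr h3
      exact ⟨w, by rw [hu, hw, pow_succ, mul_assoc]⟩
  exact key M le_rfl

end Pool.Agent.WPl
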