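import Pool.Agent.WPl.Norm
import Pool.Agent.WPl.NormDeg
import Pool.Agent.WPl.Root

/-!
# The Stepanov polynomial does not vanish on the curve (module WPl/Indep)

`hpoly p d A B c = Σ_s c_s x^i Y^j (x^l Y^k)^p`, `s = (i, j, k, l)`, `i < A`, `j, k < d`, `l < B`.

PAPER PROOFS. `K` algebraically closed of characteristic `p`.

* `exists_unram`: there are `x₁, y₁` with `f(x₁, y₁) = 0`, `f_Y(x₁, y₁) ≠ 0`. Put
  `n = nm f d f_Y ∈ K[x]`, not `0` (`nm_ne_zero`), and `C n = a f + b f_Y` (`nm_mem`). `K` is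
  infinite, so there is `x₁` with `n(x₁) ≠ 0` (`Polynomial.exists_eval_ne_zero_of_natDegree_lt_card`
  or finiteness of the roots). `f(x₁, Y)` is monic of degree `d ≥ 1` (`f` is prime, so `f ≠ 1`),
  so it has a root `y₁` (`IsAlgClosed.exists_root`). Then `n(x₁) = b(x₁,y₁) f_Y(x₁,y₁)`.

* `evp_ne_zero`: if `f ∤ G` then `evp x₁ η G ≠ 0`: else `nm_mem` gives `evx x₁ (nm f d G) = 0`, but
  `evx x₁` is injective (`evx x₁ g` is the power series of the polynomial `g.comp (X + C x₁)`,
  `natDegree (comp) = natDegree`; `evx_eq_coe`) and `nm f d G ≠ 0`.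

* `not_dvd_of_small`: if `f ∤ G`, `G` of weight `≤ W`, `d W < p` then `X^p ∤ evp x₁ η G`: by
  `nm_mem`, `X^p ∣ evx x₁ (nm f d G)`, i.e. the polynomial `(nm f d G).comp (X + C x₁)`, of degree
  `≤ d W < p` (`natDegree_nm_le`), has its first `p` coefficients equal to `0`, so it is `0`.

* `coeff_pow_p`: `d/dt (g^p) = p g^(p-1) g' = 0`, and the coefficients of `d/dt u` are
  `(m+1) u_(m+1)`.

* `indep_pow`: by strong induction on `n` the coefficients `coeff (p n) (W i)` are all `0`.
  For `s < p` compare the coefficients of `t^(p n + s)` in `Σ v_i W_i = 0`: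
  `Σ_i Σ_{a + b = pn + s} coeff a v_i * coeff b W_i`; only `b` divisible by `p` matter, `b < p n`
  vanish by induction, so only `b = p n`, `a = s` remains: `Σ_i coeff (pn) (W_i) • coeff s v_i = 0`
  for all `s < p`, hence `coeff (p n) (W i) = 0` by `hv`. The other coefficients vanish by `hW`.

* `not_dvd_hpoly`: let `(x₁, y₁)` be as in `exists_unram` and `η` the root (`exists_root`). If
  `f ∣ hpoly` then `0 = evp x₁ η hpoly = Σ_{(i,j)} v_{ij} W_{ij}`, `v_{ij} = evp (C x^i * Y^j)`,
  `W_{ij} = Σ_{k,l} c_{ijkl} • (evp (C x^l * Y^k))^p = (evp (Σ_{k,l} C (C b_{kl} * x^l) Y^k))^p`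
  where `b_{kl}^p = c_{ijkl}` (`K` is perfect: `IsAlgClosed.exists_pow_nat_eq`, and
  `add_pow_char`/`sum_pow_char`; `PowerSeries K` has characteristic `p`, e.g. `charP_of_injective_ringHom`).
  `hW` is `coeff_pow_p`. `hv`: if `a : Fin A × Fin d → K` and all coefficients `< p` of
  `Σ a_{ij} • v_{ij} = evp x₁ η g`, `g = Σ a_{ij} • C x^i * Y^j`, vanish, then `X^p ∣ evp x₁ η g`;
  `g` has weight `≤ A + D d` (in fact `A - 1 + D (d - 1)`); if `a ≠ 0` then `g ≠ 0`, and
  `natDegree g < d`, so `f ∤ g`, contradiction with `not_dvd_of_small`: so we need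
  `d * (A - 1 + D (d - 1)) < p`, which follows from `d (A + D d) ≤ p` (`A ≥ 1` because the index
  set is not empty, `d ≥ 1`). By `indep_pow` all `W_{ij} = 0`, so
  `evp (Σ_{k,l} C (C b_{kl} * x^l) Y^k) = 0`; this polynomial has `Y`-degree `< d`, so by
  `evp_ne_zero` it is `0`, so all `b_{kl} = 0` and all `c_{ijkl} = 0`.
-/

namespace Pool.Agent.WPl

open Polynomial

/-- The index set of the Stepanov polynomial. -/
abbrev Idx (d A B : ℕ) : Type := (Fin A × Fin d) × (Fin d × Fin B)

/-- The Stepanov polynomial `Σ c x^i Y^j (x^l Y^k)^p`. -/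
noncomputable def hpoly {K : Type*} [Field K] (p d A B : ℕ) (c : Idx d A B → K) : K[X][X] :=
  ∑ s, c s • ((C (X ^ (s.1.1 : ℕ)) * X ^ (s.1.2 : ℕ)) *
    (C (X ^ (s.2.2 : ℕ)) * X ^ (s.2.1 : ℕ)) ^ p)

theorem evx_eq_coe {K : Type*} [Field K] (x₁ : K) (g : K[X]) :
    evx x₁ g = (g.comp (X + C x₁) : K[X]) := by
  have h : evx x₁ = (Polynomial.coeToPowerSeries.ringHom (R := K)).comp
      (Polynomial.compRingHom (X + C x₁)) := by
    apply Polynomial.ringHom_ext
    · intro a
      simp [evx]
    · simp [evx, add_comm]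
  rw [h]
  simp

theorem evp_C {K : Type*} [Field K] (x₁ : K) (η : PowerSeries K) (g : K[X]) :
    evp x₁ η (C g) = evx x₁ g := by
  simp [evp]

theorem evx_eq_zero {K : Type*} [Field K] {x₁ : K} {g : K[X]} (h : evx x₁ g = 0) : g = 0 := by
  rw [evx_eq_coe] at h
  have h1 : g.comp (X + C x₁) = 0 := by
    exact_mod_cast h
  exact Polynomial.comp_X_add_C_eq_zero_iff.1 h1

theorem exists_unram {K : Type*} [Field K] [IsAlgClosed K] {f : K[X][X]} (hf : f.Monic)
    (hp : Prime f) (hder : ¬ f ∣ derivative f) :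
    ∃ x₁ y₁ : K, f.evalEval x₁ y₁ = 0 ∧ (derivative f).evalEval x₁ y₁ ≠ 0 := by
  have hn : nm f f.natDegree (derivative f) ≠ 0 := nm_ne_zero hf hp hder
  obtain ⟨a, b, hab⟩ := nm_mem hf (derivative f)
  obtain ⟨x₁, hx₁⟩ : ∃ x₁ : K, (nm f f.natDegree (derivative f)).eval x₁ ≠ 0 := by
    by_contra hcon
    push Not at hcon
    exact hn (Polynomial.funext fun x => by rw [hcon x, eval_zero])
  have hd : f.natDegree ≠ 0 := by
    intro h0
    have h1 : f = 1 := hf.natDegree_eq_zero.1 h0
    exact hp.not_isUnit (h1 ▸ isUnit_one)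
  have hm : (f.map (evalRingHom x₁)).Monic := hf.map _
  obtain ⟨y₁, hy₁⟩ : ∃ y₁ : K, IsRoot (f.map (evalRingHom x₁)) y₁ := by
    apply IsAlgClosed.exists_root
    rw [Polynomial.degree_eq_natDegree hm.ne_zero, hf.natDegree_map]
    exact_mod_cast hd
  refine ⟨x₁, y₁, ?_, ?_⟩
  · have h1 : (f.map (evalRingHom x₁)).eval y₁ = 0 := hy₁
    rwa [Polynomial.map_evalRingHom_eval] at h1
  · intro h2
    have h1 : (f.map (evalRingHom x₁)).eval y₁ = 0 := hy₁
    rw [Polynomial.map_evalRingHom_eval] at h1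
    have h3 := congrArg (fun q : K[X][X] => q.evalEval x₁ y₁) hab
    simp only [Polynomial.evalEval_C, Polynomial.evalEval_add, Polynomial.evalEval_mul, h1, h2,
      mul_zero, add_zero] at h3
    exact hx₁ h3

theorem evp_ne_zero {K : Type*} [Field K] {f : K[X][X]} (hf : f.Monic)
    (hp : Prime f) {x₁ : K} {η : PowerSeries K} (hη : evp x₁ η f = 0) {G : K[X][X]}
    (hG : ¬ f ∣ G) : evp x₁ η G ≠ 0 := by
  intro h0
  obtain ⟨a, b, hab⟩ := nm_mem hf G
  have h1 := congrArg (evp x₁ η) hab
  rw [evp_C, map_add, map_mul, map_mul, hη, h0, mul_zero, mul_zero, add_zero] at h1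
  exact nm_ne_zero hf hp hG (evx_eq_zero h1)

theorem not_dvd_of_small {K : Type*} [Field K] {f : K[X][X]} (hf : f.Monic)
    (hp : Prime f) {D W n : ℕ} (hfw : f ∈ (fil2 K D).F (D * f.natDegree)) {x₁ : K}
    {η : PowerSeries K} (hη : evp x₁ η f = 0) {G : K[X][X]} (hG : ¬ f ∣ G)
    (hGw : G ∈ (fil2 K D).F W) (hn : f.natDegree * W < n) :
    ¬ (PowerSeries.X : PowerSeries K) ^ n ∣ evp x₁ η G := by
  intro h0
  obtain ⟨a, b, hab⟩ := nm_mem hf G
  have h1 := congrArg (evp x₁ η) hab
  rw [evp_C, map_add, map_mul, map_mul, hη, mul_zero, zero_add] at h1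
  have h2 : (PowerSeries.X : PowerSeries K) ^ n ∣ evx x₁ (nm f f.natDegree G) := by
    rw [h1]
    exact Dvd.dvd.mul_left h0 _
  rw [evx_eq_coe, PowerSeries.X_pow_dvd_iff] at h2
  have h3 : ((nm f f.natDegree G).comp (X + C x₁)).natDegree < n := by
    rw [Polynomial.natDegree_comp, Polynomial.natDegree_X_add_C, mul_one]
    exact lt_of_le_of_lt (natDegree_nm_le hf hfw hGw) hn
  have h4 : (nm f f.natDegree G).comp (X + C x₁) = 0 := by
    ext m
    rw [Polynomial.coeff_zero]
    by_cases hm : m < n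
    · have := h2 m hm
      rwa [Polynomial.coeff_coe] at this
    · exact Polynomial.coeff_eq_zero_of_natDegree_lt (by omega)
  exact nm_ne_zero hf hp hG (Polynomial.comp_X_add_C_eq_zero_iff.1 h4)

theorem coeff_pow_p {K : Type*} [Field K] {p : ℕ} [CharP K p] (g : PowerSeries K)
    {m : ℕ} (h : ¬ p ∣ m) : PowerSeries.coeff m (g ^ p) = 0 := by
  have hd : PowerSeries.derivative K (g ^ p) = 0 := by
    rw [Derivation.leibniz_pow]
    have h1 : ((p : ℕ) : PowerSeries K) = 0 := by
      have h2 : ((p : ℕ) : PowerSeries K) = PowerSeries.C ((p : ℕ) : K) :=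
        (map_natCast (PowerSeries.C (R := K)) p).symm
      rw [h2, CharP.cast_eq_zero, map_zero]
    rw [← Nat.cast_smul_eq_nsmul (PowerSeries K), h1, zero_smul]
  obtain ⟨k, rfl⟩ : ∃ k, m = k + 1 := by
    rcases m with _ | k
    · exact absurd (dvd_zero p) h
    · exact ⟨k, rfl⟩
  have h1 := congrArg (PowerSeries.coeff k) hd
  rw [PowerSeries.coeff_derivative, map_zero] at h1
  rcases mul_eq_zero.1 h1 with h2 | h2
  · exact h2
  · exfalso
    apply h
    rw [← CharP.cast_eq_zero_iff K p]
    exact_mod_cast h2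

theorem indep_pow {K : Type*} [Field K] {p : ℕ} (_hp : 0 < p) {ι : Type*} [Fintype ι]
    (v W : ι → PowerSeries K) (hW : ∀ i m, ¬ p ∣ m → PowerSeries.coeff m (W i) = 0)
    (hv : ∀ a : ι → K, (∀ s < p, PowerSeries.coeff s (∑ i, a i • v i) = 0) → a = 0)
    (h : ∑ i, v i * W i = 0) : ∀ i, W i = 0 := by
  have key : ∀ n : ℕ, ∀ i, PowerSeries.coeff (p * n) (W i) = 0 := by
    intro n
    induction n using Nat.strong_induction_on with
    | _ n ih =>
      have h1 : (fun i => PowerSeries.coeff (p * n) (W i)) = 0 := by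
        apply hv
        intro s hs
        have h2 : ∀ i, PowerSeries.coeff (p * n + s) (v i * W i) =
            PowerSeries.coeff s (v i) * PowerSeries.coeff (p * n) (W i) := by
          intro i
          rw [PowerSeries.coeff_mul]
          rw [Finset.sum_eq_single (s, p * n)]
          · rintro ⟨a, b⟩ hab hne
            have hab' : a + b = p * n + s := Finset.HasAntidiagonal.mem_antidiagonal.1 hab
            by_cases hb : p ∣ b
            · obtain ⟨m, rfl⟩ := hb
              rcases lt_trichotomy m n with hm | hm | hm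
              · rw [ih m hm i, mul_zero]
              · exfalso
                subst hm
                apply hne
                have : a = s := by omega
                rw [this]
              · exfalso
                have : p * (n + 1) ≤ p * m := Nat.mul_le_mul_left p hm
                rw [mul_add, mul_one] at this
                omega
            · rw [hW i b hb, mul_zero]
          · intro hne
            exfalso
            apply hne
            rw [Finset.HasAntidiagonal.mem_antidiagonal]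
            exact add_comm _ _
        have h3 := congrArg (PowerSeries.coeff (p * n + s)) h
        rw [map_sum, map_zero] at h3
        rw [map_sum, ← h3]
        apply Finset.sum_congr rfl
        intro i _
        rw [h2 i, PowerSeries.coeff_smul]
        exact mul_comm _ _
      intro i
      exact congrFun h1 i
  intro i
  ext m
  rw [map_zero]
  by_cases hm : p ∣ m
  · obtain ⟨n, rfl⟩ := hm
    exact key n i
  · exact hW i m hm

/-- The polynomial with coefficients `b k l` at `x^l Y^k`. -/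
noncomputable def pol {K : Type*} [Field K] {m n : ℕ} (b : Fin m → Fin n → K) : K[X][X] :=
  ∑ k : Fin m, ∑ l : Fin n, b k l • (C (X ^ (l : ℕ)) * X ^ (k : ℕ))

theorem coeff_pol {K : Type*} [Field K] {m n : ℕ} (b : Fin m → Fin n → K) (i : ℕ) :
    (pol b).coeff i = ∑ k : Fin m, if i = (k : ℕ) then ∑ l : Fin n, b k l • X ^ (l : ℕ) else 0 := by
  rw [pol, finsetSum_coeff]
  apply Finset.sum_congr rfl
  intro k _
  rw [finsetSum_coeff]
  split_ifs with h
  · apply Finset.sum_congr rfl
    intro l _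
    rw [coeff_smul, coeff_C_mul, coeff_X_pow, if_pos h, mul_one]
  · apply Finset.sum_eq_zero
    intro l _
    rw [coeff_smul, coeff_C_mul, coeff_X_pow, if_neg h, mul_zero, smul_zero]

theorem coeff_pol_of_ge {K : Type*} [Field K] {m n : ℕ} (b : Fin m → Fin n → K) {i : ℕ}
    (hi : m ≤ i) : (pol b).coeff i = 0 := by
  rw [coeff_pol]
  apply Finset.sum_eq_zero
  intro k _
  rw [if_neg]
  have := k.2
  omega

theorem coeff_pol_fin {K : Type*} [Field K] {m n : ℕ} (b : Fin m → Fin n → K) (k : Fin m) :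
    (pol b).coeff (k : ℕ) = ∑ l : Fin n, b k l • X ^ (l : ℕ) := by
  rw [coeff_pol, Finset.sum_eq_single k]
  · rw [if_pos rfl]
  · intro k' _ hk'
    rw [if_neg]
    intro h
    exact hk' (Fin.ext h.symm)
  · intro h
    exact absurd (Finset.mem_univ k) h

theorem coeff_coeff_pol {K : Type*} [Field K] {m n : ℕ} (b : Fin m → Fin n → K) (k : Fin m)
    (l : Fin n) : ((pol b).coeff (k : ℕ)).coeff (l : ℕ) = b k l := by
  rw [coeff_pol_fin, finsetSum_coeff, Finset.sum_eq_single l]
  · rw [coeff_smul, coeff_X_pow, if_pos rfl, smul_eq_mul, mul_one]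
  · intro l' _ hl'
    rw [coeff_smul, coeff_X_pow, if_neg, smul_zero]
    intro h
    exact hl' (Fin.ext h.symm)
  · intro h
    exact absurd (Finset.mem_univ l) h

theorem pol_eq_zero {K : Type*} [Field K] {m n : ℕ} {b : Fin m → Fin n → K} (h : pol b = 0) :
    b = 0 := by
  funext k l
  rw [← coeff_coeff_pol b k l, h]
  simp

theorem not_dvd_pol {K : Type*} [Field K] {f : K[X][X]} (hf : f.Monic) {n : ℕ}
    {b : Fin f.natDegree → Fin n → K} (hb : b ≠ 0) : ¬ f ∣ pol b := by
  intro h
  have h0 : pol b ≠ 0 := fun h' => hb (pol_eq_zero h')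
  have h1 : f.degree ≤ (pol b).degree := Polynomial.degree_le_of_dvd h h0
  have h2 : (pol b).degree < f.natDegree := by
    rw [Polynomial.degree_lt_iff_coeff_zero]
    intro i hi
    exact coeff_pol_of_ge b hi
  rw [Polynomial.degree_eq_natDegree hf.ne_zero] at h1
  exact absurd h1 (not_le.2 h2)

theorem pol_mem {K : Type*} [Field K] (D : ℕ) {m n : ℕ} (b : Fin m → Fin n → K) :
    pol b ∈ (fil2 K D).F (n - 1 + D * (m - 1)) := by
  rw [mem_poly]
  intro j hj
  have hjm : j < m := by
    by_contra hcon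
    exact hj (coeff_pol_of_ge b (not_lt.1 hcon))
  have h1 : D * j ≤ D * (m - 1) := Nat.mul_le_mul_left D (by omega)
  refine ⟨by omega, ?_⟩
  rw [mem_fil1]
  have h2 := coeff_pol_fin b ⟨j, hjm⟩
  simp only at h2
  rw [h2]
  apply Polynomial.natDegree_sum_le_of_forall_le
  intro l _
  refine (Polynomial.natDegree_smul_le _ _).trans ?_
  rw [Polynomial.natDegree_X_pow]
  have := l.2
  omega

theorem evp_smul {K : Type*} [Field K] (x₁ : K) (η : PowerSeries K) (a : K) (G : K[X][X]) :
    evp x₁ η (a • G) = a • evp x₁ η G := by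
  have h1 : a • G = C (C a) * G := by
    ext i j
    simp [coeff_C_mul, coeff_smul]
  rw [h1, map_mul, evp_C]
  have h2 : evx x₁ (C a) = PowerSeries.C a := by simp [evx]
  rw [h2, ← PowerSeries.smul_eq_C_mul]

theorem evp_term {K : Type*} [Field K] (x₁ : K) (η : PowerSeries K) (a : K) (V W : K[X][X])
    (n : ℕ) : evp x₁ η (a • (V * W ^ n)) = a • (evp x₁ η V * (evp x₁ η W) ^ n) := by
  rw [evp_smul, map_mul, map_pow]

theorem evp_pol {K : Type*} [Field K] (x₁ : K) (η : PowerSeries K) {m n : ℕ}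
    (b : Fin m → Fin n → K) : evp x₁ η (pol b) =
      ∑ k : Fin m, ∑ l : Fin n, b k l • evp x₁ η (C (X ^ (l : ℕ)) * X ^ (k : ℕ)) := by
  simp only [pol, map_sum, evp_smul]

theorem not_dvd_hpoly {K : Type*} [Field K] [IsAlgClosed K] {p : ℕ} [Fact p.Prime] [CharP K p]
    {f : K[X][X]} (hf : f.Monic) (hp : Prime f) (hder : ¬ f ∣ derivative f) {D : ℕ}
    (hfw : f ∈ (fil2 K D).F (D * f.natDegree)) {A B : ℕ}
    (hA : f.natDegree * (A + D * f.natDegree) ≤ p) {c : Idx f.natDegree A B → K} (hc : c ≠ 0) :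
    ¬ f ∣ hpoly p f.natDegree A B c := by
  intro hdvd
  apply hc
  have hp0 : 0 < p := (Fact.out : p.Prime).pos
  have hd : f.natDegree ≠ 0 := by
    intro h0
    have h1 : f = 1 := hf.natDegree_eq_zero.1 h0
    exact hp.not_isUnit (h1 ▸ isUnit_one)
  obtain ⟨x₁, y₁, h0, h1⟩ := exists_unram hf hp hder
  obtain ⟨η, -, hη⟩ := exists_root hf h0 h1
  have : CharP (PowerSeries K) p :=
    charP_of_injective_ringHom (f := (PowerSeries.C : K →+* PowerSeries K))
      PowerSeries.C_injective p
  have : ExpChar (PowerSeries K) p := ExpChar.prime (Fact.out : p.Prime)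
  choose b hb using fun s : Idx f.natDegree A B => IsAlgClosed.exists_pow_nat_eq (c s) hp0
  -- the polynomials whose `p`-th powers are the coefficients
  have hev : ∑ i : Fin A × Fin f.natDegree, evp x₁ η (C (X ^ (i.1 : ℕ)) * X ^ (i.2 : ℕ)) *
      (evp x₁ η (pol fun k l => b (i, (k, l)))) ^ p = 0 := by
    have h2 : evp x₁ η (hpoly p f.natDegree A B c) = 0 := by
      obtain ⟨q, hq⟩ := hdvd
      rw [hq, map_mul, hη, zero_mul]
    refine Eq.trans ?_ h2
    rw [hpoly, map_sum]
    refine Eq.trans ?_ (Fintype.sum_prod_type _).symm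
    apply Finset.sum_congr rfl
    intro i _
    rw [evp_pol, ← Fintype.sum_prod_type', sum_pow_char, Finset.mul_sum]
    apply Finset.sum_congr rfl
    intro s _
    rw [evp_term, _root_.smul_pow, hb, mul_smul_comm]
  have hW := indep_pow hp0 _ _ (fun i m hm => coeff_pow_p (p := p) _ hm) ?_ hev
  · funext s
    obtain ⟨i, k, l⟩ := s
    have h3 : evp x₁ η (pol fun k l => b (i, (k, l))) = 0 := by
      have := hW i
      exact pow_eq_zero_iff (hp0.ne') |>.1 this
    have h4 : (fun k l => b (i, (k, l))) = 0 := by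
      by_contra hne
      exact evp_ne_zero hf hp hη (not_dvd_pol hf hne) h3
    have h5 : b (i, (k, l)) = 0 := congrFun (congrFun h4 k) l
    rw [← hb, h5, zero_pow hp0.ne']
    rfl
  · intro a ha
    have h3 : (PowerSeries.X : PowerSeries K) ^ p ∣
        evp x₁ η (pol fun (k : Fin f.natDegree) (l : Fin A) => a (l, k)) := by
      rw [PowerSeries.X_pow_dvd_iff]
      intro m hm
      rw [← ha m hm, evp_pol, Fintype.sum_prod_type, Finset.sum_comm]
    by_contra hne
    have hne' : (fun (k : Fin f.natDegree) (l : Fin A) => a (l, k)) ≠ 0 := by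
      intro h'
      apply hne
      funext i
      exact congrFun (congrFun h' i.2) i.1
    have hA0 : 0 < A := by
      rcases Nat.eq_zero_or_pos A with hA0 | hA0
      · exfalso
        apply hne
        funext i
        exact absurd i.1.2 (by omega)
      · exact hA0
    refine not_dvd_of_small hf hp hfw hη (not_dvd_pol hf hne') (pol_mem D _) ?_ h3
    refine lt_of_lt_of_le ?_ hA
    apply Nat.mul_lt_mul_of_pos_left _ (Nat.pos_of_ne_zero hd)
    have h6 : D * (f.natDegree - 1) ≤ D * f.natDegree := Nat.mul_le_mul_left D (by omega)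
    omega

end Pool.Agent.WPl
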