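import Pool.Agent.WPl.Indep

/-!
# The linear algebra of the Stepanov method (module WPl/Lin)

`rpoly f d A B r c = Σ_s c_s (D^r(x^i Y^j)) x^l Z^k ∈ K[x][Y][Z]`, `D = f_Y d/dx - f_x d/dY`.

PAPER PROOF of `exists_coeffs`. Let `N = A + B + 2 D d + M D d`, `d = natDegree f`. For `r < M` the
polynomial `rpoly ... r c` has weight `≤ N` (as an element of `(fil3 K D).F N`):
`x^i Y^j ∈ F(A + D d)` (`C_mem`, `mem_fil1`, `X_mem`, `pow_mem`), `DD_iterate_mem` gives
`F(A + D d + r D d)`, `x^l ∈ F(B)`, and `Z^k ∈ F(k D) ≤ F(D d)`; sums: `Submodule.sum_mem`,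
`Submodule.smul_mem`. By `modByMonic_mem` (for `F`, monic in `Z`, of weight `≤ D e`,
`φ = fil2 K D`) the polynomial `rpoly ... %ₘ F` has weight `≤ N`, so each coefficient (`k < e`,
the others vanish as `natDegree (_ %ₘ F) < e`) is in `(fil2 K D).F N`, and by `modByMonic_mem` for
`f` (`φ = fil1 K`) each `((rpoly ... %ₘ F).coeff k) %ₘ f` is in `(fil2 K D).F N`, so its
coefficients `j < d` are polynomials of degree `≤ N` (`mem_fil1`). Everything is `K`-linear in `c`.
The linear map `L : (Idx d A B → K) →ₗ[K] (Fin M × Fin e × Fin d × Fin (N + 1) → K)`,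
`L c (r, k, j, n) = ((((rpoly f d A B r c) %ₘ F).coeff k %ₘ f).coeff j).coeff n`
has a nonzero element in its kernel because `M e d (N + 1) < (A d) (d B)`
(`LinearMap.exists_ne_zero_of_...`/`LinearMap.ker_ne_bot_of_finrank_lt`, `Module.finrank_fin_fun`,
`Fintype.card_prod`). For this `c`, all the coefficients `k`, `j`, `n` vanish (the ones outside the
ranges vanish by the weights), so `((rpoly ... %ₘ F).coeff k) %ₘ f = 0`, i.e. `f` divides it
(`modByMonic_eq_zero_iff_dvd`).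

Linearity of `P ↦ P %ₘ F` over `K`: `Polynomial.modByMonicHom`, or `add_modByMonic` and
`smul_modByMonic` (with `c • P` for `c : K` equal to `C (C c) • P`; show `algebraMap` form first).
-/

namespace Pool.Agent.WPl

open Polynomial

/-- `Σ c (D^r(x^i Y^j)) x^l Z^k`. -/
noncomputable def rpoly {K : Type*} [Field K] (f : K[X][X]) (d A B r : ℕ) (c : Idx d A B → K) :
    K[X][X][X] :=
  ∑ s, c s • (C ((DD f)^[r] (C (X ^ (s.1.1 : ℕ)) * X ^ (s.1.2 : ℕ)) * C (X ^ (s.2.2 : ℕ))) *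
    X ^ (s.2.1 : ℕ))

/-- the terms of `rpoly` -/
noncomputable def rterm {K : Type*} [Field K] (f : K[X][X]) (d A B r : ℕ) (s : Idx d A B) :
    K[X][X][X] :=
  C ((DD f)^[r] (C (X ^ (s.1.1 : ℕ)) * X ^ (s.1.2 : ℕ)) * C (X ^ (s.2.2 : ℕ))) *
    X ^ (s.2.1 : ℕ)

theorem rterm_mem {K : Type*} [Field K] {f : K[X][X]} {D : ℕ}
    (hfw : f ∈ (fil2 K D).F (D * f.natDegree)) {A B M r : ℕ} (hr : r < M)
    (s : Idx f.natDegree A B) :
    rterm f f.natDegree A B r s ∈
      (fil3 K D).F (A + B + 2 * (D * f.natDegree) + M * (D * f.natDegree)) := by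
  have h1 : (C (X ^ (s.1.1 : ℕ)) : K[X][X]) ∈ (fil2 K D).F s.1.1 :=
    C_mem (mem_fil1.2 (by rw [natDegree_X_pow]))
  have h2 : (X ^ (s.1.2 : ℕ) : K[X][X]) ∈ (fil2 K D).F ((s.1.2 : ℕ) * D) := pow_mem X_mem _
  have h3 := DD_iterate_mem hfw ((fil2 K D).mul h1 h2) r
  have h4 : (C (X ^ (s.2.2 : ℕ)) : K[X][X]) ∈ (fil2 K D).F s.2.2 :=
    C_mem (mem_fil1.2 (by rw [natDegree_X_pow]))
  have h5 := (fil2 K D).mul h3 h4
  have h6 : (X ^ (s.2.1 : ℕ) : K[X][X][X]) ∈ (fil3 K D).F ((s.2.1 : ℕ) * D) := pow_mem X_mem _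
  have h7 := (fil3 K D).mul (C_mem (φ := fil2 K D) (w := D) h5) h6
  refine (fil3 K D).mono ?_ h7
  have a1 := s.1.1.2
  have a2 := s.1.2.2
  have a3 := s.2.1.2
  have a4 := s.2.2.2
  have b1 : (s.1.2 : ℕ) * D ≤ D * f.natDegree := by
    rw [mul_comm]; exact Nat.mul_le_mul_left _ a2.le
  have b2 : (s.2.1 : ℕ) * D ≤ D * f.natDegree := by
    rw [mul_comm]; exact Nat.mul_le_mul_left _ a3.le
  have b3 : r * (D * f.natDegree) ≤ M * (D * f.natDegree) := Nat.mul_le_mul_right _ hr.le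
  omega

theorem rpoly_mem {K : Type*} [Field K] {f : K[X][X]} {D : ℕ}
    (hfw : f ∈ (fil2 K D).F (D * f.natDegree)) {A B M r : ℕ} (hr : r < M)
    (c : Idx f.natDegree A B → K) :
    rpoly f f.natDegree A B r c ∈
      (fil3 K D).F (A + B + 2 * (D * f.natDegree) + M * (D * f.natDegree)) := by
  unfold rpoly
  exact Submodule.sum_mem _ fun s _ => Submodule.smul_mem _ _ (rterm_mem hfw hr s)

theorem coeff_mem_of {K : Type*} [Field K] {R : Type*} [CommRing R] [Algebra K R]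
    {φ : Fil K R} {w W : ℕ} {G : R[X]} (h : G ∈ (φ.poly w).F W) (k : ℕ) : G.coeff k ∈ φ.F W := by
  by_cases hk : G.coeff k = 0
  · rw [hk]; exact Submodule.zero_mem _
  · exact φ.mono (Nat.sub_le _ _) (h k hk).2

theorem coeff_modByMonic_zero {R : Type*} [CommRing R] [Nontrivial R] {P G : R[X]} (hP : P.Monic)
    {k : ℕ} (hk : P.natDegree ≤ k) : (G %ₘ P).coeff k = 0 := by
  apply coeff_eq_zero_of_degree_lt
  refine lt_of_lt_of_le (degree_modByMonic_lt G hP) ?_
  rw [degree_eq_natDegree hP.ne_zero]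
  exact_mod_cast hk

theorem exists_coeffs {K : Type*} [Field K] {f : K[X][X]} (hf : f.Monic) {D : ℕ}
    (hfw : f ∈ (fil2 K D).F (D * f.natDegree)) {F : K[X][X][X]} (hF : F.Monic)
    (hFw : F ∈ (fil3 K D).F (D * F.natDegree)) {A B M : ℕ}
    (hcount : M * (F.natDegree * (f.natDegree *
      (A + B + 2 * (D * f.natDegree) + M * (D * f.natDegree) + 1))) <
        (A * f.natDegree) * (f.natDegree * B)) :
    ∃ c : Idx f.natDegree A B → K, c ≠ 0 ∧
      ∀ r < M, ∀ k, f ∣ (rpoly f f.natDegree A B r c %ₘ F).coeff k := by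
  classical
  set N : ℕ := A + B + 2 * (D * f.natDegree) + M * (D * f.natDegree) with hN
  let rl : ℕ → ((Idx f.natDegree A B → K) →ₗ[K] K[X][X][X]) := fun r =>
    Fintype.linearCombination K (rterm f f.natDegree A B r)
  have hrl : ∀ r c, rl r c = rpoly f f.natDegree A B r c := fun r c =>
    Fintype.linearCombination_apply _ _ _
  let m1 : K[X][X][X] →ₗ[K] K[X][X][X] := (modByMonicHom F).restrictScalars K
  let m2 : K[X][X] →ₗ[K] K[X][X] := (modByMonicHom f).restrictScalars K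
  let c1 : ℕ → (K[X][X][X] →ₗ[K] K[X][X]) := fun k => (lcoeff K[X][X] k).restrictScalars K
  let c2 : ℕ → (K[X][X] →ₗ[K] K[X]) := fun j => (lcoeff K[X] j).restrictScalars K
  let L : (Idx f.natDegree A B → K) →ₗ[K]
      (Fin M × (Fin F.natDegree × (Fin f.natDegree × Fin (N + 1))) → K) :=
    LinearMap.pi fun t => (lcoeff K (t.2.2.2 : ℕ)).comp ((c2 t.2.2.1).comp
      (m2.comp ((c1 t.2.1).comp (m1.comp (rl t.1)))))
  have hL : ∀ c t, L c t = ((((rpoly f f.natDegree A B t.1 c %ₘ F).coeff t.2.1) %ₘ f).coeff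
      t.2.2.1).coeff t.2.2.2 := by
    intro c t
    rw [← hrl]
    rfl
  have hker : LinearMap.ker L ≠ ⊥ := by
    apply LinearMap.ker_ne_bot_of_finrank_lt
    rw [Module.finrank_fintype_fun_eq_card, Module.finrank_fintype_fun_eq_card]
    simp only [Fintype.card_prod, Fintype.card_fin]
    exact hcount
  obtain ⟨c, hc, hc0⟩ := Submodule.exists_mem_ne_zero_of_ne_bot hker
  refine ⟨c, hc0, ?_⟩
  intro r hr k
  by_cases hk : k < F.natDegree
  · rw [← modByMonic_eq_zero_iff_dvd hf]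
    have w1 := modByMonic_mem (φ := fil2 K D) hF hFw (rpoly_mem hfw hr c)
    have w2 := modByMonic_mem (φ := fil1 K) hf hfw (coeff_mem_of (φ := fil2 K D) w1 k)
    ext j n
    rw [coeff_zero, coeff_zero]
    by_cases hj : j < f.natDegree
    · by_cases hn : n < N + 1
      · have h1 := congrFun (LinearMap.mem_ker.1 hc)
          (⟨r, hr⟩, (⟨k, hk⟩, (⟨j, hj⟩, ⟨n, hn⟩)))
        rw [hL] at h1
        exact h1
      · have w3 := mem_fil1.1 (coeff_mem_of (φ := fil1 K) w2 j)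
        apply coeff_eq_zero_of_natDegree_lt
        omega
    · rw [coeff_modByMonic_zero hf (not_lt.1 hj), coeff_zero]
  · rw [coeff_modByMonic_zero hF (not_lt.1 hk)]
    exact dvd_zero f

end Pool.Agent.WPl
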