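import Pool.Agent.WPl.Defs

/-!
# The norm modulo a monic polynomial (module WPl/Norm)

`nm f d G = det (mulMat f d G)`, `mulMat f d G i j = (X^j * G %ₘ f).coeff i`, `d = natDegree f`.

PAPER PROOFS.

* `nm_ne_zero`. If the determinant is `0` then (`Matrix.exists_mulVec_eq_zero_iff`, `R` is a
  domain) there is `v ≠ 0` with `M v = 0`. Let `P = Σ_j C (v j) X^j ≠ 0`, `degree P < d`
  (if `d = 0` the determinant is `1`). `P * G %ₘ f = Σ_j C (v j) * (X^j * G %ₘ f)`
  (`%ₘ f` is additive, and `C c * Q %ₘ f = C c * (Q %ₘ f)`: `smul_modByMonic`, `add_modByMonic`,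
  or the linear map `modByMonicHom f`), it has degree `< d` and its `i`-th coefficient is
  `(M v) i = 0`, so it is `0`, so `f ∣ P * G`, so `f ∣ P` or `f ∣ G`, and `f ∣ P` is impossible
  because `degree P < degree f`, `P ≠ 0`.

* `nm_mem`. If `d = 0`, `f = 1` and everything is clear. Otherwise let `v = adjugate M *ᵥ e_0`,
  `M v = det M • e_0` (`Matrix.mul_adjugate`), `P = Σ_j C (v j) X^j`. As above
  `P * G %ₘ f = Σ_i C ((M v) i) X^i = C (det M)`, and `P * G = f * (P * G /ₘ f) + P * G %ₘ f`.

* `map_nm`. Let `V i j = η i ^ j` (`Matrix.vandermonde η`) over `S`. For every `Q : R[X]`,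
  `eval₂ σ (η i) (Q %ₘ f) = eval₂ σ (η i) Q` because `f` is killed, and
  `eval₂ σ (η i) (Q %ₘ f) = Σ_{k < d} σ ((Q %ₘ f).coeff k) * η i ^ k`
  (`eval₂_eq_sum_range'`, `natDegree (Q %ₘ f) < d` for `d ≥ 1`; `d = 0` is trivial).
  So `V * (mulMat f d G).map σ = diagonal (eval₂ σ (η i) G) * V`, both have `(i, j)` entry
  `η i ^ j * eval₂ σ (η i) G`. Take determinants: `det V ≠ 0` (`Matrix.det_vandermonde_ne_zero_iff`,
  `η` injective, `S` a domain), `RingHom.map_det`, `Matrix.det_diagonal`; cancel.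
-/

namespace Pool.Agent.WPl

open Polynomial

namespace NormAux

variable {R : Type*} [CommRing R]

/-- the polynomial with given coefficients -/
noncomputable def vp {d : ℕ} (v : Fin d → R) : R[X] := ∑ j, C (v j) * X ^ (j : ℕ)

theorem vp_coeff {d : ℕ} (v : Fin d → R) (i : Fin d) : (vp v).coeff i = v i := by
  rw [vp, finsetSum_coeff, Finset.sum_eq_single i]
  · rw [coeff_C_mul_X_pow, if_pos rfl]
  · intro j _ hj
    rw [coeff_C_mul_X_pow, if_neg fun h => hj (Fin.ext h.symm)]
  · intro h
    exact absurd (Finset.mem_univ i) h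

theorem vp_degree [Nontrivial R] {d : ℕ} (v : Fin d → R) : (vp v).degree < d := by
  refine (degree_sum_le _ _).trans_lt ?_
  rw [Finset.sup_lt_iff (WithBot.bot_lt_coe _)]
  intro i _
  exact (degree_C_mul_X_pow_le _ _).trans_lt (by exact_mod_cast i.2)

theorem vp_mul_coeff (f G : R[X]) {d : ℕ} (v : Fin d → R) (i : Fin d) :
    ((vp v * G) %ₘ f).coeff i = ((mulMat f d G).mulVec v) i := by
  have h1 : (vp v * G) %ₘ f = ∑ j, v j • ((X ^ (j : ℕ) * G) %ₘ f) := by
    have h2 : vp v * G = ∑ j, v j • (X ^ (j : ℕ) * G) := by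
      rw [vp, Finset.sum_mul]
      refine Finset.sum_congr rfl fun j _ => ?_
      rw [smul_eq_C_mul, mul_assoc]
    have h3 := map_sum (modByMonicHom f) (fun j => v j • (X ^ (j : ℕ) * G)) Finset.univ
    rw [← h2] at h3
    simp only [map_smul] at h3
    exact h3
  rw [h1, finsetSum_coeff, Matrix.mulVec, dotProduct]
  refine Finset.sum_congr rfl fun j _ => ?_
  rw [coeff_smul, smul_eq_mul, mul_comm]
  rfl

end NormAux

open NormAux

theorem nm_ne_zero {R : Type*} [CommRing R] [IsDomain R] {f : R[X]} (hf : f.Monic)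
    (hp : Prime f) {G : R[X]} (h : ¬ f ∣ G) : nm f f.natDegree G ≠ 0 := by
  intro h0
  obtain ⟨v, hv, hMv⟩ := Matrix.exists_mulVec_eq_zero_iff.2 h0
  have h1 : (vp v * G) %ₘ f = 0 := by
    ext i
    rw [coeff_zero]
    rcases lt_or_ge i f.natDegree with hi | hi
    · have h2 := vp_mul_coeff f G v ⟨i, hi⟩
      rw [hMv] at h2
      exact h2
    · apply coeff_eq_zero_of_degree_lt
      refine (degree_modByMonic_lt _ hf).trans_le ?_
      rw [degree_eq_natDegree hf.ne_zero]
      exact_mod_cast hi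
  rw [modByMonic_eq_zero_iff_dvd hf] at h1
  rcases hp.dvd_or_dvd h1 with h2 | h2
  · have h3 : vp v ≠ 0 := by
      intro h3
      apply hv
      funext i
      rw [← vp_coeff v i, h3, coeff_zero]
      rfl
    refine hf.not_dvd_of_degree_lt h3 ?_ h2
    rw [degree_eq_natDegree hf.ne_zero]
    exact vp_degree v
  · exact h h2

theorem nm_mem {R : Type*} [CommRing R] {f : R[X]} (hf : f.Monic) (G : R[X]) :
    ∃ a b : R[X], C (nm f f.natDegree G) = a * f + b * G := by
  rcases subsingleton_or_nontrivial R with hR | hR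
  · exact ⟨0, 0, Subsingleton.elim _ _⟩
  rcases Nat.eq_zero_or_pos f.natDegree with hd | hd
  · have h1 := hf.natDegree_eq_zero.1 hd
    refine ⟨C (nm f f.natDegree G), 0, ?_⟩
    have h2 : C (nm f f.natDegree G) * f = C (nm f f.natDegree G) * 1 := congrArg _ h1
    rw [h2, mul_one, zero_mul, add_zero]
  · set M := mulMat f f.natDegree G with hM
    let e₀ : Fin f.natDegree → R := Pi.single ⟨0, hd⟩ 1
    let v := M.adjugate.mulVec e₀
    have h1 : M.mulVec v = M.det • e₀ := by
      rw [Matrix.mulVec_mulVec, Matrix.mul_adjugate, Matrix.smul_mulVec, Matrix.one_mulVec]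
    have h2 : (vp v * G) %ₘ f = C (nm f f.natDegree G) := by
      ext i
      rcases lt_or_ge i f.natDegree with hi | hi
      · have h3 := vp_mul_coeff f G v ⟨i, hi⟩
        rw [← hM, h1] at h3
        simp only at h3
        rw [h3, coeff_C, Pi.smul_apply, smul_eq_mul]
        split_ifs with h4
        · subst h4
          simp only [e₀, Pi.single_eq_same, mul_one]
          rfl
        · simp only [e₀]
          rw [Pi.single_eq_of_ne, mul_zero]
          intro h5
          exact h4 (congrArg Fin.val h5)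
      · rw [coeff_C, if_neg (by omega)]
        apply coeff_eq_zero_of_degree_lt
        refine (degree_modByMonic_lt _ hf).trans_le ?_
        rw [degree_eq_natDegree hf.ne_zero]
        exact_mod_cast hi
    refine ⟨-((vp v * G) /ₘ f), vp v, ?_⟩
    have h3 := modByMonic_add_div (vp v * G) f
    rw [h2] at h3
    calc C (nm f f.natDegree G) = vp v * G - f * ((vp v * G) /ₘ f) := by
          rw [eq_sub_iff_add_eq]
          exact h3
      _ = _ := by ring

theorem map_nm {R S : Type*} [CommRing R] [CommRing S] [IsDomain S] {f : R[X]} (hf : f.Monic)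
    (σ : R →+* S) (η : Fin f.natDegree → S) (hη : Function.Injective η)
    (h0 : ∀ i, eval₂ σ (η i) f = 0) (G : R[X]) :
    σ (nm f f.natDegree G) = ∏ i, eval₂ σ (η i) G := by
  have hR : Nontrivial R := σ.domain_nontrivial
  have h1 : Matrix.vandermonde η * (mulMat f f.natDegree G).map σ =
      Matrix.diagonal (fun i => eval₂ σ (η i) G) * Matrix.vandermonde η := by
    ext i j
    rw [Matrix.diagonal_mul, Matrix.mul_apply, Matrix.vandermonde_apply]
    have h2 : eval₂ σ (η i) ((X ^ (j : ℕ) * G) %ₘ f) = η i ^ (j : ℕ) * eval₂ σ (η i) G := by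
      rw [eval₂_modByMonic_eq_self_of_root (h0 i), eval₂_mul, eval₂_X_pow]
    have hf1 : f ≠ 1 := by
      intro hf1
      have h3 := i.2
      have h4 := congrArg natDegree hf1
      rw [natDegree_one] at h4
      omega
    rw [eval₂_eq_sum_range' σ (natDegree_modByMonic_lt (X ^ (j : ℕ) * G) hf hf1),
      ← Fin.sum_univ_eq_sum_range
        (fun k => σ (((X ^ (j : ℕ) * G) %ₘ f).coeff k) * η i ^ k)] at h2
    rw [mul_comm, ← h2]
    refine Finset.sum_congr rfl fun k _ => ?_
    rw [Matrix.vandermonde_apply, mul_comm]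
    rfl
  have h2 := congrArg Matrix.det h1
  rw [Matrix.det_mul, Matrix.det_mul, Matrix.det_diagonal, mul_comm] at h2
  have h3 := mul_right_cancel₀ (Matrix.det_vandermonde_ne_zero_iff.2 hη) h2
  rw [← h3, nm, RingHom.map_det]
  rfl

end Pool.Agent.WPl
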