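import Pool.Agent.WPl.Lin

/-!
# High order of vanishing (module WPl/Ord)

PAPER PROOF of `order_at`. Let `y₁ = η(0)`, `θ = evp x₁ η f_Y`, `θ(0) = f_Y(x₁, y₁) ≠ 0`. By
`dvd_of_iterate` it is enough to show that for `r < M` the constant coefficient of
`(θ d/dt)^r (evp x₁ η h)`, `h = hpoly p d A B c`, is `0`. Now
`evp x₁ η h = Σ_s evp x₁ η (C (C c_s) * C x^i * Y^j) * w_s`, `w_s = (evp x₁ η (C x^l * Y^k))^p`,
`d/dt w_s = 0` (`p = 0` in `K`). By `chain_iterate` and linearity of `DD f`,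
`(θ d/dt)^r (evp x₁ η h) = Σ_s c_s • (evp x₁ η ((DD f)^[r] (C x^i * Y^j)) * w_s)`, with constant
coefficient `Σ_s c_s (D^r (x^i Y^j))(x₁, y₁) (x₁^l y₁^k)^p` (`constantCoeff_evp`)
`= Σ_s c_s (D^r (x^i Y^j))(x₁, y₁) x₁^l (y₁^p)^k` since `x₁^p = x₁`. This is the value of
`rpoly f d A B r c` at `(x₁, y₁, y₁^p)`: `ev3 x₁ y₁ z P = (P.map (evalEvalRingHom x₁ y₁)).eval z`.
Finally `rpoly = F * (rpoly /ₘ F) + rpoly %ₘ F` (`modByMonic_add_div`), `ev3 F = 0`, and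
`ev3 (rpoly %ₘ F) = Σ_k ((rpoly %ₘ F).coeff k)(x₁, y₁) z^k = 0` because every coefficient is
divisible by `f` and `f(x₁, y₁) = 0`.
-/

namespace Pool.Agent.WPl

open Polynomial

/-- The value of `P(x, Y, Z)` at `(x₁, y₁, z)`. -/
noncomputable def ev3 {K : Type*} [Field K] (x₁ y₁ z : K) : K[X][X][X] →+* K :=
  (evalRingHom z).comp (mapRingHom (evalEvalRingHom x₁ y₁))

section

variable {K : Type*} [Field K]

private theorem ord_smul (c : K) (P : K[X][X]) : c • P = C (C c) * P := by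
  rw [Algebra.smul_def]
  rfl

private theorem ord_smul3 (c : K) (P : K[X][X][X]) : c • P = C (C (C c)) * P := by
  rw [Algebra.smul_def]
  rfl

private theorem ord_evx_C (x₁ c : K) : evx x₁ (C c) = PowerSeries.C c := by
  unfold evx
  rw [coe_eval₂RingHom, eval₂_C]

private theorem ord_evp_C (x₁ : K) (η : PowerSeries K) (a : K[X]) : evp x₁ η (C a) = evx x₁ a := by
  unfold evp
  rw [coe_eval₂RingHom, eval₂_C]

private theorem ord_evp_smul (x₁ : K) (η : PowerSeries K) (c : K) (P : K[X][X]) :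
    evp x₁ η (c • P) = PowerSeries.C c * evp x₁ η P := by
  rw [ord_smul, map_mul, ord_evp_C, ord_evx_C]

private theorem ord_iter_smul (f : K[X][X]) (r : ℕ) (c : K) (P : K[X][X]) :
    (DD f)^[r] (c • P) = c • (DD f)^[r] P := by
  induction r generalizing P with
  | zero => rfl
  | succ r ih =>
    rw [Function.iterate_succ_apply, Function.iterate_succ_apply, map_smul, ih]

private theorem ord_der_pow {p : ℕ} [CharP K p] (g : PowerSeries K) :
    PowerSeries.derivative K (g ^ p) = 0 := by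
  rw [Derivation.leibniz_pow, nsmul_eq_mul]
  have h : ((p : ℕ) : PowerSeries K) = 0 := by
    rw [← map_natCast (PowerSeries.C (R := K)), CharP.cast_eq_zero K p, map_zero]
  rw [h, zero_mul]

private theorem ev3_C (x₁ y₁ z : K) (P : K[X][X]) : ev3 x₁ y₁ z (C P) = P.evalEval x₁ y₁ := by
  unfold ev3
  rw [RingHom.comp_apply, coe_mapRingHom, map_C, coe_evalRingHom, eval_C]
  rfl

private theorem ev3_X (x₁ y₁ z : K) : ev3 x₁ y₁ z X = z := by
  unfold ev3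
  rw [RingHom.comp_apply, coe_mapRingHom, map_X, coe_evalRingHom, eval_X]

private theorem ord_evalEval_CX (x₁ y₁ : K) (l k : ℕ) :
    (C (X ^ l) * X ^ k : K[X][X]).evalEval x₁ y₁ = x₁ ^ l * y₁ ^ k := by
  unfold evalEval
  simp

end

theorem order_at {K : Type*} [Field K] {p : ℕ} [Fact p.Prime] [CharP K p]
    {f : K[X][X]} {F : K[X][X][X]} (hF : F.Monic) {A B M : ℕ} (hM : M ≤ p)
    {c : Idx f.natDegree A B → K}
    (hc : ∀ r < M, ∀ k, f ∣ (rpoly f f.natDegree A B r c %ₘ F).coeff k)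
    {x₁ y₁ : K} (hx : x₁ ^ p = x₁) (h0 : f.evalEval x₁ y₁ = 0)
    (h1 : (derivative f).evalEval x₁ y₁ ≠ 0) (h2 : ev3 x₁ y₁ (y₁ ^ p) F = 0)
    {η : PowerSeries K} (hη0 : PowerSeries.constantCoeff η = y₁) (hη : evp x₁ η f = 0) :
    (PowerSeries.X : PowerSeries K) ^ M ∣ evp x₁ η (hpoly p f.natDegree A B c) := by
  apply dvd_of_iterate hM (evp x₁ η (derivative f))
  · rw [constantCoeff_evp, hη0]
    exact h1
  intro r hr
  -- the polynomial as a sum
  have e1 : evp x₁ η (hpoly p f.natDegree A B c) = ∑ s : Idx f.natDegree A B,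
      evp x₁ η (c s • (C (X ^ (s.1.1 : ℕ)) * X ^ (s.1.2 : ℕ))) *
        (evp x₁ η (C (X ^ (s.2.2 : ℕ)) * X ^ (s.2.1 : ℕ))) ^ p := by
    unfold hpoly
    rw [map_sum]
    apply Finset.sum_congr rfl
    intro s _
    rw [ord_evp_smul, ord_evp_smul, map_mul, map_pow (evp x₁ η), mul_assoc]
  rw [e1, chain_iterate hη _ _ _ (fun s _ => ord_der_pow _) r, map_sum]
  have e2 : ∀ s ∈ (Finset.univ : Finset (Idx f.natDegree A B)), PowerSeries.constantCoeff
      (evp x₁ η ((DD f)^[r] (c s • (C (X ^ (s.1.1 : ℕ)) * X ^ (s.1.2 : ℕ)))) *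
        (evp x₁ η (C (X ^ (s.2.2 : ℕ)) * X ^ (s.2.1 : ℕ))) ^ p) =
      ev3 x₁ y₁ (y₁ ^ p) (c s • (C ((DD f)^[r] (C (X ^ (s.1.1 : ℕ)) * X ^ (s.1.2 : ℕ)) *
        C (X ^ (s.2.2 : ℕ))) * X ^ (s.2.1 : ℕ))) := by
    intro s _
    rw [ord_iter_smul, ord_evp_smul, map_mul, map_mul, map_pow PowerSeries.constantCoeff,
      PowerSeries.constantCoeff_C, constantCoeff_evp, constantCoeff_evp, hη0, ord_evalEval_CX,
      ord_smul3, map_mul, map_mul, map_pow (ev3 x₁ y₁ (y₁ ^ p)), ev3_X, ev3_C, ev3_C]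
    have e3 : ∀ P Q : K[X][X], (P * Q).evalEval x₁ y₁ = P.evalEval x₁ y₁ * Q.evalEval x₁ y₁ := by
      intro P Q
      rw [← coe_evalEvalRingHom, map_mul]
    rw [e3]
    have e4 : (C (C (c s)) : K[X][X]).evalEval x₁ y₁ = c s := by
      unfold evalEval
      simp
    have e5 : (C (X ^ (s.2.2 : ℕ)) : K[X][X]).evalEval x₁ y₁ = x₁ ^ (s.2.2 : ℕ) := by
      unfold evalEval
      simp
    rw [e4, e5, mul_pow, ← pow_mul, ← pow_mul, mul_comm (s.2.2 : ℕ) p, mul_comm (s.2.1 : ℕ) p,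
      pow_mul x₁ p, hx, pow_mul y₁ p]
    ring
  rw [Finset.sum_congr rfl e2, ← map_sum]
  have e6 : (∑ s : Idx f.natDegree A B, c s • (C ((DD f)^[r] (C (X ^ (s.1.1 : ℕ)) *
      X ^ (s.1.2 : ℕ)) * C (X ^ (s.2.2 : ℕ))) * X ^ (s.2.1 : ℕ))) =
      rpoly f f.natDegree A B r c := rfl
  rw [e6, ← modByMonic_add_div (rpoly f f.natDegree A B r c) F, map_add, map_mul, h2, zero_mul,
    add_zero]
  have e7 : ∀ P : K[X][X][X], ev3 x₁ y₁ (y₁ ^ p) P =
      ∑ k ∈ Finset.range (P.natDegree + 1), (P.coeff k).evalEval x₁ y₁ * (y₁ ^ p) ^ k := by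
    intro P
    conv_lhs => rw [P.as_sum_range_C_mul_X_pow]
    rw [map_sum]
    apply Finset.sum_congr rfl
    intro k _
    rw [map_mul, map_pow (ev3 x₁ y₁ (y₁ ^ p)), ev3_X, ev3_C]
  rw [e7]
  apply Finset.sum_eq_zero
  intro k _
  obtain ⟨q, hq⟩ := hc r hr k
  rw [hq, ← coe_evalEvalRingHom, map_mul, coe_evalEvalRingHom, h0, zero_mul, zero_mul]

end Pool.Agent.WPl
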