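import Pool.Agent.WPl.Est

/-!
# Weil's bound over all finite fields of a fixed characteristic (Bombieri): upper bounds

`q = P Q'` with `P = p^(n/2)`, `Q' = p^(n - n/2)`. The polynomial
`H = Σ c x^i Y^j (x^l Y^k)^{Q'}` does not vanish on the curve if `d (A + D d) ≤ Q'`, and `H^P`
restricted to the graph of the `q`-Frobenius is `Σ c^P x^{iP} Y^{jP} x^l Z^k`: no derivative is
needed.
-/

namespace Pool.Agent.WPl

open Polynomial

theorem coeff_pow_pow {K : Type*} [Field K] {p : ℕ} [Fact p.Prime] [CharP K p] (g : PowerSeries K)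
    (n : ℕ) {m : ℕ} (h : ¬ p ^ n ∣ m) : PowerSeries.coeff m (g ^ p ^ n) = 0 := by
  have hp : p ≠ 0 := (Fact.out : p.Prime).ne_zero
  have : ExpChar K p := ExpChar.prime (Fact.out : p.Prime)
  have h1 : PowerSeries.map (iterateFrobenius K p n)
      (PowerSeries.expand (p ^ n) (pow_ne_zero n hp) g) = g ^ p ^ n :=
    MvPowerSeries.map_iterateFrobenius_expand (σ := Unit) p hp g n
  rw [← h1, PowerSeries.coeff_map, PowerSeries.coeff_expand_of_not_dvd _ _ _ h, map_zero]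

theorem not_dvd_hpolyQ {K : Type*} [Field K] [IsAlgClosed K] {p : ℕ} [Fact p.Prime] [CharP K p]
    {f : K[X][X]} (hf : f.Monic) (hp : Prime f) (hder : ¬ f ∣ derivative f) {D : ℕ}
    (hfw : f ∈ (fil2 K D).F (D * f.natDegree)) {A B n : ℕ}
    (hA : f.natDegree * (A + D * f.natDegree) ≤ p ^ n) {c : Idx f.natDegree A B → K}
    (hc : c ≠ 0) : ¬ f ∣ hpoly (p ^ n) f.natDegree A B c := by
  intro hdvd
  apply hc
  have hp0 : 0 < p ^ n := pow_pos (Fact.out : p.Prime).pos n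
  have hd : f.natDegree ≠ 0 := by
    intro h0
    have h1 : f = 1 := hf.natDegree_eq_zero.1 h0
    exact hp.not_isUnit (h1 ▸ isUnit_one)
  obtain ⟨x₁, y₁, h0, h1⟩ := exists_unram hf hp hder
  obtain ⟨η, -, hη⟩ := exists_root hf h0 h1
  have : CharP (PowerSeries K) p :=
    charP_of_injective_ringHom (f := (PowerSeries.C : K →+* PowerSeries K))
      PowerSeries.C_injective p
  have : ExpChar (PowerSeries K) p := ExpChar.prime (Fact.out : p.Prime)
  choose b hb using fun s : Idx f.natDegree A B => IsAlgClosed.exists_pow_nat_eq (c s) hp0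
  have hev : ∑ i : Fin A × Fin f.natDegree, evp x₁ η (C (X ^ (i.1 : ℕ)) * X ^ (i.2 : ℕ)) *
      (evp x₁ η (pol fun k l => b (i, (k, l)))) ^ p ^ n = 0 := by
    have h2 : evp x₁ η (hpoly (p ^ n) f.natDegree A B c) = 0 := by
      obtain ⟨q, hq⟩ := hdvd
      rw [hq, map_mul, hη, zero_mul]
    refine Eq.trans ?_ h2
    rw [hpoly, map_sum]
    refine Eq.trans ?_ (Fintype.sum_prod_type _).symm
    apply Finset.sum_congr rfl
    intro i _
    rw [evp_pol, ← Fintype.sum_prod_type', sum_pow_char_pow, Finset.mul_sum]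
    apply Finset.sum_congr rfl
    intro s _
    rw [evp_term, _root_.smul_pow, hb, mul_smul_comm]
  have hW := indep_pow hp0 _ _ (fun i m hm => coeff_pow_pow (p := p) _ n hm) ?_ hev
  · funext s
    obtain ⟨i, k, l⟩ := s
    have h3 : evp x₁ η (pol fun k l => b (i, (k, l))) = 0 := by
      have := hW i
      exact pow_eq_zero_iff (hp0.ne') |>.1 this
    have h4 : (fun k l => b (i, (k, l))) = 0 := by
      by_contra hne
      exact evp_ne_zero hf hp hη (not_dvd_pol hf hne) h3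
    have h5 : b (i, (k, l)) = 0 := congrFun (congrFun h4 k) l
    rw [← hb, h5, zero_pow hp0.ne']
    rfl
  · intro a ha
    have h3 : (PowerSeries.X : PowerSeries K) ^ (p ^ n) ∣
        evp x₁ η (pol fun (k : Fin f.natDegree) (l : Fin A) => a (l, k)) := by
      rw [PowerSeries.X_pow_dvd_iff]
      intro m hm
      rw [← ha m hm, evp_pol, Fintype.sum_prod_type, Finset.sum_comm]
    by_contra hne
    have hne' : (fun (k : Fin f.natDegree) (l : Fin A) => a (l, k)) ≠ 0 := by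
      intro h'
      apply hne
      funext i
      exact congrFun (congrFun h' i.2) i.1
    have hA0 : 0 < A := by
      rcases Nat.eq_zero_or_pos A with hA0 | hA0
      · exfalso
        apply hne
        funext i
        exact absurd i.1.2 (by omega)
      · exact hA0
    refine not_dvd_of_small hf hp hfw hη (not_dvd_pol hf hne') (pol_mem D _) ?_ h3
    refine lt_of_lt_of_le ?_ hA
    apply Nat.mul_lt_mul_of_pos_left _ (Nat.pos_of_ne_zero hd)
    have h6 : D * (f.natDegree - 1) ≤ D * f.natDegree := Nat.mul_le_mul_left D (by omega)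
    omega

/-- Linear algebra, general form. -/
theorem exists_coeffs_gen {K : Type*} [Field K] {f : K[X][X]} (hf : f.Monic) {D : ℕ}
    (hfw : f ∈ (fil2 K D).F (D * f.natDegree)) {F : K[X][X][X]} (hF : F.Monic)
    (hFw : F ∈ (fil3 K D).F (D * F.natDegree)) {ι : Type} [Fintype ι] (T : ι → K[X][X][X]) {N : ℕ}
    (hT : ∀ s, T s ∈ (fil3 K D).F N)
    (hcount : F.natDegree * (f.natDegree * (N + 1)) < Fintype.card ι) :
    ∃ c : ι → K, c ≠ 0 ∧ ∀ k, f ∣ ((∑ s, c s • T s) %ₘ F).coeff k := by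
  classical
  let rl : (ι → K) →ₗ[K] K[X][X][X] := Fintype.linearCombination K T
  have hrl : ∀ c, rl c = ∑ s, c s • T s := fun c => Fintype.linearCombination_apply _ _ _
  let m1 : K[X][X][X] →ₗ[K] K[X][X][X] := (modByMonicHom F).restrictScalars K
  let m2 : K[X][X] →ₗ[K] K[X][X] := (modByMonicHom f).restrictScalars K
  let c1 : ℕ → (K[X][X][X] →ₗ[K] K[X][X]) := fun k => (lcoeff K[X][X] k).restrictScalars K
  let c2 : ℕ → (K[X][X] →ₗ[K] K[X]) := fun j => (lcoeff K[X] j).restrictScalars K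
  let L : (ι → K) →ₗ[K] ((Fin F.natDegree × (Fin f.natDegree × Fin (N + 1))) → K) :=
    LinearMap.pi fun t => (lcoeff K (t.2.2 : ℕ)).comp ((c2 t.2.1).comp
      (m2.comp ((c1 t.1).comp (m1.comp rl))))
  have hL : ∀ c t, L c t = (((((∑ s, c s • T s) %ₘ F).coeff t.1) %ₘ f).coeff t.2.1).coeff t.2.2 := by
    intro c t
    rw [← hrl]
    rfl
  have hker : LinearMap.ker L ≠ ⊥ := by
    apply LinearMap.ker_ne_bot_of_finrank_lt
    rw [Module.finrank_fintype_fun_eq_card, Module.finrank_fintype_fun_eq_card]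
    simp only [Fintype.card_prod, Fintype.card_fin]
    exact hcount
  obtain ⟨c, hc, hc0⟩ := Submodule.exists_mem_ne_zero_of_ne_bot hker
  refine ⟨c, hc0, ?_⟩
  intro k
  have hR : (∑ s, c s • T s) ∈ (fil3 K D).F N :=
    Submodule.sum_mem _ fun s _ => Submodule.smul_mem _ _ (hT s)
  by_cases hk : k < F.natDegree
  · rw [← modByMonic_eq_zero_iff_dvd hf]
    have w1 := modByMonic_mem (φ := fil2 K D) hF hFw hR
    have w2 := modByMonic_mem (φ := fil1 K) hf hfw (coeff_mem_of (φ := fil2 K D) w1 k)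
    ext j n
    rw [coeff_zero, coeff_zero]
    by_cases hj : j < f.natDegree
    · by_cases hn : n < N + 1
      · have h1 := congrFun (LinearMap.mem_ker.1 hc) (⟨k, hk⟩, (⟨j, hj⟩, ⟨n, hn⟩))
        rw [hL] at h1
        exact h1
      · have w3 := mem_fil1.1 (coeff_mem_of (φ := fil1 K) w2 j)
        apply coeff_eq_zero_of_natDegree_lt
        omega
    · rw [coeff_modByMonic_zero hf (not_lt.1 hj), coeff_zero]
  · rw [coeff_modByMonic_zero hF (not_lt.1 hk)]
    exact dvd_zero f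

/-- A polynomial which is `0` modulo `F` and `f` vanishes at the common zeros. -/
theorem ev3_eq_zero {K : Type*} [Field K] {f : K[X][X]} {F : K[X][X][X]} {x₁ y₁ z₁ : K}
    (h0 : f.evalEval x₁ y₁ = 0) (h2 : ev3 x₁ y₁ z₁ F = 0) {R : K[X][X][X]}
    (hR : ∀ k, f ∣ (R %ₘ F).coeff k) : ev3 x₁ y₁ z₁ R = 0 := by
  rw [← modByMonic_add_div R F, map_add, map_mul, h2, zero_mul, add_zero]
  have e7 : ∀ P : K[X][X][X], ev3 x₁ y₁ z₁ P =
      ∑ k ∈ Finset.range (P.natDegree + 1), (P.coeff k).evalEval x₁ y₁ * z₁ ^ k := by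
    intro P
    conv_lhs => rw [P.as_sum_range_C_mul_X_pow]
    rw [map_sum]
    apply Finset.sum_congr rfl
    intro k _
    rw [map_mul, map_pow (ev3 x₁ y₁ z₁)]
    simp [ev3]
  rw [e7]
  apply Finset.sum_eq_zero
  intro k _
  obtain ⟨q, hq⟩ := hR k
  rw [hq, ← coe_evalEvalRingHom, map_mul, coe_evalEvalRingHom, h0, zero_mul, zero_mul]

/-- The restriction of `H^P` to the graph of the Frobenius, term by term. -/
noncomputable def qterm {K : Type*} [Field K] (P d A B : ℕ) (s : Idx d A B) : K[X][X][X] :=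
  C ((C (X ^ (s.1.1 : ℕ)) * X ^ (s.1.2 : ℕ)) ^ P * C (X ^ (s.2.2 : ℕ))) * X ^ (s.2.1 : ℕ)

theorem qterm_mem {K : Type*} [Field K] (D P d A B : ℕ) (s : Idx d A B) :
    (qterm P d A B s : K[X][X][X]) ∈ (fil3 K D).F (P * (A + D * d) + B + D * d) := by
  have h1 : (C (X ^ (s.1.1 : ℕ)) : K[X][X]) ∈ (fil2 K D).F s.1.1 :=
    C_mem (mem_fil1.2 (by rw [natDegree_X_pow]))
  have h2 : (X ^ (s.1.2 : ℕ) : K[X][X]) ∈ (fil2 K D).F ((s.1.2 : ℕ) * D) := pow_mem X_mem _
  have h3 := pow_mem ((fil2 K D).mul h1 h2) P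
  have h4 : (C (X ^ (s.2.2 : ℕ)) : K[X][X]) ∈ (fil2 K D).F s.2.2 :=
    C_mem (mem_fil1.2 (by rw [natDegree_X_pow]))
  have h5 := (fil2 K D).mul h3 h4
  have h6 : (X ^ (s.2.1 : ℕ) : K[X][X][X]) ∈ (fil3 K D).F ((s.2.1 : ℕ) * D) := pow_mem X_mem _
  have h7 := (fil3 K D).mul (C_mem (φ := fil2 K D) (w := D) h5) h6
  refine (fil3 K D).mono ?_ h7
  have a1 := s.1.1.2
  have a2 := s.1.2.2
  have a3 := s.2.1.2
  have a4 := s.2.2.2
  have b1 : (s.1.2 : ℕ) * D ≤ D * d := by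
    rw [mul_comm]; exact Nat.mul_le_mul_left _ a2.le
  have b2 : (s.2.1 : ℕ) * D ≤ D * d := by
    rw [mul_comm]; exact Nat.mul_le_mul_left _ a3.le
  have b3 : P * ((s.1.1 : ℕ) + (s.1.2 : ℕ) * D) ≤ P * (A + D * d) :=
    Nat.mul_le_mul_left _ (by omega)
  omega

/-- `H` vanishes at the points of the graph of the Frobenius. -/
theorem hpoly_eval {K : Type*} [Field K] {p : ℕ} [Fact p.Prime] [CharP K p]
    {f : K[X][X]} {F : K[X][X][X]} {A B m n : ℕ} {c b : Idx f.natDegree A B → K}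
    (hb : ∀ s, b s ^ p ^ m = c s)
    (hc : ∀ k, f ∣ ((∑ s, c s • qterm (p ^ m) f.natDegree A B s) %ₘ F).coeff k)
    {x₁ y₁ : K} (hx : x₁ ^ p ^ (m + n) = x₁) (h0 : f.evalEval x₁ y₁ = 0)
    (h2 : ev3 x₁ y₁ (y₁ ^ p ^ (m + n)) F = 0) :
    (hpoly (p ^ n) f.natDegree A B b).evalEval x₁ y₁ = 0 := by
  have hp0 : p ^ m ≠ 0 := pow_ne_zero _ (Fact.out : p.Prime).ne_zero
  have : ExpChar K p := ExpChar.prime (Fact.out : p.Prime)
  have h3 := ev3_eq_zero h0 h2 hc
  rw [← pow_eq_zero_iff hp0, ← h3, map_sum]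
  have e1 : (hpoly (p ^ n) f.natDegree A B b).evalEval x₁ y₁ =
      ∑ s : Idx f.natDegree A B, b s * ((x₁ ^ (s.1.1 : ℕ) * y₁ ^ (s.1.2 : ℕ)) *
        (x₁ ^ (s.2.2 : ℕ) * y₁ ^ (s.2.1 : ℕ)) ^ p ^ n) := by
    rw [hpoly, evalEval_finsetSum]
    apply Finset.sum_congr rfl
    intro s _
    simp only [evalEval_smul, evalEval_mul, evalEval_pow, evalEval_X, evalEval_C, eval_pow, eval_X,
      smul_eq_mul]
  rw [e1, sum_pow_char_pow]
  apply Finset.sum_congr rfl
  intro s _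
  have e2 : ev3 x₁ y₁ (y₁ ^ p ^ (m + n)) (c s • qterm (p ^ m) f.natDegree A B s) =
      c s * (((x₁ ^ (s.1.1 : ℕ) * y₁ ^ (s.1.2 : ℕ)) ^ p ^ m * x₁ ^ (s.2.2 : ℕ)) *
        (y₁ ^ p ^ (m + n)) ^ (s.2.1 : ℕ)) := by
    have e3 : c s • qterm (p ^ m) f.natDegree A B s =
        C (C (C (c s))) * qterm (p ^ m) f.natDegree A B s := by
      rw [Algebra.smul_def]; rfl
    rw [e3, qterm]
    simp [ev3]
  rw [e2, mul_pow, hb]
  congr 1
  rw [mul_pow, ← pow_mul ((x₁ ^ (s.2.2 : ℕ) * y₁ ^ (s.2.1 : ℕ))), ← pow_add, add_comm n m,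
    mul_pow (x₁ ^ (s.2.2 : ℕ)), ← pow_mul x₁ (s.2.2 : ℕ), mul_comm (s.2.2 : ℕ) (p ^ (m + n)),
    pow_mul x₁ (p ^ (m + n)), hx, ← pow_mul y₁ (s.2.1 : ℕ), mul_comm (s.2.1 : ℕ) (p ^ (m + n)),
    pow_mul y₁ (p ^ (m + n))]
  ring

end Pool.Agent.WPl
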