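import Pool.Agent.WPl.Defs

/-!
# Weights (module WPl/Weight)

`Fil.poly φ w` is the filtration of `R[X]` for which `X` has weight `w`: `G` has weight at most `W`
if every nonzero coefficient `G.coeff j` has `w j ≤ W` and `G.coeff j ∈ φ.F (W - w j)`.

PAPER PROOFS.

* `mem_poly` is `Iff.rfl`; `mem_fil1`: for `G ∈ K[x]`, weight `≤ W` means `1 * j ≤ W` whenever
  `G.coeff j ≠ 0`, i.e. `natDegree ≤ W` (`natDegree_le_iff_coeff_eq_zero`).
* `C_mem`, `X_mem`, `pow_mem`: from the definition, `φ.one`, `φ.mul` and induction.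
* `derivative_mem`: the `j`-th coefficient of the derivative is `G.coeff (j+1) * (j+1)`, which
  is a natural number multiple of an element of `φ.F (W - w (j+1)) ≤ φ.F (W - w j)`
  (`x * (n : R) = n • x`, `Submodule.smul_mem` for natural numbers: `nsmul_mem`).
* `dx_mem`: the `j`-th coefficient of `dx G` is `derivative (G.coeff j)` (`coeff_dx`), whose degree
  is at most that of `G.coeff j`.
* `DD_mem`: `DD f G = f_Y * dx G - dx f * G_Y`; use `derivative_mem`, `dx_mem` and `mul`.
* `modByMonic_mem`: strong induction on `natDegree G`. If `degree G < degree P` then `G %ₘ P = G`.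
  Otherwise let `n = natDegree G ≥ m = natDegree P` (`G ≠ 0`), `G' = G - C (lc G) X^(n-m) P`. Then
  `G %ₘ P = G' %ₘ P`, `degree G' < degree G`, and `G'` has weight `≤ W`:
  `lc G ∈ φ.F (W - w n)`, `X^(n-m)` has weight `w (n - m)`, `P` has weight `w m`, and
  `(W - w n) + w (n - m) + w m = W` since `w n ≤ W`. (If `degree G' < degree P` is already reached
  use the first case; if `natDegree G = 0 = natDegree P` then `P = 1` and `G %ₘ 1 = 0`.)
-/

namespace Pool.Agent.WPl

open Polynomial

variable {K : Type*} [Field K] {R : Type*} [CommRing R] [Algebra K R]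

theorem mem_poly {φ : Fil K R} {w W : ℕ} {G : R[X]} :
    G ∈ (φ.poly w).F W ↔ ∀ j, G.coeff j ≠ 0 → w * j ≤ W ∧ G.coeff j ∈ φ.F (W - w * j) :=
  Iff.rfl

theorem mem_fil1 {G : K[X]} {W : ℕ} : G ∈ (fil1 K).F W ↔ G.natDegree ≤ W := by
  rw [natDegree_le_iff_coeff_eq_zero]
  constructor
  · intro h j hj
    by_contra hne
    have := (h j hne).1
    omega
  · intro h j hj
    refine ⟨?_, trivial⟩
    by_contra hcon
    exact hj (h j (by omega))

theorem C_mem {φ : Fil K R} {w W : ℕ} {a : R} (h : a ∈ φ.F W) : C a ∈ (φ.poly w).F W := by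
  intro j hj
  rw [coeff_C] at hj ⊢
  split_ifs at hj ⊢ with h0
  · subst h0
    refine ⟨by simp, ?_⟩
    simpa using h
  · exact absurd rfl hj

theorem X_mem {φ : Fil K R} {w : ℕ} : (X : R[X]) ∈ (φ.poly w).F w := by
  intro j hj
  rw [coeff_X] at hj ⊢
  split_ifs at hj ⊢ with h0
  · subst h0
    refine ⟨by simp, ?_⟩
    simpa using φ.one
  · exact absurd rfl hj

theorem pow_mem {φ : Fil K R} {W : ℕ} {a : R} (h : a ∈ φ.F W) (n : ℕ) : a ^ n ∈ φ.F (n * W) := by
  induction n with
  | zero =>
    rw [pow_zero, zero_mul]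
    exact φ.one
  | succ n ih =>
    rw [pow_succ, add_mul, one_mul]
    exact φ.mul ih h

theorem derivative_mem {φ : Fil K R} {w W : ℕ} {G : R[X]} (h : G ∈ (φ.poly w).F W) :
    derivative G ∈ (φ.poly w).F W := by
  intro j hj
  rw [coeff_derivative] at hj ⊢
  have h1 : G.coeff (j + 1) ≠ 0 := left_ne_zero_of_mul hj
  obtain ⟨h2, h3⟩ := h _ h1
  have h4 : w * (j + 1) = w * j + w := by ring
  refine ⟨by omega, ?_⟩
  have h5 : G.coeff (j + 1) * ((j : R) + 1) = (j + 1) • G.coeff (j + 1) := by
    rw [nsmul_eq_mul]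
    push_cast
    ring
  rw [h5]
  exact nsmul_mem (φ.mono (by omega) h3) _

theorem dx_mem {D W : ℕ} {G : K[X][X]} (h : G ∈ (fil2 K D).F W) : dx G ∈ (fil2 K D).F W := by
  intro j hj
  rw [coeff_dx] at hj ⊢
  have h1 : G.coeff j ≠ 0 := by
    intro h0
    rw [h0, derivative_zero] at hj
    exact hj rfl
  obtain ⟨h2, h3⟩ := h _ h1
  exact ⟨h2, derivative_mem h3⟩

theorem DD_mem {D W V : ℕ} {f G : K[X][X]} (hf : f ∈ (fil2 K D).F V) (h : G ∈ (fil2 K D).F W) :
    DD f G ∈ (fil2 K D).F (W + V) := by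
  rw [DD_apply]
  have h1 := (fil2 K D).mul (derivative_mem hf) (dx_mem h)
  have h2 := (fil2 K D).mul (dx_mem hf) (derivative_mem h)
  rw [add_comm W V]
  exact Submodule.sub_mem _ h1 h2

theorem DD_iterate_mem {D W V : ℕ} {f G : K[X][X]} (hf : f ∈ (fil2 K D).F V)
    (h : G ∈ (fil2 K D).F W) (r : ℕ) : (DD f)^[r] G ∈ (fil2 K D).F (W + r * V) := by
  induction r with
  | zero =>
    rw [zero_mul, add_zero]
    exact h
  | succ r ih =>
    rw [Function.iterate_succ_apply', add_mul, one_mul, ← add_assoc]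
    exact DD_mem hf ih

theorem modByMonic_mem {φ : Fil K R} {w W : ℕ} {P G : R[X]} (hP : P.Monic)
    (hPw : P ∈ (φ.poly w).F (w * P.natDegree)) (hG : G ∈ (φ.poly w).F W) :
    G %ₘ P ∈ (φ.poly w).F W := by
  rcases subsingleton_or_nontrivial R with hR | hR
  · have : G %ₘ P = 0 := Subsingleton.elim _ _
    rw [this]
    exact Submodule.zero_mem _
  obtain ⟨N, hN⟩ : ∃ N, G.natDegree = N := ⟨_, rfl⟩
  induction N using Nat.strong_induction_on generalizing G with
  | _ N ih =>
    by_cases hlt : G.degree < P.degree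
    · rw [(modByMonic_eq_self_iff hP).2 hlt]
      exact hG
    · push Not at hlt
      have hG0 : G ≠ 0 := by
        rintro rfl
        rw [degree_zero, le_bot_iff, degree_eq_bot] at hlt
        exact hP.ne_zero hlt
      have hnm : P.natDegree ≤ G.natDegree := natDegree_le_natDegree hlt
      obtain ⟨Q, hQ⟩ : ∃ Q, Q = G - P * (C G.leadingCoeff * X ^ (G.natDegree - P.natDegree)) :=
        ⟨_, rfl⟩
      have hdeg : Q.degree < G.degree := by
        rw [hQ]
        exact div_wf_lemma ⟨hlt, hG0⟩ hP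
      have hmod : G %ₘ P = Q %ₘ P := by
        rw [hQ, sub_modByMonic, self_mul_modByMonic hP, sub_zero]
      have hlc : G.leadingCoeff ≠ 0 := leadingCoeff_ne_zero.2 hG0
      obtain ⟨h1, h2⟩ := hG G.natDegree hlc
      have hQm : Q ∈ (φ.poly w).F W := by
        rw [hQ]
        refine Submodule.sub_mem _ hG ?_
        have h3 := (φ.poly w).mul hPw ((φ.poly w).mul (C_mem (w := w) h2)
          (pow_mem (X_mem (φ := φ) (w := w)) (G.natDegree - P.natDegree)))
        refine (φ.poly w).mono ?_ h3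
        have h4 : w * P.natDegree + (G.natDegree - P.natDegree) * w = w * G.natDegree := by
          obtain ⟨c, hc⟩ := Nat.exists_eq_add_of_le hnm
          rw [hc, Nat.add_sub_cancel_left]
          ring
        omega
      rw [hmod]
      by_cases hQ0 : Q = 0
      · rw [hQ0, zero_modByMonic]
        exact Submodule.zero_mem _
      · refine ih Q.natDegree ?_ hQm rfl
        rw [← hN]
        exact natDegree_lt_natDegree hQ0 hdeg

end Pool.Agent.WPl
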